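import Mathlib
import Pool.Agent.SDG.St
import Pool.Agent.Helper58.Atoms

/-!
# MDR: subset sums in groups of odd order, common part (MP_ec93d3_co)

Architects helper22, helper48 (with helper86).  Definitions `FS`, `lam` (Helper64.Rho), `Aper`, `Cap`, `gen`, `cf`, `jj`, `it`, `st`
(Pool.Agent.SDG.St).

Aim: a family of `t` nonzero elements of a finite abelian group of odd order (at least: of order prime to 6), at most two of them
equal to `± x` for each `x`, with aperiodic set of sums, has at least `cf 2 t = 1 + (t + 1) ^ 2 / 4` sums, WITHOUT density condition.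

Notation in the docstrings: `N = |G|`, `l = |u|` or `|s|`, `X` a set of sums.
Every `St_X` is a statement; its proof is in the docstring.  A module proves `thm_X : St_A → St_B → ... → St_X`.
-/

set_option autoImplicit false

noncomputable section

open Finset Pool.Agent.Helper64.Rho Pool.Agent.SDG
open scoped Classical Pointwise

namespace Pool.Agent.MDR

/-- nonzero members, at most one member in every class `{x, -x}` -/
def AS {G ι : Type} [AddCommGroup G] (s : Finset ι) (f : ι → G) : Prop := (∀ i ∈ s, f i ≠ 0) ∧ Cap 1 s f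

/-- `{0} ∪ {± f i}` -/
def sym {G ι : Type} [AddCommGroup G] (s : Finset ι) (f : ι → G) : Finset G :=
  {0} ∪ (s.image f ∪ s.image fun i => - f i)

/-- all members are of the form `± k d`, `1 ≤ k ≤ |s|` -/
def Prog {G ι : Type} [AddCommGroup G] (s : Finset ι) (f : ι → G) : Prop :=
  ∃ d : G, ∀ i ∈ s, ∃ k : ℕ, 1 ≤ k ∧ k ≤ s.card ∧ (f i = k • d ∨ f i = -(k • d))

/-- some proper nonzero subgroup nearly fills `D` -/
def NearP {G : Type} [AddCommGroup G] [Finite G] (D : Finset G) : Prop :=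
  ∃ K : AddSubgroup G, K ≠ ⊥ ∧ K ≠ ⊤ ∧ (st D K).card + 1 ≤ D.card + Nat.card K

/-- the two conclusions of the engine (`Exc` = exceptional families; `Exc = False` for order prime to 6) -/
def EngX {G ι : Type} [AddCommGroup G] (Exc : Finset ι → Prop) (f : ι → G) (u : Finset ι) : Prop :=
  (2 + u.card * (u.card + 1) ≤ 2 * (FS u f).card ∨ Exc u) ∧
    (u.card * u.card + 2 * u.card ≤ Nat.card G → 2 * (FS u f).card ≤ 2 + u.card * (u.card + 1) → Prog u f ∨ Exc u)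

/-- growth of the multiples of `{0} ∪ {± f i}` -/
def Grow {G ι : Type} [AddCommGroup G] (f : ι → G) (u : Finset ι) : Prop :=
  ∀ i, 1 ≤ i → Nat.card G ≤ (it (sym u f) i).card ∨ i * (2 * u.card + 2) ≤ (it (sym u f) i).card + 1

/-- members in a subgroup -/
def ins {G ι : Type} [AddCommGroup G] (s : Finset ι) (f : ι → G) (M : AddSubgroup G) : Finset ι := s.filter fun i => f i ∈ M

/-- members outside a subgroup -/
def outs {G ι : Type} [AddCommGroup G] (s : Finset ι) (f : ι → G) (M : AddSubgroup G) : Finset ι := s.filter fun i => f i ∉ M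

/-! ## Elementary facts -/

/-- **Sg** (1 h).  Change of signs.  `f' i = ± f i` for `i ∈ s`.
Let `P = {i ∈ s | f' i ≠ f i}`, so `f' i = - f i` on `P`, and `c = - ∑_{i ∈ P} f i`.  For `t ⊆ s`: `∑_t f' = ∑_{t \ P} f - ∑_{t ∩ P} f = ∑_{(t \ P) ∪ (P \ t)} f + c`,
and `t ↦ (t \ P) ∪ (P \ t)` is an involution of the subsets of `s`.  So `FS s f' = FS s f + c`; cardinality and periods are the same, and
`FS s f' + FS s f' = FS s f + FS s f + 2 c`.  The other items are immediate (`f' i = x ∨ f' i = -x` iff `f i = x ∨ f i = -x`). -/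
def St_Sg : Prop :=
  ∀ (G ι : Type) [AddCommGroup G] (s : Finset ι) (f f' : ι → G), (∀ i ∈ s, f' i = f i ∨ f' i = - f i) →
    (FS s f').card = (FS s f).card ∧ (Aper (FS s f) → Aper (FS s f')) ∧ (Aper (FS s f + FS s f) → Aper (FS s f' + FS s f')) ∧
    gen s f' = gen s f ∧ (∀ g, Cap g s f → Cap g s f') ∧ (AS s f → AS s f') ∧ sym s f' = sym s f ∧ (Prog s f' → Prog s f)

/-- **Sy** (0.8 h).  The symmetric set.  `|G|` odd: `f i ≠ - f i`, so by `Cap 1` the `2 l` elements `± f i` are different and nonzero.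
The last item: `lam X (-y) = lam X y`, `lam X 0 = 0`. -/
def St_Sy : Prop :=
  ∀ (G ι : Type) [AddCommGroup G] [Finite G] (s : Finset ι) (f : ι → G), Odd (Nat.card G) → AS s f →
    (sym s f).card = 2 * s.card + 1 ∧ (0 : G) ∈ sym s f ∧ (∀ y ∈ sym s f, -y ∈ sym s f) ∧
    AddSubgroup.closure (sym s f : Set G) = gen s f ∧
    (∀ (X : Finset G) (j : ℕ), (∀ i ∈ s, lam X (f i) ≤ j) → ∀ y ∈ sym s f, lam X y ≤ j)

/-- **Pg** (1.5 h, from Sg).  Progressions.  `Prog s f`, `AS s f`, `l = |s| ≥ 1`, `|G|` odd.  There are `d`, `c` with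
(1) `FS s f = {c + k d : k ≤ l (l+1) / 2}`, (2) the members are `± k d`, `1 ≤ k ≤ l`, and every `k` in this range occurs, (3) `gen s f = ⟨d⟩`,
(4) if moreover `Aper (FS s f)`, then `2 |FS s f| = 2 + l (l + 1)`.
Proof.  `d` from `Prog`; choose `k(i)`.  `k` is injective on `s`: if `k(i) = k(j)` then `f j = ± f i`, so `i = j` by `Cap 1`.  So `k : s → [1, l]` is bijective.
(3): `k = 1` occurs.  By Sg we may assume `f i = k(i) d` (the translate changes `c` only).  Then `FS s f = {(∑_{k ∈ K} k) d : K ⊆ [1, l]}` and the subset sums of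
`{1, ..., l}` are all integers in `[0, l (l+1)/2]` (induction on `l`).  (4) if two of the elements `c + k d` coincide, `0 ≤ k < k' ≤ l (l+1)/2`, then the order of `d` is
`≤ l(l+1)/2` and `FS s f = c + ⟨d⟩` has the nonzero period `d` (`d ≠ 0` since `f i ≠ 0`). -/
def St_Pg : Prop :=
  ∀ (G ι : Type) [AddCommGroup G] [Finite G] (s : Finset ι) (f : ι → G), Odd (Nat.card G) → AS s f → 1 ≤ s.card → Prog s f →
    ∃ d c : G, FS s f = (range (s.card * (s.card + 1) / 2 + 1)).image (fun k : ℕ => c + k • d) ∧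
      (∀ i ∈ s, ∃ k : ℕ, 1 ≤ k ∧ k ≤ s.card ∧ (f i = k • d ∨ f i = -(k • d))) ∧
      (∀ k : ℕ, 1 ≤ k → k ≤ s.card → ∃ i ∈ s, f i = k • d ∨ f i = -(k • d)) ∧
      gen s f = AddSubgroup.zmultiples d ∧ (Aper (FS s f) → 2 * (FS s f).card = 2 + s.card * (s.card + 1))

/-- **Ex** (1.8 h, from Pg).  Extension of a progression by one element.  `l = |s| ≥ 3`, `s.erase i` is a progression that generates `G`,
`N ≥ 2 + l (l - 1) = 2 L`, `L = 1 + l (l-1) / 2`.  Then `2 |FS s f| ≥ 2 + l (l+1)`, with equality only if `s` is a progression.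
Proof.  By Pg: `A := FS (s.erase i) f = {c + k d : k < L}`, `G = ⟨d⟩`, `d` has order `N` (odd).  `f i = ± a d` with `1 ≤ a ≤ (N - 1) / 2`.  `a ≥ l`: otherwise a member `j` of
`s.erase i` has `f j = ± a d = ± f i`, against `Cap 1`.  `FS s f = A ∪ (A + f i)`; `|A ∪ (A - x)| = |A ∪ (A + x)|`, so let `f i = a d`:
`FS s f = {c + k d : k ∈ [0, L) ∪ [a, a + L)}`, `a + L ≤ N`, so the elements for different `k` are different and `|FS s f| = L + min (a, L)`.
If `a = l`: `L ≥ l + 1 > a` (`l ≥ 3`), `|FS s f| = L + l = 1 + l (l+1)/2`, and `Prog s f` with the same `d`.  If `a ≥ l + 1`: `L ≥ l + 1`, so `|FS s f| ≥ L + l + 1`. -/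
def St_Ex : Prop :=
  ∀ (G ι : Type) [AddCommGroup G] [Finite G] (s : Finset ι) (f : ι → G) (i : ι), Odd (Nat.card G) → AS s f → i ∈ s →
    3 ≤ s.card → Prog (s.erase i) f → gen (s.erase i) f = ⊤ → 2 + s.card * (s.card - 1) ≤ Nat.card G →
      2 + s.card * (s.card + 1) ≤ 2 * (FS s f).card ∧ (2 * (FS s f).card ≤ 2 + s.card * (s.card + 1) → Prog s f)

/-- **B3** (0.8 h).  At most three members, `|G|` odd: `2 |FS| ≥ 2 + l (l+1)`, i.e. `|FS| ≥ 1, 2, 4, 7`.
`l = 2`: `0, a, b, a + b` are different.  `l = 3`: the eight sums of `a, b, c`; two sums over `I ≠ J` are equal iff the sums over `I \ J` and `J \ I` are, which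
gives (nonzero, pairwise not `±`) one of the relations `a + b = c`, `a + c = b`, `b + c = a`, `a + b + c = 0`.  Two different ones of them give `2 a = 0`, `2 b = 0` or `2 c = 0`: impossible.
So at most one relation holds, and it identifies exactly one pair of the eight subsets. -/
def St_B3 : Prop :=
  ∀ (G ι : Type) [AddCommGroup G] [Finite G] (s : Finset ι) (f : ι → G), Odd (Nat.card G) → AS s f → s.card ≤ 3 →
    2 + s.card * (s.card + 1) ≤ 2 * (FS s f).card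

/-- `a, b, c` without a relation `± a ± b ± c = 0` -/
def Fr {G : Type} [AddCommGroup G] (a b c : G) : Prop := a + b ≠ c ∧ a + c ≠ b ∧ b + c ≠ a ∧ a + b + c ≠ 0

/-- nonzero and pairwise not `±` -/
def An {G : Type} [AddCommGroup G] (l : List G) : Prop := (∀ x ∈ l, x ≠ 0) ∧ l.Pairwise fun x y => x ≠ y ∧ x ≠ -y

/-- **B4a** (1.2 h).  Of the four triples of `a, b, c, e` at least one is free.
Suppose not.  Changing signs (`a → -a` etc.; the hypotheses and `Fr` are invariant) we may assume `c = a + b`, and `e = a - b` (the triple `a, b, e` is not free, so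
`e = ± a ± b`; `e ≠ ± c`; change the sign of `e`).  Triple `a, c, e`: `e = ± (c + a)` or `e = ± (c - a) = ± b`: the second is excluded, `a - b = 2 a + b` gives `a = - 2 b`,
`a - b = - 2 a - b` gives `3 a = 0`.  So `a = - 2 b`.  Triple `b, c, e`: `e = ± (c + b)` or `± (c - b) = ± a`: `a - b = a + 2 b` gives `3 b = 0`, `a - b = - a - 2 b` gives `b = - 2 a`;
`e = ± a` is excluded.  So `b = - 2 a`, `a = - 2 b = 4 a`, `3 a = 0`: contradiction.  (This is the place where 3 is used; only `2 x = 0 → x = 0` and `3 x = 0 → x = 0` are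
needed.  In Lean one can avoid the change of signs: the not free triples give relations with signs, treat the cases one by one.) -/
def St_B4a : Prop :=
  ∀ (G : Type) [AddCommGroup G] [Finite G] (a b c e : G), Nat.Coprime (Nat.card G) 6 → An [a, b, c, e] →
    Fr a b c ∨ Fr a b e ∨ Fr a c e ∨ Fr b c e

/-- the eight sums of `a, b, c` -/
def cube {G : Type} [AddCommGroup G] (a b c : G) : Finset G := {0, a} + {0, b} + {0, c}

/-- **B4b** (2 h).  `a, b, c` free (the eight sums are different), `e` a fourth element: at most 5 elements `q` of the cube `Q` have `q - e ∈ Q`, and if there are exactly 5 then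
`{a, b, c, e}` is a progression `± d, ± 2 d, ± 3 d, ± 4 d`.
Proof.  Elements `q = Σ(I)`, `q - e = Σ(J)` give `e = Σ(I) - Σ(J) = α a + β b + γ c`, `α, β, γ ∈ {-1, 0, 1}`; a pattern `(α, β, γ)` comes from `2 ^ (number of zeros)` pairs `(I, J)`.
As `e ≠ 0, ± a, ± b, ± c` the patterns with two or three zeros do not occur.  With exactly one zero: `e = ± a ± b`, `e = ± a ± c`, `e = ± b ± c`; for each of the three pairs at most one of the four patterns
holds (two would give `2 x = 0` for a nonzero `x` or `2 e = 0`).  Without zero: at most one of the eight patterns holds: two of them differ in one sign (`2 a = 0`), in two signs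
(`2 (a ± b) = 0`) or in three (`2 e = 0`).  Not all three pairs: changing signs let `e = a + b` (sign of `a` and `b`).  `e = α a + γ c`: `α = 1` gives `b = γ c`, excluded, so
`γ c = 2 a + b`; in the same way `e = β b + δ c` gives `β = -1`, `δ c = a + 2 b`; then `2 a + b = ± (a + 2 b)`: `a = b` or `3 (a + b) = 0`, excluded.  So the number is
`≤ 2 + 2 + 1 = 5`.  Equality: two pairs and one pattern without zero.  By the symmetry of `a, b, c` let the pairs be `{a, b}`, `{a, c}`; changing signs `e = a + b`, `c = 2 a + b`, and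
`a + b = α a + β b + γ (2 a + b)`.  `γ = 1`: `(α, β) = (1,1)`: `2 a + b = 0`, i.e. `c = 0`, no; `(1,-1)`: `b = 2 a`, the elements are `a, 2 a, 4 a, 3 a`; `(-1,1)`: `b = 0`, no;
`(-1,-1)`: `b = 0` no.  `γ = -1`: `(1,1)`: `2 a + b = 0` no; `(1,-1)`: `2 a + 3 b = 0`, with `g = a + b`: `b = -2 g`, `a = 3 g`, `c = 4 g`, `e = g`; `(-1,1)`: `b = - 4 a`, elements `a, 4a, 2a, 3a` up to sign;
`(-1,-1)`: `4 a + 3 b = 0`, `g = a + b`: `a = - 3 g`, `b = 4 g`, `c = - 2 g`, `e = g`. -/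
def St_B4b : Prop :=
  ∀ (G : Type) [AddCommGroup G] [Finite G] (a b c e : G), Nat.Coprime (Nat.card G) 6 → An [a, b, c, e] → Fr a b c →
    (cube a b c).card = 8 ∧ ((cube a b c).filter fun q => q - e ∈ cube a b c).card ≤ 5 ∧
    (((cube a b c).filter fun q => q - e ∈ cube a b c).card = 5 →
      ∃ d : G, ∀ x ∈ [a, b, c, e], ∃ k : ℕ, 1 ≤ k ∧ k ≤ 4 ∧ (x = k • d ∨ x = -(k • d)))

/-- **B4** (1 h, from B4a, B4b).  Four members: `|FS| ≥ 11`, and `= 11` only for progressions.  `s = {i1, i2, i3, i4}`, `a, b, c, e` the values; by B4a (and renaming) `a, b, c` is free.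
`FS s f = Q ∪ (Q + e)`, `|FS s f| = 16 - |Q ∩ (Q + e)|`, `Q ∩ (Q + e) = {q ∈ Q | q - e ∈ Q}`. -/
def St_B4 : Prop :=
  ∀ (G ι : Type) [AddCommGroup G] [Finite G] (s : Finset ι) (f : ι → G), Nat.Coprime (Nat.card G) 6 → AS s f → s.card = 4 →
    11 ≤ (FS s f).card ∧ ((FS s f).card ≤ 11 → Prog s f)

/-! ## Growth and averaging -/

/-- **Gw** (2.5 h, uses `Pool.Agent.Helper58.key`).  Growth.  `D = -D`, `0 ∈ D`, `|D| = 2 l + 1`, `|G|` odd, no proper nonzero subgroup nearly fills `D`, `D` is not `{k d : |k| ≤ l}`.  Then for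
all `i ≥ 1`: `|it D i| = N` or `|it D i| ≥ i (2 l + 2) - 1`.
Proof.  Induction on `i`.  `it D 1 = D`.  Let `E = it D i` (`⊇ D`, symmetric, contains `0`, so `|E|` is odd, as `|G|` is odd and only `0` is its own negative), and `|E| < N`, `|E| ≥ i (2l+2) - 1`.
If `|E + D| ≥ |E| + |D|`: the right side is even and `|E + D|` is odd, so `|E + D| ≥ |E| + |D| + 1 = |E| + 2 l + 2`.  Otherwise, if `|E + D| ≥ N - 1` then `|E + D| = N` (parity).  Otherwise
`Crit D ⊤ E`, and `key` (with `B = D`, `Q = ⊤`; `NK D ⊤` is `¬ NearP D`) gives `d ≠ 0` with `|D ∪ (d + D)| ≤ |D| + 1`.  Let `K = ⟨d⟩`.  Every `K`-coset that meets `D` and is not contained in `D` contains an `x ∈ D` with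
`x + d ∉ D`, and there is at most one such `x`.  So `|st D K| ≤ |D| + |K| - 1`; if `K ≠ ⊤` this is `NearP D`.  So `K = ⊤`.  `D ≠ G` (`|E| < N`), so exactly one `x ∈ D` has `x + d ∉ D`.  Let `I = {x, x - d, ..., x - m d}` be the
maximal progression in `D` ending in `x`.  `D = I`: from `y ∈ D` go forward `y, y + d, ...`; the last element in `D` before the first one outside `D` is `x`, so `y = x - k d` with all elements in between in `D`, `y ∈ I`.
So `D = {x - k d : 0 ≤ k ≤ 2 l}`, and the only `y ∈ D` with `y - d ∉ D` is `x - 2 l d`.  But `- x ∈ D`, `- x - d = - (x + d) ∉ D`; so `- x = x - 2 l d`, `2 (x - l d) = 0`, `x = l d`: `D = {k d : |k| ≤ l}`, excluded. -/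
def St_Gw : Prop :=
  ∀ (G : Type) [AddCommGroup G] [Finite G] (D : Finset G) (l : ℕ), Odd (Nat.card G) → 1 ≤ l → (0 : G) ∈ D → (∀ y ∈ D, -y ∈ D) →
    D.card = 2 * l + 1 → ¬ NearP D → (¬ ∃ d : G, ∀ y ∈ D, ∃ k : ℕ, k ≤ l ∧ (y = k • d ∨ y = -(k • d))) →
      ∀ i, 1 ≤ i → Nat.card G ≤ (it D i).card ∨ i * (2 * l + 2) ≤ (it D i).card + 1

/-- **Av0** (0.8 h, uses `Helper64.Rho.sum_cnt`, `lam_add`; see St_Av of SDG).  Averaging inequality.  `0 ∈ D`, `lam X y ≤ j` on `D`, `k j ≤ |X|`.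
`lam X y ≤ i j` for `y ∈ it D i`, so `cnt X v ≥ |it D i|` if `i j ≤ v`.  `∑_{v < x} cnt X v = x ^ 2`, `x = |X|`; split `[0, x)` into the blocks `[i j, (i+1) j)`, `i < k`, and `[k j, x)`. -/
def St_Av0 : Prop :=
  ∀ (G : Type) [AddCommGroup G] [Finite G] (X D : Finset G) (j k : ℕ), (0 : G) ∈ D → (∀ y ∈ D, lam X y ≤ j) → k * j ≤ X.card →
    j * (∑ i ∈ range k, (it D i).card) + (X.card - k * j) * (it D k).card ≤ X.card ^ 2

/-- **A1** (1.8 h, from Av0).  `lam ≤ l - 2` on `D` is impossible for `|X| ≥ 1 + l (l-1)/2`, `l ≥ 4`, if `|it D i| ≥ min (2 |X|, i (2l+2) - 1)`.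
Proof.  `x = |X|`, `K = 2 l + 2`, `j = l - 2 = (K - 6) / 2`, `2 x + 1 = a K + b`, `b < K`.  `|it D i| ≥ i K - 1` for `1 ≤ i ≤ a` (since `a K - 1 ≤ 2 x`), `|it D (a+1)| ≥ 2 x`.
CLAIM: `6 a ≥ K - 4`, or `(K, a, b) = (12, 1, 11)`.  Indeed `4 (a K + b) = 4 (2 x + 1) ≥ K^2 - 6 K + 20` and `b ≤ K - 1` give `4 a K ≥ (K-4)(K-6)`; if `6 a ≤ K - 5` then
`3 (K-4)(K-6) ≤ 2 K (K-5)`, `K^2 - 20 K + 72 ≤ 0`, `K ∈ {10, 12, 14}` (`K` is even, `≥ 10`), and these are checked: `K = 10`: `a = 0`, `24 ≤ 0` no; `K = 14`: `a ≤ 1`, `80 ≤ 56` no; `K = 12`: `a ≤ 1`, `48 ≤ 48 a`, so `a = 1` and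
`4 b ≥ 144 - 72 + 20 - 48 = 44`.
`(a+1) j ≤ x`: equivalent to `K - 5 ≤ 6 a + b`, true in both cases.  Av0 with `k = a + 1`:
`j (1 + ∑_{i=1}^{a} (i K - 1)) + (x - (a+1) j) 2 x ≤ x^2`, i.e. (times 4, `2 x = a K + b - 1`)
`(a K + b - 1)^2 ≤ (K - 6) (K a (a+1) + 2 (a+1) b - 4)`, i.e. `K a (6 a - K + 4) + b (12 a - 2 K + 10) + b^2 + 4 K - 23 ≤ 0`.
If `6 a ≥ K - 4` all terms are `≥ 0` and `4 K - 23 ≥ 17`.  If `(K,a,b) = (12,1,11)` the left side is `100`.  Contradiction. -/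
def St_A1 : Prop :=
  ∀ (G : Type) [AddCommGroup G] [Finite G] (X D : Finset G) (l : ℕ), (0 : G) ∈ D → 4 ≤ l → (∀ y ∈ D, lam X y + 2 ≤ l) →
    2 + l * (l - 1) ≤ 2 * X.card → (∀ i, 1 ≤ i → 2 * X.card ≤ (it D i).card ∨ i * (2 * l + 2) ≤ (it D i).card + 1) → False

/-- **A2** (1.5 h, from Av0).  `lam ≤ l - 1` on `D` is impossible for `|X| = 1 + l (l+1)/2`, `l ≥ 4`, if `|it D i| ≥ min (l^2 + 2 l, i (2l+2) - 1)`.
Proof.  `L = l + 1`, `K = 2 L`, `j = L - 2`, `x = |X| = (L^2 - L + 2) / 2`, `m = L / 2` (integer part).  For `1 ≤ i ≤ m`: `i K - 1 ≤ L^2 - 1 = l^2 + 2 l`, so `|it D i| ≥ i K - 1`.  `m j ≤ L (L-2)/2 ≤ x`.  Av0 with `k = m`: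
`j (1 + ∑_{i=1}^{m-1} (i K - 1)) + (x - m j)(m K - 1) ≤ x^2`, i.e. `K m (x - j (m+1)/2) ≤ x^2 + x - 2 j`.
`L = 2 m`: `4 *` left side `= L^2 (L^2 - 2 L + 8)`, `4 *` right side `= L^4 - 2 L^3 + 7 L^2 - 14 L + 24`, difference `L^2 + 14 L - 24 > 0`.
`L = 2 m + 1`: `4 *` left side `= L^4 - 2 L^3 + 7 L^2 - 6 L`, difference `8 L - 24 > 0`. -/
def St_A2 : Prop :=
  ∀ (G : Type) [AddCommGroup G] [Finite G] (X D : Finset G) (l : ℕ), (0 : G) ∈ D → 4 ≤ l → (∀ y ∈ D, lam X y + 1 ≤ l) →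
    2 * X.card = 2 + l * (l + 1) → (∀ i, 1 ≤ i → l * l + 2 * l ≤ (it D i).card ∨ i * (2 * l + 2) ≤ (it D i).card + 1) → False

/-- **GwF** (0.5 h, from Gw, Sy).  Growth for families.  `D = sym u f`, `l = |u|`.  If all `y ∈ D` are `± k d`, `k ≤ l`, then `Prog u f` (`k ≥ 1` for the members, which are not `0`). -/
def St_GwF : Prop :=
  ∀ (G ι : Type) [AddCommGroup G] [Finite G] (u : Finset ι) (f : ι → G), Odd (Nat.card G) → AS u f → 1 ≤ u.card → ¬ NearP (sym u f) →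
    Prog u f ∨ Grow f u

/-! ## The engine -/

/-- **En** (2 h, from Sy, Pg, Ex, A1, A2 and SDG.Ba1).  `Fam` = a set of finsets `u`, all generating `G`, `FS u f` aperiodic, `2 |FS u f| ≤ N`; `Exc` = exceptional families.  H2: the conclusion for 4 members.  H3: if `|u| ≥ 5` and `2 |FS u f| ≤ 2 + l (l+1)` then all
`u.erase i` are in `Fam`.  H4: if some `u.erase i` is exceptional then the conclusion holds for `u`.  H5: growth.  Then the conclusion for all `u ∈ Fam`, `|u| ≥ 4`.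
Proof.  Induction on `l = |u|`.  Let `l ≥ 5`, `X = FS u f`, `x = |X|`, `D = sym u f`.
(a) Suppose `2 x < 2 + l (l+1)`, so `2 x ≤ l (l+1)` (parity), and `¬ Exc u`.  For `i ∈ u`, `u' = u.erase i ∈ Fam` (H3), `¬ Exc u'` (otherwise H4 gives the first conclusion for `u`, contradiction).  So `2 |FS u' f| ≥ 2 + l (l-1)` (induction), `|FS u' f| + lam X (f i) ≤ x` (SDG.Ba1 (3)).
Case `lam X (f i) ≥ l - 1` for some `i`: `2 |FS u' f| ≤ l (l+1) - 2 (l-1) = 2 + l (l-1)`; `N ≥ 2 x ≥ 2 |FS u' f| + 2 (l-1) ≥ l^2 + l ≥ (l-1)^2 + 2 (l-1)`.  So `Prog u' f` (induction, `¬ Exc u'`), and Ex (`gen u' f = ⊤`, `2 + l (l-1) ≤ N`) gives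
`2 x ≥ 2 + l (l+1)`: contradiction.  Case `lam X (f i) ≤ l - 2` for all `i`: by Sy `lam X y ≤ l - 2` on `D`.  H5: `Prog u f` is impossible (Pg, last item: `2 x = 2 + l (l+1)`).  So `Grow f u`, and with `2 x ≤ N` this is the hypothesis of A1: contradiction.
(b) Let `l^2 + 2 l ≤ N`, `2 x ≤ 2 + l (l+1)`, and suppose `¬ Prog u f`, `¬ Exc u`; so `2 x = 2 + l (l+1)` by (a).  Let `i ∈ u`, `u' = u.erase i ∈ Fam`; `¬ Exc u'` (H4, second conclusion).  If `2 |FS u' f| ≤ 2 + l (l-1)`, then `Prog u' f` (induction, `(l-1)^2 + 2 (l-1) ≤ N`), and Ex (second part)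
gives `Prog u f`: contradiction.  So `2 |FS u' f| ≥ 4 + l (l-1)` (parity), `lam X (f i) ≤ l - 1`, and this holds on `D` (Sy).  H5: `Grow f u`, with `l^2 + 2 l ≤ N` the hypothesis of A2: contradiction. -/
def St_En : Prop :=
  ∀ (G ι : Type) [AddCommGroup G] [Finite G] (f : ι → G) (Fam Exc : Finset ι → Prop), Odd (Nat.card G) →
    (∀ u, Fam u → AS u f ∧ Aper (FS u f) ∧ gen u f = ⊤ ∧ 2 * (FS u f).card ≤ Nat.card G) →
    (∀ u, Fam u → u.card = 4 → EngX Exc f u) →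
    (∀ u, Fam u → 5 ≤ u.card → 2 * (FS u f).card ≤ 2 + u.card * (u.card + 1) → ∀ i ∈ u, Fam (u.erase i)) →
    (∀ u, Fam u → 5 ≤ u.card → ∀ i ∈ u, Exc (u.erase i) → EngX Exc f u) →
    (∀ u, Fam u → 5 ≤ u.card → 2 * (FS u f).card ≤ 2 + u.card * (u.card + 1) → ¬ Exc u → Prog u f ∨ Grow f u) →
      ∀ u, Fam u → 4 ≤ u.card → EngX Exc f u

/-! ## Nearly periodic families -/

/-- **No** (0.7 h).  Normal form for the signs.  Choose an injection `ν : G ⧸ H → ℕ` and `f' i = f i` if `ν (mk (f i)) ≤ ν (mk (- f i))`, `f' i = - f i` otherwise; so `ν (mk (f' i)) ≤ ν (- mk (f' i))`.  If `f' i + f' j ∈ H`,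
`mk (f' i) = - mk (f' j)` and `ν (mk (f' i)) ≤ ν (mk (f' j)) ≤ ν (mk (f' i))`, so `mk (f' i) = mk (f' j) = - mk (f' i)`, `2 f' i ∈ H`, `f' i ∈ H` (`G/H` has odd order). -/
def St_No : Prop :=
  ∀ (G ι : Type) [AddCommGroup G] [Finite G] (f : ι → G) (H : AddSubgroup G), Odd (Nat.card G) →
    ∃ f' : ι → G, (∀ i, f' i = f i ∨ f' i = - f i) ∧ ∀ i j, f' i + f' j ∈ H → f' i ∈ H

/-- **Nr** (2 h, from No, Sy, Sg).  `sym s f` nearly periodic.  There are `H ≠ ⊥, ⊤` and signs in normal form such that, `v` = number of `H`-cosets outside `H` that are met by the `f' i`, `v |H| ≤ |s|`, and for no `J ≠ ⊥`,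
`J < H`, all members in `H` are in `J`.
Proof.  `D = sym s f`.  Let `H` be minimal (for inclusion, or with least cardinality) among the `K ≠ ⊥, ⊤` with `|st D K| + 1 ≤ |D| + |K|`.  `f'` from No.  `h = |H|`.  The nonzero cosets met by `D` are the `v` cosets of the members and their
negatives, different by the normal form, so `|st D H| = h (2 v + 1)`, `|D| = 2 l + 1`, thus `2 v h ≤ 2 l`.  Let `J ≠ ⊥`, `J < H` and suppose that all `b` members in `H` are in `J`.  `st D J = st (D ∩ H) J ∪ st (D \ H) J`, the first is `J`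
(`D ∩ H ⊆ J`), the second is contained in `st (D \ H) H`, `2 v h` elements.  So `|st D J| ≤ |J| + 2 v h ≤ |J| + 2 l = |J| + |D| - 1`: `J` is nearly filling, against the minimality of `H`. -/
def St_Nr : Prop :=
  ∀ (G ι : Type) [AddCommGroup G] [Finite G] (s : Finset ι) (f : ι → G), Odd (Nat.card G) → AS s f → NearP (sym s f) →
    ∃ (H : AddSubgroup G) (f' : ι → G), H ≠ ⊥ ∧ H ≠ ⊤ ∧ (∀ i, f' i = f i ∨ f' i = - f i) ∧ (∀ i j, f' i + f' j ∈ H → f' i ∈ H) ∧
      ((outs s f' H).image fun i => (QuotientAddGroup.mk (f' i) : G ⧸ H)).card * Nat.card H ≤ s.card ∧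
      ∀ J : AddSubgroup G, J ≠ ⊥ → J < H → ∃ i ∈ s, f' i ∈ H ∧ f' i ∉ J

/-- **CF** (2 h, uses `Pool.Agent.Helper58.kneser`).  Exchange sums fill the coset.  `E` in one coset of `H`, `∅ ≠ R ⊂ E`, `0 ∈ Y ⊆ H`, `|H| ≤ |E| + b`, `|Y| ≥ b + 1`, and for every subgroup `J`, `⊥ ≠ J < H`: `Y` is not contained in `J`, and `|Y| ≥ b + |J| + 1` if
`|J| ≤ b`.  Then `H = Y + ({0} ∪ ((E \ R) - R))`.
Proof.  `A = E \ R`, `V = A - R ⊆ H`, nonempty, `0 ∉ V`, `J = stab V ≤ H`.  Kneser: `|V| ≥ |A + J| + |R + J| - |J|`.  If `W, Y ⊆ H` and `|W| + |Y| > |H|` then `W + Y = H`.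
`J = ⊥`: `|V| ≥ |E| - 1`, `|{0} ∪ V| + |Y| ≥ |E| + b + 1 > |H|`.  `J = H`: `V = H`, take `y = 0`.  `⊥ ≠ J < H`: there is `y1 ∈ Y \ J`.  If some `J`-coset meets `A` and `R`: `|V| ≥ |E + J| ≥ |E|`, `|V| + |Y| > |H|`.  In general `|V| ≥ |E + J| - |J|`
(`E + J = (A + J) ∪ (R + J)`).  If `|J| > b`, every `J`-coset in the `H`-coset of `E` meets `E` (it has `|J| > b` elements), so `|V| ≥ |H| - |J|` and `H \ V` is empty or one `J`-coset (it is `J`-periodic); `V ∪ (V + y1) = H`: otherwise `z` and `z - y1` are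
both in `H \ V`, so `y1 ∈ J`.  If `|J| ≤ b`: `|V| ≥ |E| - |J| ≥ |H| - b - |J|`, and `|Y| ≥ b + |J| + 1`. -/
def St_CF : Prop :=
  ∀ (G : Type) [AddCommGroup G] [Finite G] (H : AddSubgroup G) (E R Y : Finset G) (b : ℕ),
    (∀ x ∈ E, ∀ y ∈ E, x - y ∈ H) → R ⊆ E → R.Nonempty → R ≠ E → (∀ y ∈ Y, y ∈ H) → (0 : G) ∈ Y → Nat.card H ≤ E.card + b → b + 1 ≤ Y.card →
    (∀ J : AddSubgroup G, J ≠ ⊥ → J < H → (∃ y ∈ Y, y ∉ J) ∧ (Nat.card J ≤ b → b + Nat.card J + 1 ≤ Y.card)) →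
      ∀ z ∈ H, z ∈ Y ∨ ∃ y ∈ Y, ∃ e ∈ E \ R, ∃ r ∈ R, z = y + (e - r)

/-- **Sl** (1.5 h, from CF).  Full slices at the top level.  `u ⊆ s`, `AS u f`, `i0 ≠ i1` in `u`, `f i0 - f i1 ∈ H`, `f i0 ∉ H`; `C = {i ∈ u | f i - f i0 ∈ H}`, `|H| ≤ |C| + b`; `Y = FS (ins s f H) f` large as in CF.  Then `x + f i0 ∈ FS s f` for all
`x ∈ st (FS Z f) H`, `Z = outs s f H` minus `i0, i1`.
Proof.  `x = z + ∑_{U} f`, `z ∈ H`, `U ⊆ Z`.  `R0 = {i0} ∪ (U ∩ C) ⊆ C`, `i1 ∉ R0`.  `f` is injective on `u` (`Cap 1`).  CF with `E = f(C)`, `R = f(R0)`: `z = y` or `z = y + f e - f r`, `e ∈ C \ R0`, `r ∈ R0`, `y = ∑_T f`, `T ⊆ ins s f H`.  So `x + f i0` is the sum over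
`{i0} ∪ U ∪ T`, or over `(({i0} ∪ U) \ {r}) ∪ {e} ∪ T` (`e ∉ U ∪ {i0}` since `e ∈ C \ R0`; `T` is disjoint from the others, which are outside `H`). -/
def St_Sl : Prop :=
  ∀ (G ι : Type) [AddCommGroup G] [Finite G] (s u : Finset ι) (f : ι → G) (H : AddSubgroup G) (i0 i1 : ι) (b : ℕ),
    u ⊆ s → AS u f → i0 ∈ u → i1 ∈ u → i0 ≠ i1 → f i0 - f i1 ∈ H → f i0 ∉ H →
    Nat.card H ≤ (u.filter fun i => f i - f i0 ∈ H).card + b → b + 1 ≤ (FS (ins s f H) f).card →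
    (∀ J : AddSubgroup G, J ≠ ⊥ → J < H → (∃ i ∈ s, f i ∈ H ∧ f i ∉ J) ∧ (Nat.card J ≤ b → b + Nat.card J + 1 ≤ (FS (ins s f H) f).card)) →
      ∀ x ∈ st (FS (((outs s f H).erase i0).erase i1) f) H, x + f i0 ∈ FS s f

/-- **SC** (1 h).  Counting.  `X = FS s f` aperiodic, `M ≠ ⊥`, `Z ⊆ s`, `P = st (FS Z f) M`, `P + g ⊆ X` for some `g`.  Then `|P| + |FS (ins s f M) f| ≤ |X|`, `|P| < N`.
Proof.  `P' = P + g` is `M`-periodic, contained in `X`, and `X ≠ P'` as `X` is aperiodic (`P'` nonempty, `M ≠ ⊥`).  Let `x ∈ X \ P'`; the coset `C = x + M` is disjoint from `P'`; `x = y + z`, `y ∈ FS (ins s f M) f`, `z ∈ FS (outs s f M) f`, and `z + FS (ins s f M) f ⊆ X ∩ C`.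
If `|P| = N` then `P' = G = X`. -/
def St_SC : Prop :=
  ∀ (G ι : Type) [AddCommGroup G] [Finite G] (s Z : Finset ι) (f : ι → G) (M : AddSubgroup G) (g : G), M ≠ ⊥ → Aper (FS s f) → Z ⊆ s →
    (∀ x ∈ st (FS Z f) M, x + g ∈ FS s f) →
      (st (FS Z f) M).card + (FS (ins s f M) f).card ≤ (FS s f).card ∧ (st (FS Z f) M).card < Nat.card G

/-- **N5** (1 h, from SDG.Nm1).  The inequality at the top level (idea of helper22).  `m ≥ a + 3` (true if `cf 2 a < m`, `m ≥ 5`).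
Proof.  Block formula: `4 m cf (2m) w' ≥ 4 m + w' ^ 2 + 2 m w'` (difference `r (2 m - r)`, `w' = 2 m α + r`).  `4 cf 2 (a+w) ≤ 4 + (a+w+1)^2`, `4 cf 2 a ≥ (a+1)^2 + 3`.  `w ≥ 2`, `w' = w - 2`: the sum of these is
`4 (m cf (2m) (w-2) + cf 2 a) - 4 cf 2 (a+w) ≥ 2 w (m - 3 - a) + 3 > 0`.  `w = 1`: `m + cf 2 a ≥ cf 2 (a+1)` as `cf 2 (a+1) = cf 2 a + a / 2 + 1`.
The second item: `a ≤ 2`: `m ≥ 5`; `a ≥ 3`: `cf 2 a ≥ a + 2`. -/
def St_N5 : Prop :=
  (∀ m a w : ℕ, a + 3 ≤ m → 1 ≤ w → cf 2 (a + w) ≤ m * cf (2 * m) (w - 2) + cf 2 a) ∧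
  (∀ m a : ℕ, 5 ≤ m → cf 2 a < m → a + 3 ≤ m)

/-- **Sp2** (1 h).  Splitting.  `Cap 2 s f`, members nonzero: `s = s1 ∪ s2` disjoint, both `AS`, `|s2| ≤ |s1| ≤ |s2| + 1`.
Proof.  See SDG.Co (colourings with two colours): (i) a splitting into two parts with `Cap 1` exists: add the members one by one; a new `i` goes to a part with no member `± f i` (at most one member `± f i` is there already).  (ii) Take one that minimises `||s1| - |s2||`; if `|s1| ≥ |s2| + 2` some `z ∈ s1` has no member `± f z` in `s2`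
(otherwise `s1` injects into `s2`); move it. -/
def St_Sp2 : Prop :=
  ∀ (G ι : Type) [AddCommGroup G] (s : Finset ι) (f : ι → G), (∀ i ∈ s, f i ≠ 0) → Cap 2 s f →
    ∃ s1 s2 : Finset ι, Disjoint s1 s2 ∧ s1 ∪ s2 = s ∧ AS s1 f ∧ AS s2 f ∧ s2.card ≤ s1.card ∧ s1.card ≤ s2.card + 1

end Pool.Agent.MDR
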