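import Mathlib
import Pool.Agent.MDR.St

set_option autoImplicit false

noncomputable section

open Finset Pool.Agent.Helper64.Rho Pool.Agent.SDG
open scoped Classical Pointwise

namespace Pool.Agent.MDR

/-- lower bound for the sum of the levels -/
private lemma A1_sum (K a : ℕ) (g : ℕ → ℕ) (h0 : 1 ≤ g 0) (h : ∀ i, 1 ≤ i → i ≤ a → i * K ≤ g i + 1) :
    K * a * (a + 1) + 2 ≤ 2 * ∑ i ∈ range (a + 1), g i + 2 * a := by
  induction a with
  | zero => simp; omega
  | succ a ih =>
    rw [sum_range_succ]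
    have h1 := ih (fun i hi hi2 => h i hi (by omega))
    have h2 := h (a + 1) (by omega) le_rfl
    nlinarith

private lemma A1_claim (j a b : ℕ) (hj : 2 ≤ j) (hb : b < 2 * j + 6)
    (h : (2 * j + 6) * (2 * j + 6) + 20 ≤ 4 * ((2 * j + 6) * a + b) + 6 * (2 * j + 6)) :
    2 * j + 6 ≤ 6 * a + 4 ∨ (j = 3 ∧ a = 1 ∧ b = 11) := by
  by_contra hcon
  push Not at hcon
  obtain ⟨h1, h2⟩ := hcon
  obtain ⟨e, he⟩ : ∃ e, 2 * j = 6 * a + e := ⟨2 * j - 6 * a, by omega⟩
  have h3 : 6 * a + 5 ≤ 2 * j + 6 := by omega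
  have h4 : 4 * (j * j) + 24 * j + 36 + 20 ≤ 4 * (2 * (j * a) + 6 * a + b) + 12 * j + 36 := by nlinarith
  have h5 : j * a * 6 ≤ j * (2 * j + 1) := by nlinarith
  have h6 : j ≤ 5 := by nlinarith
  interval_cases j
  · have : a ≤ 0 := by omega
    interval_cases a; omega
  · have : a ≤ 1 := by omega
    interval_cases a
    · omega
    · have : b = 11 := by omega
      exact h2 rfl rfl this
  · have : a ≤ 1 := by omega
    interval_cases a <;> omega
  · have : a ≤ 1 := by omega
    interval_cases a <;> omega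

private lemma A1_fin (j x a b c : ℤ) (hx : x = (a + 1) * j + c) (hab : 2 * x + 1 = (2 * j + 6) * a + b)
    (h : j * ((2 * j + 6) * a * (a + 1) + 2) + 4 * (c * x) ≤ 2 * x ^ 2 + 2 * a * j) :
    (2 * j + 6) * a * (6 * a - 2 * j - 2) + b * (12 * a - 4 * j - 2) + b ^ 2 + 8 * j + 1 ≤ 0 := by
  have hc : c = x - (a + 1) * j := by linarith
  have hb : b = 2 * x + 1 - (2 * j + 6) * a := by linarith
  subst hc
  subst hb
  nlinarith

theorem thm_A1 : St_Av0 → St_A1 := by
  intro hAv G _ _ X D l h0 hl hlam hX hg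
  obtain ⟨j, rfl⟩ : ∃ j, l = j + 2 := ⟨l - 2, by omega⟩
  have hlam' : ∀ y ∈ D, lam X y ≤ j := fun y hy => by have := hlam y hy; omega
  generalize hx : X.card = x at *
  obtain ⟨a, b, hab, hbK⟩ : ∃ a b, 2 * x + 1 = (2 * j + 6) * a + b ∧ b < 2 * j + 6 :=
    ⟨(2 * x + 1) / (2 * j + 6), (2 * x + 1) % (2 * j + 6), (Nat.div_add_mod _ _).symm, Nat.mod_lt _ (by omega)⟩
  have hX' : 2 + (j + 2) * (j + 1) ≤ 2 * x := by
    have : j + 2 - 1 = j + 1 := by omega
    rw [this] at hX; exact hX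
  have hg' : ∀ i, 1 ≤ i → 2 * x ≤ (it D i).card ∨ i * (2 * j + 6) ≤ (it D i).card + 1 := by
    intro i hi
    have := hg i hi
    have e : 2 * (j + 2) + 2 = 2 * j + 6 := by ring
    rw [e] at this
    exact this
  -- levels
  have hlev : ∀ i, 1 ≤ i → i ≤ a → i * (2 * j + 6) ≤ (it D i).card + 1 := by
    intro i hi hia
    rcases hg' i hi with h | h
    · have h1 : i * (2 * j + 6) ≤ a * (2 * j + 6) := Nat.mul_le_mul_right _ hia
      have h2 : a * (2 * j + 6) = (2 * j + 6) * a := by ring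
      omega
    · exact h
  have htop : 2 * x ≤ (it D (a + 1)).card := by
    rcases hg' (a + 1) (by omega) with h | h
    · exact h
    · have : (a + 1) * (2 * j + 6) = (2 * j + 6) * a + (2 * j + 6) := by ring
      omega
  have h00 : 1 ≤ (it D 0).card := by simp [it]
  have hS := A1_sum (2 * j + 6) a (fun i => (it D i).card) h00 hlev
  have hj2 : 2 ≤ j := by omega
  have hmain := A1_claim j a b hj2 hbK (by rw [← hab]; nlinarith)
  have hjx : (a + 1) * j ≤ x := by
    rcases hmain with h | ⟨h1, h2, h3⟩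
    · have e3 : 2 * ((a + 1) * j) + 6 * a = (2 * j + 6) * a + 2 * j := by ring
      omega
    · subst h1; subst h2; subst h3
      omega
  have hfin := hAv G X D j (a + 1) h0 hlam' (by rw [hx]; exact hjx)
  rw [hx] at hfin
  obtain ⟨c, hc⟩ : ∃ c, x = (a + 1) * j + c := ⟨x - (a + 1) * j, by omega⟩
  have hc' : x - (a + 1) * j = c := by omega
  rw [hc'] at hfin
  have h10 : c * (2 * x) ≤ c * (it D (a + 1)).card := Nat.mul_le_mul_left _ htop
  have h11 : j * ((2 * j + 6) * a * (a + 1) + 2) + 4 * (c * x) ≤ 2 * x ^ 2 + 2 * a * j := by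
    have : j * ((2 * j + 6) * a * (a + 1) + 2) ≤ j * (2 * ∑ i ∈ range (a + 1), (it D i).card + 2 * a) :=
      Nat.mul_le_mul_left _ hS
    have e1 : j * (2 * ∑ i ∈ range (a + 1), (it D i).card + 2 * a) =
      2 * (j * ∑ i ∈ range (a + 1), (it D i).card) + 2 * a * j := by ring
    rw [e1] at this
    have e2 : c * (2 * x) = 2 * (c * x) := by ring
    rw [e2] at h10
    omega
  have hneg := A1_fin j x a b c (by exact_mod_cast hc) (by exact_mod_cast hab) (by exact_mod_cast h11)
  rcases hmain with h | ⟨h1, h2, h3⟩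
  · have h12 : (0 : ℤ) ≤ 6 * a - 2 * j - 2 := by
      have : (2 * (j : ℤ) + 6) ≤ 6 * a + 4 := by exact_mod_cast h
      linarith
    have h13 : (0 : ℤ) ≤ (2 * j + 6) * a * (6 * a - 2 * j - 2) := by positivity
    have h14 : (0 : ℤ) ≤ b * (12 * a - 4 * j - 2) := by
      apply mul_nonneg
      · positivity
      · linarith
    have h15 : (0 : ℤ) ≤ (b : ℤ) ^ 2 := by positivity
    have h16 : (0 : ℤ) ≤ j := by positivity
    linarith
  · subst h1; subst h2; subst h3
    norm_num at hneg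

end Pool.Agent.MDR
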