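import Mathlib
import Pool.Agent.MDR.St

set_option autoImplicit false

noncomputable section

open Finset Pool.Agent.Helper64.Rho Pool.Agent.SDG
open scoped Classical Pointwise

namespace Pool.Agent.MDR

private lemma A2_sum (K a : ℕ) (g : ℕ → ℕ) (h0 : 1 ≤ g 0) (h : ∀ i, 1 ≤ i → i ≤ a → i * K ≤ g i + 1) :
    K * a * (a + 1) + 2 ≤ 2 * ∑ i ∈ range (a + 1), g i + 2 * a := by
  induction a with
  | zero => simp; omega
  | succ a ih =>
    rw [sum_range_succ]
    have h1 := ih (fun i hi hi2 => h i hi (by omega))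
    have h2 := h (a + 1) (by omega) le_rfl
    nlinarith

theorem thm_A2 : St_Av0 → St_A2 := by
  intro hAv G _ _ X D l h0 hl hlam hX hg
  obtain ⟨j, rfl⟩ : ∃ j, l = j + 1 := ⟨l - 1, by omega⟩
  have hlam' : ∀ y ∈ D, lam X y ≤ j := fun y hy => by have := hlam y hy; omega
  generalize hx : X.card = x at *
  have hj3 : 3 ≤ j := by omega
  -- `m + 1 = (j + 2) / 2`
  obtain ⟨m, r, hm, hr⟩ : ∃ m r, j + 2 = 2 * (m + 1) + r ∧ r < 2 :=
    ⟨(j + 2) / 2 - 1, (j + 2) % 2, by omega, by omega⟩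
  have hlev : ∀ i, 1 ≤ i → i ≤ m + 1 → i * (2 * j + 4) ≤ (it D i).card + 1 := by
    intro i hi hia
    rcases hg i hi with h | h
    · have h1 : i * (2 * j + 4) ≤ (m + 1) * (2 * j + 4) := Nat.mul_le_mul_right _ hia
      have h2 : (m + 1) * (2 * j + 4) ≤ (j + 1) * (j + 1) + 2 * (j + 1) + 1 := by nlinarith
      omega
    · have e : 2 * (j + 1) + 2 = 2 * j + 4 := by ring
      rw [e] at h
      exact h
  have h00 : 1 ≤ (it D 0).card := by simp [it]
  have hS := A2_sum (2 * j + 4) m (fun i => (it D i).card) h00 (fun i hi hi2 => hlev i hi (by omega))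
  have htop := hlev (m + 1) (by omega) le_rfl
  have hjx : (m + 1) * j ≤ x := by nlinarith
  have hfin := hAv G X D j (m + 1) h0 hlam' (by rw [hx]; exact hjx)
  rw [hx] at hfin
  obtain ⟨c, hc⟩ : ∃ c, x = (m + 1) * j + c := ⟨x - (m + 1) * j, by omega⟩
  have hc' : x - (m + 1) * j = c := by omega
  rw [hc'] at hfin
  have h10 : c * ((m + 1) * (2 * j + 4)) ≤ c * ((it D (m + 1)).card + 1) := Nat.mul_le_mul_left _ htop
  have h11 : j * ((2 * j + 4) * m * (m + 1) + 2) + 2 * (c * ((m + 1) * (2 * j + 4))) ≤ 2 * x ^ 2 + 2 * m * j + 2 * c := by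
    have : j * ((2 * j + 4) * m * (m + 1) + 2) ≤ j * (2 * ∑ i ∈ range (m + 1), (it D i).card + 2 * m) :=
      Nat.mul_le_mul_left _ hS
    have e1 : j * (2 * ∑ i ∈ range (m + 1), (it D i).card + 2 * m) =
      2 * (j * ∑ i ∈ range (m + 1), (it D i).card) + 2 * m * j := by ring
    rw [e1] at this
    have e2 : c * ((it D (m + 1)).card + 1) = c * (it D (m + 1)).card + c := by ring
    rw [e2] at h10
    omega
  have hz : (j : ℤ) * ((2 * j + 4) * m * (m + 1) + 2) + 2 * (c * ((m + 1) * (2 * j + 4))) ≤ 2 * (x : ℤ) ^ 2 + 2 * m * j + 2 * c := by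
    exact_mod_cast h11
  have hz1 : (x : ℤ) = ((m : ℤ) + 1) * j + c := by exact_mod_cast hc
  have hz2 : (2 * (x : ℤ)) = 2 + ((j : ℤ) + 1) * (j + 2) := by exact_mod_cast hX
  have hcz : (c : ℤ) = x - (m + 1) * j := by linarith
  have hmz : (j : ℤ) + 2 = 2 * (m + 1) + r := by exact_mod_cast hm
  have hmz3 : (3 : ℤ) ≤ j := by exact_mod_cast hj3
  rw [hcz] at hz
  interval_cases r
  · have e1 : (j : ℤ) = 2 * m := by push_cast at hmz; linarith
    have e2 : (x : ℤ) = 2 * m * m + 3 * m + 2 := by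
      have : 2 * (x : ℤ) = 2 * (2 * m * m + 3 * m + 2) := by rw [hz2, e1]; ring
      linarith
    rw [e1, e2] at hz
    have hm2 : (0 : ℤ) ≤ m := by positivity
    have key : (2 * (m : ℤ)) * ((2 * (2 * m) + 4) * m * (m + 1) + 2) +
        2 * ((2 * m * m + 3 * m + 2 - (m + 1) * (2 * m)) * ((m + 1) * (2 * (2 * m) + 4))) -
        (2 * (2 * m * m + 3 * m + 2) ^ 2 + 2 * m * (2 * m) + 2 * (2 * m * m + 3 * m + 2 - (m + 1) * (2 * m))) =
        2 * m ^ 2 + 18 * m + 4 := by ring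
    have h3 : (0 : ℤ) ≤ (m : ℤ) ^ 2 := by positivity
    linarith
  · have e1 : (j : ℤ) = 2 * m + 1 := by push_cast at hmz; linarith
    have e2 : (x : ℤ) = 2 * m * m + 5 * m + 4 := by
      have : 2 * (x : ℤ) = 2 * (2 * m * m + 5 * m + 4) := by rw [hz2, e1]; ring
      linarith
    rw [e1, e2] at hz
    have hm2 : (1 : ℤ) ≤ m := by linarith
    have key : (2 * (m : ℤ) + 1) * ((2 * (2 * m + 1) + 4) * m * (m + 1) + 2) +
        2 * ((2 * m * m + 5 * m + 4 - (m + 1) * (2 * m + 1)) * ((m + 1) * (2 * (2 * m + 1) + 4))) -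
        (2 * (2 * m * m + 5 * m + 4) ^ 2 + 2 * m * (2 * m + 1) +
          2 * (2 * m * m + 5 * m + 4 - (m + 1) * (2 * m + 1))) = 8 * m := by ring
    linarith

end Pool.Agent.MDR
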