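import Mathlib
import Pool.Agent.MDR.St

set_option autoImplicit false

noncomputable section

open Finset Pool.Agent.Helper64.Rho Pool.Agent.SDG
open scoped Classical Pointwise

namespace Pool.Agent.MDR

private lemma Av0_lam {G : Type} [AddCommGroup G] (X D : Finset G) (j : ℕ)
    (hD : ∀ y ∈ D, lam X y ≤ j) (i : ℕ) : ∀ y ∈ it D i, lam X y ≤ i * j := by
  induction i with
  | zero =>
    intro y hy
    have h : y = 0 := by simpa [it] using hy
    rw [h, lam_zero]
    exact Nat.zero_le _
  | succ i ih =>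
    intro y hy
    change y ∈ it D i + D at hy
    obtain ⟨a, ha, b, hb, rfl⟩ := mem_add.1 hy
    refine (lam_add X a b).trans ?_
    have h1 := ih a ha
    have h2 := hD b hb
    rw [add_mul, one_mul]
    omega

private lemma Av0_cnt {G : Type} [AddCommGroup G] [Fintype G] (X D : Finset G) (j : ℕ)
    (hD : ∀ y ∈ D, lam X y ≤ j) (i v : ℕ) (h : i * j ≤ v) : (it D i).card ≤ cnt X v := by
  unfold cnt
  refine card_le_card fun y hy => ?_
  rw [mem_filter]
  exact ⟨mem_univ _, (Av0_lam X D j hD i y hy).trans h⟩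

private lemma Av0_blocks {G : Type} [AddCommGroup G] [Fintype G] (X D : Finset G) (j : ℕ)
    (hD : ∀ y ∈ D, lam X y ≤ j) (k : ℕ) :
    j * ∑ i ∈ range k, (it D i).card ≤ ∑ v ∈ range (k * j), cnt X v := by
  induction k with
  | zero => simp
  | succ k ih =>
    rw [sum_range_succ, mul_add, add_mul, one_mul, sum_range_add]
    refine Nat.add_le_add ih ?_
    calc j * (it D k).card = ∑ v ∈ range j, (it D k).card := by
          rw [sum_const, card_range, smul_eq_mul]
      _ ≤ ∑ v ∈ range j, cnt X (k * j + v) :=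
          sum_le_sum fun v _ => Av0_cnt X D j hD k _ (Nat.le_add_right _ _)

theorem thm_Av0 : St_Av0 := by
  intro G _ _ X D j k _ hD hk
  have := Fintype.ofFinite G
  have hsum := sum_cnt X
  obtain ⟨c, hc⟩ : ∃ c, X.card = k * j + c := ⟨X.card - k * j, by omega⟩
  have e : X.card - k * j = c := by omega
  rw [e, ← hsum]
  conv_rhs => rw [hc, sum_range_add]
  refine Nat.add_le_add (Av0_blocks X D j hD k) ?_
  calc c * (it D k).card = ∑ v ∈ range c, (it D k).card := by rw [sum_const, card_range, smul_eq_mul]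
    _ ≤ ∑ v ∈ range c, cnt X (k * j + v) :=
      sum_le_sum fun v _ => Av0_cnt X D j hD k _ (Nat.le_add_right _ _)

end Pool.Agent.MDR
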