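import Pool.Agent.MDR.St

/-!
# MDR: module B4, four members
-/

set_option autoImplicit false

noncomputable section

open Finset Pool.Agent.Helper64.Rho Pool.Agent.SDG
open scoped Classical Pointwise

namespace Pool.Agent.MDR

/-- different members are not equal up to sign -/
private theorem B4_ne {G ι : Type} [AddCommGroup G] {s : Finset ι} {f : ι → G} (h : AS s f)
    {i j : ι} (hi : i ∈ s) (hj : j ∈ s) (hij : i ≠ j) : f i ≠ f j ∧ f i ≠ -f j := by
  have h1 := h.2 (f j)
  have key : (f i = f j ∨ f i = -f j) → False := by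
    intro h2
    have h3 : ({i, j} : Finset ι) ⊆ s.filter fun k => f k = f j ∨ f k = -f j := by
      intro k hk
      rcases Finset.mem_insert.1 hk with hk | hk
      · rw [hk]
        exact Finset.mem_filter.2 ⟨hi, h2⟩
      · rw [Finset.mem_singleton.1 hk]
        exact Finset.mem_filter.2 ⟨hj, Or.inl rfl⟩
    have h4 := Finset.card_le_card h3
    rw [Finset.card_pair hij] at h4
    omega
  exact ⟨fun h2 => key (Or.inl h2), fun h2 => key (Or.inr h2)⟩

private theorem B4_ins {G ι : Type} [AddCommGroup G] {s : Finset ι} (f : ι → G) {i : ι}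
    (hi : i ∉ s) : FS (insert i s) f = FS s f + {0, f i} := by
  rw [FS_insert hi f]
  ext x
  rw [Finset.mem_union, Finset.mem_image, Finset.mem_add]
  constructor
  · rintro (hx | ⟨a, ha, rfl⟩)
    · exact ⟨x, hx, 0, Finset.mem_insert_self 0 _, add_zero x⟩
    · exact ⟨a, ha, f i, Finset.mem_insert_of_mem (Finset.mem_singleton_self _), rfl⟩
  · rintro ⟨a, ha, b, hb, rfl⟩
    rcases Finset.mem_insert.1 hb with hb | hb
    · left
      rw [hb, add_zero]
      exact ha
    · right
      rw [Finset.mem_singleton.1 hb]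
      exact ⟨a, ha, rfl⟩

private theorem B4_FS3 {G ι : Type} [AddCommGroup G] (f : ι → G) {i j k : ι} (hij : i ≠ j)
    (hik : i ≠ k) (hjk : j ≠ k) : FS ({i, j, k} : Finset ι) f = cube (f i) (f j) (f k) := by
  have h1 : i ∉ ({j, k} : Finset ι) := by
    rw [Finset.mem_insert, Finset.mem_singleton, not_or]
    exact ⟨hij, hik⟩
  have h2 : j ∉ ({k} : Finset ι) := by
    rw [Finset.mem_singleton]
    exact hjk
  have h3 : FS ({k} : Finset ι) f = {0, f k} := by
    have h := B4_ins f (Finset.notMem_empty k)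
    rw [FS_empty, Finset.singleton_zero, zero_add] at h
    exact h
  rw [B4_ins f h1, B4_ins f h2, h3]
  unfold cube
  rw [add_comm ({0, f k} : Finset G) {0, f j}, add_comm _ ({0, f i} : Finset G), add_assoc]

private theorem B4_core (hB4b : St_B4b) (G ι : Type) [AddCommGroup G] [Finite G] (s : Finset ι)
    (f : ι → G) (hN : Nat.Coprime (Nat.card G) 6) (hAS : AS s f) (hs : s.card = 4)
    (i j k l : ι) (hij : i ≠ j) (hik : i ≠ k) (hil : i ≠ l) (hjk : j ≠ k) (hjl : j ≠ l)
    (hkl : k ≠ l) (he : s = insert l {i, j, k}) (hFr : Fr (f i) (f j) (f k)) :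
    11 ≤ (FS s f).card ∧ ((FS s f).card ≤ 11 → Prog s f) := by
  have hi : i ∈ s := by rw [he]; simp
  have hj : j ∈ s := by rw [he]; simp
  have hk : k ∈ s := by rw [he]; simp
  have hl : l ∈ s := by rw [he]; simp
  have hAn : An [f i, f j, f k, f l] := by
    refine ⟨?_, ?_⟩
    · intro x hx
      simp only [List.mem_cons, List.not_mem_nil, or_false] at hx
      rcases hx with hx | hx | hx | hx <;> rw [hx]
      · exact hAS.1 i hi
      · exact hAS.1 j hj
      · exact hAS.1 k hk
      · exact hAS.1 l hl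
    · simp only [List.pairwise_cons, List.mem_cons, List.not_mem_nil, or_false, forall_eq_or_imp,
        forall_eq, List.Pairwise.nil, and_true, false_imp_iff, implies_true]
      exact ⟨⟨B4_ne hAS hi hj hij, B4_ne hAS hi hk hik, B4_ne hAS hi hl hil⟩,
        ⟨B4_ne hAS hj hk hjk, B4_ne hAS hj hl hjl⟩, B4_ne hAS hk hl hkl⟩
  obtain ⟨h8, h5, hprog⟩ := hB4b G (f i) (f j) (f k) (f l) hN hAn hFr
  have hnl : l ∉ ({i, j, k} : Finset ι) := by
    simp only [Finset.mem_insert, Finset.mem_singleton, not_or]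
    exact ⟨hil.symm, hjl.symm, hkl.symm⟩
  have hFS : FS s f = cube (f i) (f j) (f k) ∪ (cube (f i) (f j) (f k)).image (· + f l) := by
    rw [he, FS_insert hnl f, B4_FS3 f hij hik hjk]
  obtain ⟨Q, hQ⟩ : ∃ Q, Q = cube (f i) (f j) (f k) := ⟨_, rfl⟩
  rw [← hQ] at h8 h5 hprog hFS
  have h1 : Q ∩ Q.image (· + f l) = Q.filter fun q => q - f l ∈ Q := by
    ext q
    rw [Finset.mem_inter, Finset.mem_filter, Finset.mem_image]
    constructor
    · rintro ⟨hq1, p, hp, hpq⟩
      refine ⟨hq1, ?_⟩
      rw [← hpq]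
      have h2 : p + f l - f l = p := add_sub_cancel_right p (f l)
      rw [h2]
      exact hp
    · rintro ⟨hq1, hq2⟩
      exact ⟨hq1, q - f l, hq2, sub_add_cancel q (f l)⟩
  have h3 := Finset.card_union_add_card_inter Q (Q.image (· + f l))
  rw [Finset.card_image_of_injective _ (add_left_injective (f l)), h1, ← hFS, h8] at h3
  refine ⟨by omega, fun hle => ?_⟩
  obtain ⟨d, hd⟩ := hprog (by omega)
  refine ⟨d, fun t ht => ?_⟩
  have hft : f t ∈ [f i, f j, f k, f l] := by
    rw [he] at ht
    simp only [Finset.mem_insert, Finset.mem_singleton] at ht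
    simp only [List.mem_cons, List.not_mem_nil, or_false]
    rcases ht with ht | ht | ht | ht <;> rw [ht] <;> simp
  obtain ⟨m, hm1, hm2, hm3⟩ := hd (f t) hft
  exact ⟨m, hm1, by rw [hs]; exact hm2, hm3⟩

theorem thm_B4 : St_B4a → St_B4b → St_B4 := by
  intro hB4a hB4b G ι _ _ s f hN hAS hs
  obtain ⟨l, s', hl, hs', hs'3⟩ := Finset.card_eq_succ.1 (show s.card = 3 + 1 by omega)
  obtain ⟨i, j, k, hij, hik, hjk, he⟩ := Finset.card_eq_three.1 hs'3
  rw [he] at hl hs'
  simp only [Finset.mem_insert, Finset.mem_singleton, not_or] at hl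
  obtain ⟨hli, hlj, hlk⟩ := hl
  have hi : i ∈ s := by rw [← hs']; simp
  have hj : j ∈ s := by rw [← hs']; simp
  have hk : k ∈ s := by rw [← hs']; simp
  have hl : l ∈ s := by rw [← hs']; simp
  have hAn : An [f i, f j, f k, f l] := by
    refine ⟨?_, ?_⟩
    · intro x hx
      simp only [List.mem_cons, List.not_mem_nil, or_false] at hx
      rcases hx with hx | hx | hx | hx <;> rw [hx]
      · exact hAS.1 i hi
      · exact hAS.1 j hj
      · exact hAS.1 k hk
      · exact hAS.1 l hl
    · simp only [List.pairwise_cons, List.mem_cons, List.not_mem_nil, or_false, forall_eq_or_imp,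
        forall_eq, List.Pairwise.nil, and_true, false_imp_iff, implies_true]
      exact ⟨⟨B4_ne hAS hi hj hij, B4_ne hAS hi hk hik, B4_ne hAS hi hl (Ne.symm hli)⟩,
        ⟨B4_ne hAS hj hk hjk, B4_ne hAS hj hl (Ne.symm hlj)⟩, B4_ne hAS hk hl (Ne.symm hlk)⟩
  rcases hB4a G (f i) (f j) (f k) (f l) hN hAn with h | h | h | h
  · exact B4_core hB4b G ι s f hN hAS hs i j k l hij hik (Ne.symm hli) hjk (Ne.symm hlj)
      (Ne.symm hlk) hs'.symm h
  · refine B4_core hB4b G ι s f hN hAS hs i j l k hij (Ne.symm hli) hik (Ne.symm hlj) hjk hlk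
      ?_ h
    rw [← hs']
    ext x
    simp only [Finset.mem_insert, Finset.mem_singleton]
    tauto
  · refine B4_core hB4b G ι s f hN hAS hs i k l j hik (Ne.symm hli) hij (Ne.symm hlk)
      (Ne.symm hjk) hlj ?_ h
    rw [← hs']
    ext x
    simp only [Finset.mem_insert, Finset.mem_singleton]
    tauto
  · refine B4_core hB4b G ι s f hN hAS hs j k l i hjk (Ne.symm hlj) (Ne.symm hij) (Ne.symm hlk)
      (Ne.symm hik) hli ?_ h
    rw [← hs']
    ext x
    simp only [Finset.mem_insert, Finset.mem_singleton]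
    tauto

end Pool.Agent.MDR
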