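import Pool.Agent.MDR.St

/-!
# MDR B4a: a free triple
-/

set_option autoImplicit false

open Finset Pool.Agent.Helper64.Rho Pool.Agent.SDG
open scoped Classical Pointwise

namespace Pool.Agent.MDR

private lemma B4a_tor {G : Type} [AddCommGroup G] [Finite G] (m : ℕ)
    (hm : Nat.Coprime (Nat.card G) m) (x : G) (h : m • x = 0) : x = 0 := by
  have h1 : addOrderOf x ∣ m := addOrderOf_dvd_of_nsmul_eq_zero h
  have h2 : addOrderOf x ∣ Nat.card G := addOrderOf_dvd_natCard x
  have h3 : addOrderOf x ∣ 1 := by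
    have := Nat.dvd_gcd h2 h1
    rwa [hm] at this
  rw [Nat.dvd_one] at h3
  exact AddMonoid.addOrderOf_eq_one_iff.mp h3

private def B4aR {G : Type} [AddCommGroup G] (x y z : G) : Prop :=
  z = x + y ∨ z = x - y ∨ z = -x + y ∨ z = -x - y

private lemma B4aR_of {G : Type} [AddCommGroup G] {x y z : G} (h : ¬ Fr x y z) : B4aR x y z := by
  unfold Fr at h
  unfold B4aR
  by_cases h1 : x + y = z
  · left; exact h1.symm
  by_cases h2 : x + z = y
  · right; right; left; rw [← h2]; abel
  by_cases h3 : y + z = x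
  · right; left; rw [← h3]; abel
  by_cases h4 : x + y + z = 0
  · right; right; right
    have : z = (x + y + z) - x - y := by abel
    rw [this, h4]; abel
  exact absurd ⟨h1, h2, h3, h4⟩ h

private lemma B4aR_neg1 {G : Type} [AddCommGroup G] {x y z : G} (h : B4aR x y z) :
    B4aR (-x) y z := by
  unfold B4aR at *
  rw [neg_neg]
  tauto

private lemma B4aR_neg2 {G : Type} [AddCommGroup G] {x y z : G} (h : B4aR x y z) :
    B4aR x (-y) z := by
  unfold B4aR at *
  rw [sub_neg_eq_add, sub_neg_eq_add, ← sub_eq_add_neg, ← sub_eq_add_neg]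
  tauto

private lemma B4a_core {G : Type} [AddCommGroup G] (h3 : ∀ x : G, 3 • x = 0 → x = 0)
    (a b e : G) (ha : a ≠ 0) (hb : b ≠ 0) (hea : e ≠ a) (hea' : e ≠ -a) (heb : e ≠ b)
    (heb' : e ≠ -b) (hec : e ≠ a + b) (hec' : e ≠ -(a + b)) (r1 : B4aR a b e)
    (r2 : B4aR a (a + b) e) (r3 : B4aR b (a + b) e) : False := by
  have k2 : a + 2 • b = 0 ∨ False := by
    rcases r1 with r1 | r1 | r1 | r1
    · exact absurd r1 hec
    · rcases r2 with r2 | r2 | r2 | r2
      · left
        have e1 : a + 2 • b = (a + (a + b)) - (a - b) := by abel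
        rw [e1, ← r2, ← r1, sub_self]
      · exact absurd (r2.trans (by abel)) heb'
      · exact absurd (r2.trans (by abel)) heb
      · refine absurd (h3 a ?_) ha
        have e1 : 3 • a = (a - b) - (-a - (a + b)) := by abel
        rw [e1, ← r2, ← r1, sub_self]
    · rcases r2 with r2 | r2 | r2 | r2
      · refine absurd (h3 a ?_) ha
        have e1 : 3 • a = (a + (a + b)) - (-a + b) := by abel
        rw [e1, ← r2, ← r1, sub_self]
      · exact absurd (r2.trans (by abel)) heb'
      · exact absurd (r2.trans (by abel)) heb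
      · left
        have e1 : a + 2 • b = (-a + b) - (-a - (a + b)) := by abel
        rw [e1, ← r2, ← r1, sub_self]
    · exact absurd (r1.trans (by abel)) hec'
  have k1 : 2 • a + b = 0 ∨ False := by
    rcases r1 with r1 | r1 | r1 | r1
    · exact absurd r1 hec
    · rcases r3 with r2 | r2 | r2 | r2
      · refine absurd (h3 b ?_) hb
        have e1 : 3 • b = (b + (a + b)) - (a - b) := by abel
        rw [e1, ← r2, ← r1, sub_self]
      · exact absurd (r2.trans (by abel)) hea'
      · exact absurd (r2.trans (by abel)) hea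
      · left
        have e1 : 2 • a + b = (a - b) - (-b - (a + b)) := by abel
        rw [e1, ← r2, ← r1, sub_self]
    · rcases r3 with r2 | r2 | r2 | r2
      · left
        have e1 : 2 • a + b = (b + (a + b)) - (-a + b) := by abel
        rw [e1, ← r2, ← r1, sub_self]
      · exact absurd (r2.trans (by abel)) hea'
      · exact absurd (r2.trans (by abel)) hea
      · refine absurd (h3 b ?_) hb
        have e1 : 3 • b = (-a + b) - (-b - (a + b)) := by abel
        rw [e1, ← r2, ← r1, sub_self]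
    · exact absurd (r1.trans (by abel)) hec'
  rcases k1 with k1 | k1
  · rcases k2 with k2 | k2
    · refine absurd (h3 b ?_) hb
      have e1 : 3 • b = 2 • (a + 2 • b) - (2 • a + b) := by abel
      rw [e1, k1, k2]
      simp
    · exact k2
  · exact k1

theorem thm_B4a : St_B4a := by
  intro G _ _ a b c e hG hA
  have h3 : ∀ x : G, 3 • x = 0 → x = 0 := fun x h =>
    B4a_tor 3 (Nat.Coprime.coprime_dvd_right (by norm_num) hG) x h
  by_contra hcon
  push Not at hcon
  obtain ⟨n1, n2, n3, n4⟩ := hcon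
  have q1 := B4aR_of n1
  have q2 := B4aR_of n2
  have q3 := B4aR_of n3
  have q4 := B4aR_of n4
  obtain ⟨h0, hp⟩ := hA
  simp only [List.mem_cons, List.not_mem_nil, or_false, forall_eq_or_imp, forall_eq] at h0
  obtain ⟨a0, b0, c0, e0⟩ := h0
  simp only [List.pairwise_cons, List.mem_cons, List.not_mem_nil, or_false, forall_eq_or_imp,
    forall_eq, List.Pairwise.nil, and_true, IsEmpty.forall_iff, implies_true] at hp
  obtain ⟨⟨⟨ab, ab'⟩, ⟨ac, ac'⟩, ⟨ae, ae'⟩⟩, ⟨⟨bc, bc'⟩, ⟨be, be'⟩⟩, ⟨ce, ce'⟩⟩ := hp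
  have ne1 : ∀ x y : G, x ≠ y → y ≠ x := fun x y h => h.symm
  have ne2 : ∀ x y : G, x ≠ -y → y ≠ -x := fun x y h h' => h (by rw [h', neg_neg])
  have hea := ne1 _ _ ae
  have hea' := ne2 _ _ ae'
  have heb := ne1 _ _ be
  have heb' := ne2 _ _ be'
  have hec := ne1 _ _ ce
  have hec' := ne2 _ _ ce'
  rcases q1 with q1 | q1 | q1 | q1
  · subst q1
    exact B4a_core h3 a b e a0 b0 hea hea' heb heb' hec hec' q2 q3 q4
  · have q1' : c = a + -b := by rw [q1, sub_eq_add_neg]
    subst q1'
    exact B4a_core h3 a (-b) e a0 (neg_ne_zero.mpr b0) hea hea' heb' (by rwa [neg_neg]) hec hec'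
      (B4aR_neg2 q2) q3 (B4aR_neg1 q4)
  · subst q1
    exact B4a_core h3 (-a) b e (neg_ne_zero.mpr a0) b0 hea' (by rwa [neg_neg]) heb heb' hec hec'
      (B4aR_neg1 q2) (B4aR_neg1 q3) q4
  · have q1' : c = -a + -b := by rw [q1, sub_eq_add_neg]
    subst q1'
    exact B4a_core h3 (-a) (-b) e (neg_ne_zero.mpr a0) (neg_ne_zero.mpr b0) hea' (by rwa [neg_neg])
      heb' (by rwa [neg_neg]) hec hec'
      (B4aR_neg1 (B4aR_neg2 q2)) (B4aR_neg1 q3) (B4aR_neg1 q4)

end Pool.Agent.MDR
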