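import Pool.Agent.MDR.St

/-!
# MDR, module B4b: the cube of a free triple and a fourth element
-/

set_option autoImplicit false

noncomputable section

open Finset Pool.Agent.Helper64.Rho Pool.Agent.SDG
open scoped Classical Pointwise

namespace Pool.Agent.MDR

section

variable {G : Type} [AddCommGroup G]

private lemma B4b_z {x y : G} (h : y = 0) (e : x = y ∨ x = -y) : x = 0 := by
  rcases e with e | e
  · rw [e, h]
  · rw [e, h, neg_zero]

/-- `x = y` or `x = - y` -/
private def PM2 (x y : G) : Prop := x = y ∨ x = -y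

private lemma PM2.neg {x y : G} (h : PM2 x y) : PM2 (-x) y := by
  rcases h with h | h
  · exact Or.inr (by rw [h])
  · exact Or.inl (by rw [h, neg_neg])

private lemma PM2.symm {x y : G} (h : PM2 x y) : PM2 y x := by
  rcases h with h | h
  · exact Or.inl h.symm
  · exact Or.inr (by rw [h, neg_neg])

private lemma PM2.trans {x y z : G} (h : PM2 x y) (h' : PM2 y z) : PM2 x z := by
  rcases h with h | h
  · rw [h]
    exact h'
  · rw [h]
    exact h'.neg

private lemma PM2.ne {x y : G} (h : PM2 x y) (hy : y ≠ 0) : x ≠ 0 := by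
  rcases h with h | h
  · rwa [h]
  · rw [h]
    exact neg_ne_zero.2 hy

/-- the sign -/
private def sg (x : Bool) (a : G) : G := if x then a else -a

private lemma sg_pm (x : Bool) (a : G) : PM2 (sg x a) a := by
  cases x
  · exact Or.inr rfl
  · exact Or.inl rfl

/-- the difference of two coefficients -/
private lemma sg_sub (x y : Bool) (a : G) :
    (if x then a else 0) - (if y then a else 0) = if x = y then 0 else sg x a := by
  cases x <;> cases y <;> simp [sg]

/-- the elements of the cube -/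
private def ph (a b c : G) (I : Bool × Bool × Bool) : G :=
  (if I.1 then a else 0) + (if I.2.1 then b else 0) + (if I.2.2 then c else 0)

private lemma B4b_cube (a b c : G) : cube a b c = univ.image (ph a b c) := by
  ext q
  unfold cube
  rw [mem_image]
  constructor
  · intro hq
    obtain ⟨u, hu, w, hw, rfl⟩ := mem_add.1 hq
    obtain ⟨s, hs, t, ht, rfl⟩ := mem_add.1 hu
    have h1 : ∀ {v x : G}, x ∈ ({0, v} : Finset G) → ∃ β : Bool, (if β then v else 0) = x := by
      intro v x hx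
      rcases mem_insert.1 hx with rfl | hx
      · exact ⟨false, rfl⟩
      · rw [mem_singleton.1 hx]
        exact ⟨true, rfl⟩
    obtain ⟨x, rfl⟩ := h1 hs
    obtain ⟨y, rfl⟩ := h1 ht
    obtain ⟨z, rfl⟩ := h1 hw
    exact ⟨(x, y, z), mem_univ _, rfl⟩
  · rintro ⟨⟨x, y, z⟩, _, rfl⟩
    have h1 : ∀ (v : G) (β : Bool), (if β then v else 0) ∈ ({0, v} : Finset G) := by
      intro v β
      cases β <;> simp
    exact add_mem_add (add_mem_add (h1 a x) (h1 b y)) (h1 c z)

/-- good with respect to `d` -/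
private def Gd (d x : G) : Prop := ∃ k : ℕ, 1 ≤ k ∧ k ≤ 4 ∧ (x = k • d ∨ x = -(k • d))

private lemma Gd_pm {d x y : G} (h : Gd d x) (hp : PM2 y x) : Gd d y := by
  obtain ⟨k, h1, h2, h3⟩ := h
  refine ⟨k, h1, h2, ?_⟩
  rcases hp with rfl | rfl <;> rcases h3 with rfl | rfl
  · exact Or.inl rfl
  · exact Or.inr rfl
  · exact Or.inr rfl
  · exact Or.inl (neg_neg _)

private lemma B4b_core {P Q p3 q3 r3 : G} (hQ : Q ≠ 0) (hR : P + Q + P ≠ 0)
    (hp : PM2 p3 P) (hq : PM2 q3 Q) (hr : PM2 r3 (P + Q + P)) (h : p3 + q3 + r3 = P + Q) :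
    ∃ d, Gd d P ∧ Gd d Q ∧ Gd d (P + Q + P) ∧ Gd d (P + Q) := by
  have hz := sub_eq_zero.2 h
  rcases hp with rfl | rfl <;> rcases hq with rfl | rfl <;> rcases hr with rfl | rfl
  · exact absurd (B4b_z hz (Or.inl (by abel))) hR
  · exact absurd (B4b_z hz (Or.inr (by abel))) hR
  · refine ⟨p3, ⟨1, le_rfl, by norm_num, Or.inl (one_nsmul _).symm⟩,
      ⟨2, by norm_num, by norm_num, Or.inl (sub_eq_zero.1 (B4b_z hz (Or.inr (by abel))))⟩,
      ⟨4, by norm_num, by norm_num, Or.inl (sub_eq_zero.1 (B4b_z hz (Or.inr (by abel))))⟩,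
      ⟨3, by norm_num, by norm_num, Or.inl (sub_eq_zero.1 (B4b_z hz (Or.inr (by abel))))⟩⟩
  · refine ⟨p3 + Q, ⟨3, by norm_num, by norm_num,
        Or.inl (sub_eq_zero.1 (B4b_z hz (Or.inl (by abel))))⟩,
      ⟨2, by norm_num, by norm_num, Or.inr (sub_eq_zero.1 (B4b_z hz (Or.inr (by abel))))⟩,
      ⟨4, by norm_num, by norm_num, Or.inl (sub_eq_zero.1 (B4b_z hz (Or.inl (by abel))))⟩,
      ⟨1, le_rfl, by norm_num, Or.inl (one_nsmul _).symm⟩⟩
  · exact absurd (B4b_z hz (Or.inl (by abel))) hQ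
  · refine ⟨P, ⟨1, le_rfl, by norm_num, Or.inl (one_nsmul _).symm⟩,
      ⟨4, by norm_num, by norm_num, Or.inr (sub_eq_zero.1 (B4b_z hz (Or.inr (by abel))))⟩,
      ⟨2, by norm_num, by norm_num, Or.inr (sub_eq_zero.1 (B4b_z hz (Or.inr (by abel))))⟩,
      ⟨3, by norm_num, by norm_num, Or.inr (sub_eq_zero.1 (B4b_z hz (Or.inr (by abel))))⟩⟩
  · exact absurd (B4b_z hz (Or.inr (by abel))) hQ
  · refine ⟨P + Q, ⟨3, by norm_num, by norm_num,
        Or.inr (sub_eq_zero.1 (B4b_z hz (Or.inr (by abel))))⟩,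
      ⟨4, by norm_num, by norm_num, Or.inl (sub_eq_zero.1 (B4b_z hz (Or.inl (by abel))))⟩,
      ⟨2, by norm_num, by norm_num, Or.inr (sub_eq_zero.1 (B4b_z hz (Or.inr (by abel))))⟩,
      ⟨1, le_rfl, by norm_num, Or.inl (one_nsmul _).symm⟩⟩

/-- two pairs with the common element `p`, and a triple -/
private lemma B4b_two {p q r e p1 q1 p2 r2 p3 q3 r3 : G} (hq0 : q ≠ 0) (hr0 : r ≠ 0)
    (hqr : ¬ PM2 q r) (hp1 : PM2 p1 p) (hq1 : PM2 q1 q) (h1 : p1 + q1 = e)
    (hp2 : PM2 p2 p) (hr2 : PM2 r2 r) (h2 : p2 + r2 = e)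
    (hp3 : PM2 p3 p) (hq3 : PM2 q3 q) (hr3 : PM2 r3 r) (h3 : p3 + q3 + r3 = e) :
    ∃ d, Gd d p ∧ Gd d q ∧ Gd d r ∧ Gd d e := by
  have hpp : PM2 p2 p1 := hp2.trans hp1.symm
  rcases hpp with hpp | hpp
  · exfalso
    apply hqr
    have h4 : q1 = r2 := by
      rw [← h1, hpp] at h2
      exact (add_left_cancel h2).symm
    rw [h4] at hq1
    exact hq1.symm.trans hr2
  · have h4 : r2 = p1 + q1 + p1 := by
      rw [← h1, hpp] at h2
      rw [← h2]
      abel
    subst h4
    subst h1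
    obtain ⟨d, g1, g2, g3, g4⟩ := B4b_core (hq1.ne hq0) (hr2.ne hr0) (hp3.trans hp1.symm)
      (hq3.trans hq1.symm) (hr3.trans hr2.symm) h3
    exact ⟨d, Gd_pm g1 hp1.symm, Gd_pm g2 hq1.symm, Gd_pm g3 hr2.symm, g4⟩

private lemma B4b_three {P Q e : G} (h1 : P + Q = e) (h3 : -Q + -(e + P) = e) :
    e + e + e = 0 := by
  subst h1
  exact B4b_z (sub_eq_zero.2 h3) (Or.inr (by abel))

end

private lemma B4b_tor {G : Type} [AddCommGroup G] [Finite G] (hG : Nat.Coprime (Nat.card G) 6)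
    (k : ℕ) (hk : k ∣ 6) (x : G) (h : k • x = 0) : x = 0 := by
  rw [← AddMonoid.addOrderOf_eq_one_iff]
  have h1 : addOrderOf x ∣ Nat.card G := addOrderOf_dvd_natCard x
  have h2 : addOrderOf x ∣ 6 := (addOrderOf_dvd_of_nsmul_eq_zero h).trans hk
  have h3 := Nat.dvd_gcd h1 h2
  rw [hG] at h3
  exact Nat.dvd_one.1 h3

/-- a set of triples of Booleans on which two coordinates are constant -/
private lemma B4b_cnt (P : Bool × Bool × Bool → Prop) (n : ℕ)
    (g : Bool × Bool × Bool → Bool × Bool)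
    (hg : ∀ I J, g I = g J → (univ.filter fun K : Bool × Bool × Bool => g K = g I).card ≤ n)
    (h : ∀ I J, P I → P J → g I = g J) : (univ.filter P).card ≤ n ∧
      (0 < (univ.filter P).card → ∃ I, P I) := by
  constructor
  · by_cases hne : ∃ I, P I
    · obtain ⟨I, hI⟩ := hne
      refine (card_le_card ?_).trans (hg I I rfl)
      intro J hJ
      rw [mem_filter] at hJ ⊢
      exact ⟨mem_univ _, h J I hJ.2 hI⟩
    · push Not at hne
      rw [filter_false_of_mem fun I _ => hne I, card_empty]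
      exact Nat.zero_le _
  · intro h0
    obtain ⟨I, hI⟩ := card_pos.1 h0
    exact ⟨I, (mem_filter.1 hI).2⟩

theorem thm_B4b : St_B4b := by
  intro G _ _ a b c e hG hAn hFr
  have t2 : ∀ x : G, x + x = 0 → x = 0 := fun x h =>
    B4b_tor hG 2 (by norm_num) x (by rw [two_nsmul]; exact h)
  have t3 : ∀ x : G, x + x + x = 0 → x = 0 := fun x h =>
    B4b_tor hG 3 (by norm_num) x (by
      rw [show (3 : ℕ) = 2 + 1 from rfl, add_nsmul, two_nsmul, one_nsmul]
      exact h)
  obtain ⟨hn, hp⟩ := hAn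
  have ha : a ≠ 0 := hn a (by simp)
  have hb : b ≠ 0 := hn b (by simp)
  have hc : c ≠ 0 := hn c (by simp)
  have he : e ≠ 0 := hn e (by simp)
  simp only [List.pairwise_cons, List.mem_cons, List.not_mem_nil, or_false, forall_eq_or_imp,
    forall_eq] at hp
  obtain ⟨⟨hab, hac, hae⟩, ⟨hbc, hbe⟩, hce, _⟩ := hp
  have Nab : ¬ PM2 a b := fun h => h.elim hab.1 hab.2
  have Nac : ¬ PM2 a c := fun h => h.elim hac.1 hac.2
  have Nae : ¬ PM2 a e := fun h => h.elim hae.1 hae.2
  have Nbc : ¬ PM2 b c := fun h => h.elim hbc.1 hbc.2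
  have Nbe : ¬ PM2 b e := fun h => h.elim hbe.1 hbe.2
  have Nce : ¬ PM2 c e := fun h => h.elim hce.1 hce.2
  -- sums with signs are not zero
  have F2 : ∀ {x y x1 y1 : G}, ¬ PM2 x y → PM2 x1 x → PM2 y1 y → x1 + y1 ≠ 0 := by
    intro x y x1 y1 hN hx hy h
    apply hN
    have h1 : x1 = -y1 := eq_neg_of_add_eq_zero_left h
    exact hx.symm.trans (by rw [h1]; exact hy.neg)
  have F3 : ∀ {a1 b1 c1 : G}, PM2 a1 a → PM2 b1 b → PM2 c1 c → a1 + b1 + c1 ≠ 0 := by
    intro a1 b1 c1 h1 h2 h3 h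
    obtain ⟨f1, f2, f3, f4⟩ := hFr
    rcases h1 with rfl | rfl <;> rcases h2 with rfl | rfl <;> rcases h3 with rfl | rfl
    · exact f4 h
    · exact f1 (sub_eq_zero.1 (B4b_z h (Or.inl (by abel))))
    · exact f2 (sub_eq_zero.1 (B4b_z h (Or.inl (by abel))))
    · exact f3 (sub_eq_zero.1 (B4b_z h (Or.inr (by abel))))
    · exact f3 (sub_eq_zero.1 (B4b_z h (Or.inl (by abel))))
    · exact f2 (sub_eq_zero.1 (B4b_z h (Or.inr (by abel))))
    · exact f1 (sub_eq_zero.1 (B4b_z h (Or.inr (by abel))))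
    · exact f4 (B4b_z h (Or.inr (by abel)))
  -- differences of two elements of the cube
  have hdiff : ∀ I J : Bool × Bool × Bool, ph a b c I - ph a b c J =
      (if I.1 = J.1 then 0 else sg I.1 a) + (if I.2.1 = J.2.1 then 0 else sg I.2.1 b) +
      (if I.2.2 = J.2.2 then 0 else sg I.2.2 c) := by
    intro I J
    rw [← sg_sub, ← sg_sub, ← sg_sub]
    unfold ph
    abel
  have hinj : Function.Injective (ph a b c) := by
    intro I J h
    have h1 := hdiff I J
    rw [h, sub_self] at h1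
    by_cases e1 : I.1 = J.1 <;> by_cases e2 : I.2.1 = J.2.1 <;> by_cases e3 : I.2.2 = J.2.2
    · exact Prod.ext e1 (Prod.ext e2 e3)
    · rw [if_pos e1, if_pos e2, if_neg e3, zero_add, zero_add] at h1
      exact absurd h1.symm ((sg_pm _ _).ne hc)
    · rw [if_pos e1, if_neg e2, if_pos e3, zero_add, add_zero] at h1
      exact absurd h1.symm ((sg_pm _ _).ne hb)
    · rw [if_pos e1, if_neg e2, if_neg e3, zero_add] at h1
      exact absurd h1.symm (F2 Nbc (sg_pm _ _) (sg_pm _ _))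
    · rw [if_neg e1, if_pos e2, if_pos e3, add_zero, add_zero] at h1
      exact absurd h1.symm ((sg_pm _ _).ne ha)
    · rw [if_neg e1, if_pos e2, if_neg e3, add_zero] at h1
      exact absurd h1.symm (F2 Nac (sg_pm _ _) (sg_pm _ _))
    · rw [if_neg e1, if_neg e2, if_pos e3, add_zero] at h1
      exact absurd h1.symm (F2 Nab (sg_pm _ _) (sg_pm _ _))
    · rw [if_neg e1, if_neg e2, if_neg e3] at h1
      exact absurd h1.symm (F3 (sg_pm _ _) (sg_pm _ _) (sg_pm _ _))
  have hcard : (cube a b c).card = 8 := by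
    rw [B4b_cube, card_image_of_injective _ hinj]
    rfl
  refine ⟨hcard, ?_⟩
  have hcnt : ((cube a b c).filter fun q => q - e ∈ cube a b c).card =
      (univ.filter fun I => ph a b c I - e ∈ cube a b c).card := by
    conv_lhs => rw [B4b_cube]
    rw [filter_image, card_image_of_injective _ hinj, ← B4b_cube]
  -- the four kinds
  set A12 : Bool × Bool × Bool → Prop := fun I => sg I.1 a + sg I.2.1 b = e with hA12
  set A13 : Bool × Bool × Bool → Prop := fun I => sg I.1 a + sg I.2.2 c = e with hA13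
  set A23 : Bool × Bool × Bool → Prop := fun I => sg I.2.1 b + sg I.2.2 c = e with hA23
  set A123 : Bool × Bool × Bool → Prop :=
    fun I => sg I.1 a + sg I.2.1 b + sg I.2.2 c = e with hA123
  have hT : ∀ I, ph a b c I - e ∈ cube a b c → A12 I ∨ A13 I ∨ A23 I ∨ A123 I := by
    intro I hI
    rw [B4b_cube, mem_image] at hI
    obtain ⟨J, _, hJ⟩ := hI
    have h1 := hdiff I J
    rw [hJ, sub_sub_cancel] at h1
    by_cases e1 : I.1 = J.1 <;> by_cases e2 : I.2.1 = J.2.1 <;> by_cases e3 : I.2.2 = J.2.2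
    · rw [if_pos e1, if_pos e2, if_pos e3, add_zero, add_zero] at h1
      exact absurd h1 he
    · rw [if_pos e1, if_pos e2, if_neg e3, zero_add, zero_add] at h1
      exact absurd (by rw [h1]; exact (sg_pm _ _).symm) Nce
    · rw [if_pos e1, if_neg e2, if_pos e3, zero_add, add_zero] at h1
      exact absurd (by rw [h1]; exact (sg_pm _ _).symm) Nbe
    · rw [if_pos e1, if_neg e2, if_neg e3, zero_add] at h1
      exact Or.inr (Or.inr (Or.inl h1.symm))
    · rw [if_neg e1, if_pos e2, if_pos e3, add_zero, add_zero] at h1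
      exact absurd (by rw [h1]; exact (sg_pm _ _).symm) Nae
    · rw [if_neg e1, if_pos e2, if_neg e3, add_zero] at h1
      exact Or.inr (Or.inl h1.symm)
    · rw [if_neg e1, if_neg e2, if_pos e3, add_zero] at h1
      exact Or.inl h1.symm
    · rw [if_neg e1, if_neg e2, if_neg e3] at h1
      exact Or.inr (Or.inr (Or.inr h1.symm))
  -- signs are determined
  have sgi : ∀ {v : G} {x y : Bool}, v ≠ 0 → sg x v = sg y v → x = y := by
    intro v x y hv h
    have hvv : v ≠ -v := by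
      intro h'
      apply hv
      apply t2
      nth_rewrite 2 [h']
      exact add_neg_cancel v
    cases x <;> cases y
    · rfl
    · exact absurd h.symm hvv
    · exact absurd h hvv
    · rfl
  have U2 : ∀ {v w : G} {x y x' y' : Bool}, v ≠ 0 → w ≠ 0 → ¬ PM2 v w →
      sg x v + sg y w = e → sg x' v + sg y' w = e → x = x' ∧ y = y' := by
    intro v w x y x' y' hv hw hN h1 h2
    have h3 : sg x v + sg y w = sg x' v + sg y' w := h1.trans h2.symm
    have k1 : PM2 (sg x' v) (sg x v) := (sg_pm _ _).trans (sg_pm _ _).symm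
    have k2 : PM2 (sg y' w) (sg y w) := (sg_pm _ _).trans (sg_pm _ _).symm
    rcases k1 with k1 | k1
    · rw [k1] at h3
      exact ⟨(sgi hv k1).symm, sgi hw (add_left_cancel h3)⟩
    · rcases k2 with k2 | k2
      · exfalso
        rw [k2] at h3
        have h4 := add_right_cancel h3
        rw [k1] at h4
        apply (sg_pm x v).ne hv
        apply t2
        nth_rewrite 2 [h4]
        exact add_neg_cancel _
      · exfalso
        apply F2 hN (sg_pm x v) (sg_pm y w)
        apply t2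
        rw [k1, k2] at h3
        nth_rewrite 2 [h3]
        abel
  have c12 : (univ.filter A12).card ≤ 2 ∧ (0 < (univ.filter A12).card → ∃ I, A12 I) :=
    B4b_cnt A12 2 (fun I => (I.1, I.2.1)) (by decide) fun I J hI hJ => by
      obtain ⟨h1, h2⟩ := U2 ha hb Nab hI hJ
      exact Prod.ext h1 h2
  have c13 : (univ.filter A13).card ≤ 2 ∧ (0 < (univ.filter A13).card → ∃ I, A13 I) :=
    B4b_cnt A13 2 (fun I => (I.1, I.2.2)) (by decide) fun I J hI hJ => by
      obtain ⟨h1, h2⟩ := U2 ha hc Nac hI hJ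
      exact Prod.ext h1 h2
  have c23 : (univ.filter A23).card ≤ 2 ∧ (0 < (univ.filter A23).card → ∃ I, A23 I) :=
    B4b_cnt A23 2 (fun I => (I.2.1, I.2.2)) (by decide) fun I J hI hJ => by
      obtain ⟨h1, h2⟩ := U2 hb hc Nbc hI hJ
      exact Prod.ext h1 h2
  have c123 : (univ.filter A123).card ≤ 1 := by
    rw [card_le_one]
    intro I hI J hJ
    have h1 : sg I.1 a + sg I.2.1 b + sg I.2.2 c = e := (mem_filter.1 hI).2
    have h2 : sg J.1 a + sg J.2.1 b + sg J.2.2 c = e := (mem_filter.1 hJ).2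
    have h3 := sub_eq_zero.2 (h1.trans h2.symm)
    have k1 : PM2 (sg J.1 a) (sg I.1 a) := (sg_pm _ _).trans (sg_pm _ _).symm
    have k2 : PM2 (sg J.2.1 b) (sg I.2.1 b) := (sg_pm _ _).trans (sg_pm _ _).symm
    have k3 : PM2 (sg J.2.2 c) (sg I.2.2 c) := (sg_pm _ _).trans (sg_pm _ _).symm
    rcases k1 with k1 | k1 <;> rcases k2 with k2 | k2 <;> rcases k3 with k3 | k3 <;>
      rw [k1, k2, k3] at h3
    · exact Prod.ext (sgi ha k1).symm (Prod.ext (sgi hb k2).symm (sgi hc k3).symm)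
    · exact absurd (t2 _ (B4b_z h3 (Or.inl (by abel)))) ((sg_pm I.2.2 c).ne hc)
    · exact absurd (t2 _ (B4b_z h3 (Or.inl (by abel)))) ((sg_pm I.2.1 b).ne hb)
    · exact absurd (t2 _ (B4b_z h3 (Or.inl (by abel))))
        (F2 Nbc (sg_pm I.2.1 b) (sg_pm I.2.2 c))
    · exact absurd (t2 _ (B4b_z h3 (Or.inl (by abel)))) ((sg_pm I.1 a).ne ha)
    · exact absurd (t2 _ (B4b_z h3 (Or.inl (by abel))))
        (F2 Nac (sg_pm I.1 a) (sg_pm I.2.2 c))
    · exact absurd (t2 _ (B4b_z h3 (Or.inl (by abel))))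
        (F2 Nab (sg_pm I.1 a) (sg_pm I.2.1 b))
    · exact absurd (t2 _ (B4b_z h3 (Or.inl (by abel))))
        (F3 (sg_pm I.1 a) (sg_pm I.2.1 b) (sg_pm I.2.2 c))
  -- not all three pairs
  have hthree : ¬ ((∃ I, A12 I) ∧ (∃ I, A13 I) ∧ ∃ I, A23 I) := by
    rintro ⟨⟨I, hI⟩, ⟨J, hJ⟩, ⟨K, hK⟩⟩
    have h1 : sg I.1 a + sg I.2.1 b = e := hI
    have h2 : sg J.1 a + sg J.2.2 c = e := hJ
    have h3 : sg K.2.1 b + sg K.2.2 c = e := hK
    have k1 : PM2 (sg J.1 a) (sg I.1 a) := (sg_pm _ _).trans (sg_pm _ _).symm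
    have k2 : PM2 (sg K.2.1 b) (sg I.2.1 b) := (sg_pm _ _).trans (sg_pm _ _).symm
    have k3 : PM2 (sg K.2.2 c) (sg J.2.2 c) := (sg_pm _ _).trans (sg_pm _ _).symm
    rcases k1 with k1 | k1
    · apply Nbc
      rw [← h1, k1] at h2
      have h4 := add_left_cancel h2
      exact (sg_pm I.2.1 b).symm.trans (by rw [← h4]; exact sg_pm _ _)
    · rcases k2 with k2 | k2
      · apply Nac
        rw [← h1, k2, add_comm] at h3
        have h4 := add_right_cancel h3
        exact (sg_pm I.1 a).symm.trans (by rw [← h4]; exact sg_pm _ _)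
      · rcases k3 with k3 | k3
        · apply Nab
          rw [← h2, k3] at h3
          have h4 := add_right_cancel h3
          exact (sg_pm J.1 a).symm.trans (by rw [← h4]; exact sg_pm _ _)
        · apply he
          apply t3
          rw [k1] at h2
          rw [k2, k3] at h3
          have e2 : sg J.2.2 c = e + sg I.1 a := by rw [← h2]; abel
          rw [e2] at h3
          exact B4b_three h1 h3
  have hle : (univ.filter fun I => ph a b c I - e ∈ cube a b c).card ≤
      (univ.filter A12).card + (univ.filter A13).card + (univ.filter A23).card +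
        (univ.filter A123).card := by
    have h1 : (univ.filter fun I => ph a b c I - e ∈ cube a b c) ⊆
        ((univ.filter A12 ∪ univ.filter A13) ∪ univ.filter A23) ∪ univ.filter A123 := by
      intro I hI
      have h2 := hT I (mem_filter.1 hI).2
      simp only [mem_union, mem_filter, mem_univ, true_and]
      tauto
    refine (card_le_card h1).trans ((card_union_le _ _).trans ?_)
    refine Nat.add_le_add_right ((card_union_le _ _).trans ?_) _
    exact Nat.add_le_add_right (card_union_le _ _) _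
  rw [hcnt]
  constructor
  · by_contra hlt
    apply hthree
    refine ⟨c12.2 (by omega), c13.2 (by omega), c23.2 (by omega)⟩
  · intro h5
    have hres : ∀ x, (∃ d, Gd d a ∧ Gd d b ∧ Gd d c ∧ Gd d e) → x = e →
        ∃ d : G, ∀ x ∈ [a, b, c, e], ∃ k : ℕ, 1 ≤ k ∧ k ≤ 4 ∧ (x = k • d ∨ x = -(k • d)) := by
      rintro _ ⟨d, g1, g2, g3, g4⟩ _
      refine ⟨d, fun x hx => ?_⟩
      simp only [List.mem_cons, List.not_mem_nil, or_false] at hx
      rcases hx with rfl | rfl | rfl | rfl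
      · exact g1
      · exact g2
      · exact g3
      · exact g4
    obtain ⟨K, hK⟩ : ∃ K, A123 K := by
      have h1 : 0 < (univ.filter A123).card := by
        by_contra h0
        apply hthree
        refine ⟨c12.2 (by omega), c13.2 (by omega), c23.2 (by omega)⟩
      obtain ⟨K, hK⟩ := card_pos.1 h1
      exact ⟨K, (mem_filter.1 hK).2⟩
    have hK' : sg K.1 a + sg K.2.1 b + sg K.2.2 c = e := hK
    refine hres e ?_ rfl
    by_cases z12 : (univ.filter A12).card = 0
    · obtain ⟨I, hI⟩ := c13.2 (by omega)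
      obtain ⟨J, hJ⟩ := c23.2 (by omega)
      have h1 : sg I.1 a + sg I.2.2 c = e := hI
      have h2 : sg J.2.1 b + sg J.2.2 c = e := hJ
      have h5 : sg K.2.2 c + sg K.1 a + sg K.2.1 b = e := by rw [← hK']; abel
      obtain ⟨d, g1, g2, g3, g4⟩ := B4b_two (e := e) ha hb Nab (sg_pm I.2.2 c) (sg_pm I.1 a)
        ((add_comm _ _).trans h1) (sg_pm J.2.2 c) (sg_pm J.2.1 b)
        ((add_comm _ _).trans h2) (sg_pm K.2.2 c) (sg_pm K.1 a) (sg_pm K.2.1 b) h5
      exact ⟨d, g2, g3, g1, g4⟩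
    · by_cases z13 : (univ.filter A13).card = 0
      · obtain ⟨I, hI⟩ := c12.2 (by omega)
        obtain ⟨J, hJ⟩ := c23.2 (by omega)
        have h1 : sg I.1 a + sg I.2.1 b = e := hI
        have h2 : sg J.2.1 b + sg J.2.2 c = e := hJ
        have h5 : sg K.2.1 b + sg K.1 a + sg K.2.2 c = e := by rw [← hK']; abel
        obtain ⟨d, g1, g2, g3, g4⟩ := B4b_two (e := e) ha hc Nac (sg_pm I.2.1 b) (sg_pm I.1 a)
          ((add_comm _ _).trans h1) (sg_pm J.2.1 b) (sg_pm J.2.2 c)
          h2 (sg_pm K.2.1 b) (sg_pm K.1 a) (sg_pm K.2.2 c) h5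
        exact ⟨d, g2, g1, g3, g4⟩
      · obtain ⟨I, hI⟩ := c12.2 (by omega)
        obtain ⟨J, hJ⟩ := c13.2 (by omega)
        have h1 : sg I.1 a + sg I.2.1 b = e := hI
        have h2 : sg J.1 a + sg J.2.2 c = e := hJ
        obtain ⟨d, g1, g2, g3, g4⟩ := B4b_two (e := e) hb hc Nbc (sg_pm I.1 a) (sg_pm I.2.1 b)
          h1 (sg_pm J.1 a) (sg_pm J.2.2 c)
          h2 (sg_pm K.1 a) (sg_pm K.2.1 b) (sg_pm K.2.2 c) hK'
        exact ⟨d, g1, g2, g3, g4⟩

end Pool.Agent.MDR
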