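import Pool.Agent.MDR.St

/-!
# MDR: module CF, exchange sums fill the coset
-/

set_option autoImplicit false

noncomputable section

open Finset Pool.Agent.Helper64.Rho Pool.Agent.SDG
open scoped Classical Pointwise

namespace Pool.Agent.MDR

/-- two large subsets of a finite group -/
private theorem CF_pig {G : Type} [AddCommGroup G] [Fintype G] (H : AddSubgroup G)
    {W Y : Finset G} (hW : ∀ w ∈ W, w ∈ H) (hY : ∀ y ∈ Y, y ∈ H)
    (h : (Helper58.F H).card + 1 ≤ W.card + Y.card) {z : G} (hz : z ∈ H) :
    ∃ y ∈ Y, z - y ∈ W := by
  by_contra hno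
  have h1 : (W ∪ Y.image fun y => z - y) ⊆ Helper58.F H := by
    intro x hx
    rw [Helper58.mem_F]
    rcases Finset.mem_union.1 hx with hx | hx
    · exact hW x hx
    · obtain ⟨y, hy, rfl⟩ := Finset.mem_image.1 hx
      exact H.sub_mem hz (hY y hy)
  have h2 : Disjoint W (Y.image fun y => z - y) := by
    rw [Finset.disjoint_left]
    intro x hx hx2
    obtain ⟨y, hy, rfl⟩ := Finset.mem_image.1 hx2
    exact hno ⟨y, hy, hx⟩
  have h3 := Finset.card_le_card h1
  rw [Finset.card_union_of_disjoint h2,
    Finset.card_image_of_injective _ (sub_right_injective (b := z))] at h3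
  omega

theorem thm_CF : St_CF := by
  intro G _ _ H E R Y b hE hRE hR hREne hYH h0Y hHE hbY hJ z hz
  have : Fintype G := Fintype.ofFinite G
  have hFc : ∀ K : AddSubgroup G, Nat.card K = (Helper58.F K).card := by
    intro K
    rw [Nat.card_eq_fintype_card, Helper58.F]
    exact Fintype.card_subtype _
  rw [hFc] at hHE
  obtain ⟨A, hA⟩ : ∃ A, A = E \ R := ⟨_, rfl⟩
  obtain ⟨R', hR'⟩ : ∃ R', R' = R.image fun x => -x := ⟨_, rfl⟩
  have hAE : A.card + R'.card = E.card := by
    rw [hA, hR', Finset.card_image_of_injective _ neg_injective]
    exact Finset.card_sdiff_add_card_eq_card hRE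
  have hAne : A.Nonempty := by
    rw [hA, Finset.sdiff_nonempty]
    intro h
    exact hREne (Finset.Subset.antisymm hRE h)
  have hRne : R'.Nonempty := by
    rw [hR']
    exact hR.image _
  obtain ⟨V, hV⟩ : ∃ V, V = A + R' := ⟨_, rfl⟩
  have hVm : ∀ v ∈ V, ∃ e ∈ E \ R, ∃ r ∈ R, v = e - r := by
    intro v hv
    rw [hV] at hv
    obtain ⟨a, ha, r', hr', rfl⟩ := Finset.mem_add.1 hv
    rw [hR'] at hr'
    obtain ⟨r, hr, rfl⟩ := Finset.mem_image.1 hr'
    exact ⟨a, hA ▸ ha, r, hr, (sub_eq_add_neg a r).symm⟩
  have hVH : ∀ v ∈ V, v ∈ H := by
    intro v hv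
    obtain ⟨e, he, r, hr, rfl⟩ := hVm v hv
    exact hE e (Finset.mem_sdiff.1 he).1 r (hRE hr)
  have hVne : V.Nonempty := by
    rw [hV]
    exact hAne.add hRne
  -- it is enough to write `z = y + v`
  have hfin : ∀ y ∈ Y, z - y ∈ V → z ∈ Y ∨ ∃ y ∈ Y, ∃ e ∈ E \ R, ∃ r ∈ R, z = y + (e - r) := by
    intro y hy hv
    obtain ⟨e, he, r, hr, h⟩ := hVm _ hv
    exact Or.inr ⟨y, hy, e, he, r, hr, by rw [← h]; abel⟩
  have hJH : Helper58.stab V ≤ H := by
    intro g hg
    obtain ⟨v, hv⟩ := hVne
    have h1 := hVH _ ((Helper58.mem_stab.1 hg v).2 hv)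
    have h2 := H.sub_mem h1 (hVH v hv)
    rwa [add_sub_cancel_right] at h2
  have hkn := Helper58.kneser hAne hRne
  rw [← hV] at hkn
  have hA1 := Finset.card_le_card (Helper58.subset_sat A (Helper58.stab V))
  have hR1 := Finset.card_le_card (Helper58.subset_sat R' (Helper58.stab V))
  by_cases hbot : Helper58.stab V = ⊥
  · -- no periods
    have h1 : (Helper58.F (Helper58.stab V)).card = 1 := by
      rw [hbot]
      rw [Finset.card_eq_one]
      refine ⟨0, ?_⟩
      ext x
      rw [Helper58.mem_F, AddSubgroup.mem_bot, Finset.mem_singleton]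
    have h0V : (0 : G) ∉ V := by
      intro h
      obtain ⟨e, he, r, hr, h2⟩ := hVm 0 h
      have h3 : e = r := (sub_eq_zero.1 h2.symm)
      exact (Finset.mem_sdiff.1 he).2 (h3 ▸ hr)
    obtain ⟨y, hy, hzy⟩ := CF_pig H (W := insert 0 V) (Y := Y) (by
      intro w hw
      rcases Finset.mem_insert.1 hw with hw | hw
      · rw [hw]
        exact H.zero_mem
      · exact hVH w hw) hYH (by rw [Finset.card_insert_of_notMem h0V]; omega) hz
    rcases Finset.mem_insert.1 hzy with hw | hw
    · left
      rw [sub_eq_zero.1 hw]
      exact hy
    · exact hfin y hy hw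
  · by_cases htop : Helper58.stab V = H
    · refine hfin 0 h0Y ?_
      rw [sub_zero]
      obtain ⟨v, hv⟩ := hVne
      have h1 : z - v ∈ Helper58.stab V := by
        rw [htop]
        exact H.sub_mem hz (hVH v hv)
      have h2 := (Helper58.mem_stab.1 h1 v).2 hv
      rwa [sub_add_cancel] at h2
    · have hlt : Helper58.stab V < H := lt_of_le_of_ne hJH htop
      obtain ⟨⟨y1, hy1, hy1J⟩, hsmall⟩ := hJ _ hbot hlt
      rw [hFc] at hsmall
      by_cases hbJ : (Helper58.F (Helper58.stab V)).card ≤ b
      · have h1 := hsmall hbJ
        obtain ⟨y, hy, hzy⟩ := CF_pig H hVH hYH (by omega) hz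
        exact hfin y hy hzy
      · -- all cosets in the coset of `E` meet `E`
        obtain ⟨e0, he0⟩ := hAne
        have he0E : e0 ∈ E := by
          rw [hA] at he0
          exact (Finset.mem_sdiff.1 he0).1
        have hEc : E ⊆ Helper58.coset H e0 := fun x hx =>
          Helper58.mem_coset.2 (hE x hx e0 he0E)
        have h1 : Helper58.coset H e0 ⊆ Helper58.sat A (Helper58.stab V) ∪
            (Helper58.sat R' (Helper58.stab V)).image fun x => -x := by
          intro x hx
          rw [Helper58.mem_coset] at hx
          obtain ⟨e, heE, hex⟩ : ∃ e ∈ E, e - x ∈ Helper58.stab V := by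
            by_contra hno
            have h2 : E ∪ Helper58.coset (Helper58.stab V) x ⊆ Helper58.coset H e0 := by
              refine Finset.union_subset hEc ?_
              intro w hw
              rw [Helper58.mem_coset] at *
              have h3 := H.add_mem (hJH hw) hx
              rwa [sub_add_sub_cancel] at h3
            have h3 : Disjoint E (Helper58.coset (Helper58.stab V) x) := by
              rw [Finset.disjoint_left]
              intro w hw hw2
              exact hno ⟨w, hw, Helper58.mem_coset.1 hw2⟩
            have h4 := Finset.card_le_card h2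
            rw [Finset.card_union_of_disjoint h3, Helper58.card_coset, Helper58.card_coset] at h4
            omega
          have hxe : x - e ∈ Helper58.stab V := by
            have h2 := (Helper58.stab V).neg_mem hex
            rwa [neg_sub] at h2
          by_cases heR : e ∈ R
          · refine Finset.mem_union_right _ (Finset.mem_image.2 ⟨-x, ?_, neg_neg x⟩)
            refine Helper58.mem_sat.2 ⟨-e, ?_, ?_⟩
            · rw [hR']
              exact Finset.mem_image.2 ⟨e, heR, rfl⟩
            · have h2 : -x - -e = e - x := by abel
              rw [h2]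
              exact hex
          · refine Finset.mem_union_left _ (Helper58.mem_sat.2 ⟨e, ?_, hxe⟩)
            rw [hA]
            exact Finset.mem_sdiff.2 ⟨heE, heR⟩
        have h2 := (Finset.card_le_card h1).trans (Finset.card_union_le _ _)
        rw [Helper58.card_coset, Finset.card_image_of_injective _ neg_injective] at h2
        have h3 : z ∈ V ∨ z - y1 ∈ V := by
          by_contra hno
          rw [not_or] at hno
          have hdis : ∀ x : G, x ∉ V → Disjoint V (Helper58.coset (Helper58.stab V) x) := by
            intro x hx
            rw [Finset.disjoint_left]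
            intro w hw hw2
            apply hx
            have h4 := (Helper58.stab V).neg_mem (Helper58.mem_coset.1 hw2)
            have h5 := (Helper58.mem_stab.1 h4 w).2 hw
            rwa [neg_sub, sub_add_cancel] at h5
          have h4 : Disjoint V (Helper58.coset (Helper58.stab V) z ∪
              Helper58.coset (Helper58.stab V) (z - y1)) := by
            rw [Finset.disjoint_union_right]
            exact ⟨hdis _ hno.1, hdis _ hno.2⟩
          have h5 : Disjoint (Helper58.coset (Helper58.stab V) z)
              (Helper58.coset (Helper58.stab V) (z - y1)) := by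
            rw [Finset.disjoint_left]
            intro w hw hw2
            apply hy1J
            have h6 := (Helper58.stab V).sub_mem (Helper58.mem_coset.1 hw2)
              (Helper58.mem_coset.1 hw)
            have h7 : w - (z - y1) - (w - z) = y1 := by abel
            rwa [h7] at h6
          have h6 : V ∪ (Helper58.coset (Helper58.stab V) z ∪
              Helper58.coset (Helper58.stab V) (z - y1)) ⊆ Helper58.F H := by
            intro w hw
            rw [Helper58.mem_F]
            rcases Finset.mem_union.1 hw with hw | hw
            · exact hVH w hw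
            · rcases Finset.mem_union.1 hw with hw | hw
              · have h7 := H.add_mem (hJH (Helper58.mem_coset.1 hw)) hz
                rwa [sub_add_cancel] at h7
              · have h7 := H.add_mem (hJH (Helper58.mem_coset.1 hw))
                  (H.sub_mem hz (hYH y1 hy1))
                rwa [sub_add_cancel] at h7
          have h7 := Finset.card_le_card h6
          rw [Finset.card_union_of_disjoint h4, Finset.card_union_of_disjoint h5,
            Helper58.card_coset, Helper58.card_coset] at h7
          have h8 := Helper58.card_F_pos (Helper58.stab V)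
          omega
        rcases h3 with h3 | h3
        · refine hfin 0 h0Y ?_
          rwa [sub_zero]
        · exact hfin y1 hy1 h3

end Pool.Agent.MDR
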