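import Mathlib
import Pool.Agent.MDR.St

set_option autoImplicit false

open Finset Pool.Agent.Helper64.Rho Pool.Agent.SDG
open scoped Classical Pointwise

namespace Pool.Agent.MDR

theorem thm_En : St_Sy → St_Pg → St_Ex → St_A1 → St_A2 → Pool.Agent.SDG.St_Ba1 → St_En := by
  intro hSy hPg hEx hA1 hA2 hBa G ι _ _ f Fam Exc hodd H1 H2 H3 H4 H5
  have main : ∀ l : ℕ, 4 ≤ l → ∀ u, Fam u → u.card = l → EngX Exc f u := by
    intro l hl
    induction l, hl using Nat.le_induction with
    | base => intro u hu hc; exact H2 u hu hc
    | succ l hl ih =>
      intro u hu hc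
      obtain ⟨hAS, hAper, hgen, h2N⟩ := H1 u hu
      obtain ⟨hSycard, hSy0, hSyneg, hSycl, hSylam⟩ := hSy G ι u f hodd hAS
      obtain ⟨c', hc'⟩ : ∃ c', l * (l + 1) = 2 * c' := by
        obtain ⟨r, hr⟩ := Nat.even_mul_succ_self l
        exact ⟨r, by omega⟩
      have hc2 : (l + 1) * (l + 1 + 1) = 2 * (c' + l + 1) := by nlinarith
      have h5 : 5 ≤ u.card := by omega
      have hune : u.Nonempty := Finset.card_pos.1 (by omega)
      have hBa3 := (hBa G ι f).2.2.1
      have hgen' : ∀ i ∈ u, Fam (u.erase i) → gen (u.erase i) f = ⊤ := fun i _ h => (H1 _ h).2.2.1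
      have hcard' : ∀ i ∈ u, (u.erase i).card = l := by
        intro i hi; rw [Finset.card_erase_of_mem hi, hc]; rfl
      have hA : 2 + u.card * (u.card + 1) ≤ 2 * (FS u f).card ∨ Exc u := by
        by_contra hcon
        push Not at hcon
        obtain ⟨hlt, hnE⟩ := hcon
        rw [hc, hc2] at hlt
        have hle : 2 * (FS u f).card ≤ 2 + u.card * (u.card + 1) := by rw [hc, hc2]; omega
        have hfam : ∀ i ∈ u, Fam (u.erase i) := H3 u hu h5 hle
        have hnE' : ∀ i ∈ u, ¬ Exc (u.erase i) := by
          intro i hi h
          rcases (H4 u hu h5 i hi h).1 with h1 | h1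
          · rw [hc, hc2] at h1; omega
          · exact hnE h1
        have hlow : ∀ i ∈ u, 1 + c' ≤ (FS (u.erase i) f).card := by
          intro i hi
          rcases (ih _ (hfam i hi) (hcard' i hi)).1 with h1 | h1
          · rw [hcard' i hi, hc'] at h1; omega
          · exact absurd h1 (hnE' i hi)
        by_cases hbig : ∃ i ∈ u, l ≤ lam (FS u f) (f i)
        · obtain ⟨i, hi, hlam⟩ := hbig
          have h1 := hBa3 u i hi
          have h3 := hlow i hi
          have hE := (ih _ (hfam i hi) (hcard' i hi)).2
          rw [hcard' i hi, hc'] at hE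
          have h4 : l * l + 2 * l ≤ Nat.card G := by nlinarith
          rcases hE h4 (by omega) with hP | hP
          · have h6 := (hEx G ι u f i hodd hAS hi (by omega) hP (hgen' i hi (hfam i hi)) (by
              rw [hc]; simp only [Nat.add_sub_cancel]; nlinarith)).1
            rw [hc, hc2] at h6
            omega
          · exact hnE' i hi hP
        · push Not at hbig
          have hlam := hSylam (FS u f) (l - 1) (fun i hi => by have := hbig i hi; omega)
          rcases H5 u hu h5 hle hnE with hP | hG
          · obtain ⟨d, c, _, _, _, _, h6⟩ := hPg G ι u f hodd hAS (by omega) hP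
            have := h6 hAper
            rw [hc, hc2] at this
            omega
          · obtain ⟨i0, hi0⟩ := hune
            have h7 := hlow i0 hi0
            have h8 := hBa3 u i0 hi0
            refine hA1 G (FS u f) (sym u f) (l + 1) hSy0 (by omega) (fun y hy => by
              have := hlam y hy; omega) ?_ ?_
            · simp only [Nat.add_sub_cancel]; nlinarith
            · intro i hi
              rcases hG i hi with h | h
              · left; omega
              · right; rw [hc] at h; exact h
      refine ⟨hA, ?_⟩
      intro hN hle
      by_contra hcon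
      push Not at hcon
      obtain ⟨hnP, hnE⟩ := hcon
      have hA' : 2 + u.card * (u.card + 1) ≤ 2 * (FS u f).card := by
        rcases hA with h | h
        · exact h
        · exact absurd h hnE
      have hfam : ∀ i ∈ u, Fam (u.erase i) := H3 u hu h5 hle
      have hnE' : ∀ i ∈ u, ¬ Exc (u.erase i) := by
        intro i hi h
        rcases (H4 u hu h5 i hi h).2 hN hle with h1 | h1
        · exact hnP h1
        · exact hnE h1
      rw [hc, hc2] at hle hA'
      rw [hc] at hN
      have hlow : ∀ i ∈ u, 2 + c' ≤ (FS (u.erase i) f).card := by
        intro i hi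
        by_contra hlt
        push Not at hlt
        have hE := (ih _ (hfam i hi) (hcard' i hi)).2
        rw [hcard' i hi, hc'] at hE
        rcases hE (by nlinarith) (by omega) with hP | hP
        · have h6 := (hEx G ι u f i hodd hAS hi (by omega) hP (hgen' i hi (hfam i hi)) (by
              rw [hc]; simp only [Nat.add_sub_cancel]; nlinarith)).2
          rw [hc, hc2] at h6
          exact hnP (h6 hle)
        · exact hnE' i hi hP
      have hlam := hSylam (FS u f) l (fun i hi => by
        have := hBa3 u i hi
        have := hlow i hi
        omega)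
      rcases H5 u hu h5 (by rw [hc, hc2]; exact hle) hnE with hP | hG
      · exact hnP hP
      · refine hA2 G (FS u f) (sym u f) (l + 1) hSy0 (by omega) (fun y hy => by
          have := hlam y hy; omega) (by rw [hc2]; omega) ?_
        intro i hi
        rcases hG i hi with h | h
        · left; omega
        · right; rw [hc] at h; exact h
  intro u hu h4
  exact main u.card h4 u hu rfl

end Pool.Agent.MDR
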