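import Pool.Agent.MDR.St

/-!
# MDR: module Gw, growth of the multiples of a symmetric set
-/

set_option autoImplicit false

noncomputable section

open Finset Pool.Agent.Helper64.Rho Pool.Agent.SDG
open scoped Classical Pointwise

namespace Pool.Agent.MDR

private theorem Gw_mem_st {G : Type} [AddCommGroup G] [Finite G] {A : Finset G}
    {H : AddSubgroup G} {x : G} : x ∈ st A H ↔ ∃ a ∈ A, x - a ∈ H := by
  unfold st
  rw [Set.Finite.mem_toFinset]
  rfl

private theorem Gw_two {G : Type} [AddCommGroup G] [Finite G] (hN : Odd (Nat.card G)) {x : G}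
    (h : x + x = 0) : x = 0 := by
  have h1 : addOrderOf x ∣ 2 := addOrderOf_dvd_of_nsmul_eq_zero (by rw [two_nsmul]; exact h)
  have h2 : addOrderOf x ∣ Nat.card G := addOrderOf_dvd_natCard x
  have h3 : addOrderOf x = 1 := by
    rcases (Nat.dvd_prime Nat.prime_two).1 h1 with h | h
    · exact h
    · exfalso
      rw [h] at h2
      exact (Nat.not_even_iff_odd.2 hN) (even_iff_two_dvd.2 h2)
  exact AddMonoid.addOrderOf_eq_one_iff.1 h3

private theorem Gw_odd {G : Type} [AddCommGroup G] [Finite G] (hN : Odd (Nat.card G))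
    {E : Finset G} (h0 : (0 : G) ∈ E) (hs : ∀ y ∈ E, -y ∈ E) : Odd E.card := by
  have h1 : ∑ x ∈ E.erase 0, (1 : ZMod 2) = 0 := by
    refine Finset.sum_involution (fun x _ => -x) ?_ ?_ ?_ ?_
    · intro a _
      decide
    · intro a ha _ h
      refine (Finset.mem_erase.1 ha).1 (Gw_two hN ?_)
      nth_rewrite 1 [← h]
      exact neg_add_cancel a
    · intro a ha
      obtain ⟨h2, h3⟩ := Finset.mem_erase.1 ha
      exact Finset.mem_erase.2 ⟨fun h => h2 (neg_eq_zero.1 h), hs a h3⟩
    · intro a _
      exact neg_neg a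
  rw [Finset.sum_const, nsmul_eq_mul, mul_one] at h1
  have h2 : 2 ∣ (E.erase 0).card := (ZMod.natCast_eq_zero_iff _ 2).1 h1
  have h3 := Finset.card_erase_add_one h0
  obtain ⟨c, hc⟩ := h2
  exact ⟨c, by omega⟩

private theorem Gw_it0 {G : Type} [AddCommGroup G] {D : Finset G} (h0 : (0 : G) ∈ D) (i : ℕ) :
    (0 : G) ∈ it D i := by
  induction i with
  | zero => exact Finset.mem_singleton_self 0
  | succ i ih => exact Finset.mem_add.2 ⟨0, ih, 0, h0, add_zero 0⟩

private theorem Gw_itneg {G : Type} [AddCommGroup G] {D : Finset G} (hs : ∀ y ∈ D, -y ∈ D)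
    (i : ℕ) : ∀ y ∈ it D i, -y ∈ it D i := by
  induction i with
  | zero =>
    intro y hy
    have h : y = 0 := Finset.mem_singleton.1 hy
    rw [h, neg_zero]
    exact Finset.mem_singleton_self 0
  | succ i ih =>
    intro y hy
    obtain ⟨a, ha, b, hb, rfl⟩ := Finset.mem_add.1 hy
    rw [neg_add]
    exact Finset.mem_add.2 ⟨-a, ih a ha, -b, hs b hb, rfl⟩

private theorem Gw_itsub {G : Type} [AddCommGroup G] {D : Finset G} (h0 : (0 : G) ∈ D) (i : ℕ) :
    it D i ⊆ it D (i + 1) := fun x hx => Finset.mem_add.2 ⟨x, hx, 0, h0, add_zero x⟩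

private theorem Gw_itD {G : Type} [AddCommGroup G] {D : Finset G} (h0 : (0 : G) ∈ D) (i : ℕ) :
    D ⊆ it D (i + 1) := fun x hx => Finset.mem_add.2 ⟨0, Gw_it0 h0 i, x, hx, zero_add x⟩

/-- leaving a set by steps `d` -/
private theorem Gw_walk {G : Type} [AddCommGroup G] {D : Finset G} {d y : G} (hy : y ∈ D) {t : ℕ}
    (ht : y + t • d ∉ D) : ∃ m, m < t ∧ (∀ j, j ≤ m → y + j • d ∈ D) ∧ y + (m + 1) • d ∉ D := by
  have hex : ∃ n, y + n • d ∉ D := ⟨t, ht⟩
  have h1 := Nat.find_spec hex
  have h2 : Nat.find hex ≠ 0 := by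
    intro h
    rw [h, zero_smul, add_zero] at h1
    exact h1 hy
  have h3 : Nat.find hex ≤ t := Nat.find_min' hex ht
  refine ⟨Nat.find hex - 1, by omega, ?_, ?_⟩
  · intro j hj
    by_contra hcon
    have := Nat.find_min' hex hcon
    omega
  · rwa [show Nat.find hex - 1 + 1 = Nat.find hex by omega]

/-- multiples in a finite cyclic group -/
private theorem Gw_zm {G : Type} [AddCommGroup G] [Finite G] {d x : G}
    (h : x ∈ AddSubgroup.zmultiples d) : ∃ t : ℕ, x = t • d ∧ t < addOrderOf d := by
  have h1 : x ∈ AddSubmonoid.multiples d := mem_multiples_iff_mem_zmultiples.2 h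
  obtain ⟨n, hn⟩ := AddSubmonoid.mem_multiples_iff _ _ |>.1 h1
  refine ⟨n % addOrderOf d, ?_, Nat.mod_lt _ (addOrderOf_pos d)⟩
  rw [mod_addOrderOf_nsmul]
  exact hn.symm

theorem thm_Gw : St_Gw := by
  intro G _ _ D l hN hl h0 hs hD hNear hProg i hi
  have : Fintype G := Fintype.ofFinite G
  have hst : ∀ K : AddSubgroup G, st D K = Helper58.sat D K := by
    intro K
    ext x
    rw [Gw_mem_st, Helper58.mem_sat]
  have hFc : ∀ K : AddSubgroup G, Nat.card K = (Helper58.F K).card := by
    intro K
    rw [Nat.card_eq_fintype_card, Helper58.F]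
    exact Fintype.card_subtype _
  have hFt : (Helper58.F (⊤ : AddSubgroup G)).card = Nat.card G := by
    rw [← hFc]
    exact Nat.card_congr AddSubgroup.topEquiv.toEquiv
  have hNK : Helper58.NK D (⊤ : AddSubgroup G) := by
    intro K hK1 hK2
    by_contra hcon
    apply hNear
    refine ⟨K, hK1, hK2.ne, ?_⟩
    rw [hst, hFc]
    omega
  -- the case of a critical set
  have hcrit : ∀ E : Finset G, D ⊆ E → E.card < Nat.card G → (E + D).card + 1 ≤ E.card + D.card →
      (E + D).card + 2 ≤ Nat.card G → False := by
    intro E hDE hEN hE1 hE2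
    have hX : Helper58.Crit D (⊤ : AddSubgroup G) E := by
      refine ⟨?_, ?_, hE1, ?_⟩
      · intro x _
        exact Helper58.mem_F.2 (AddSubgroup.mem_top x)
      · have := Finset.card_le_card hDE
        omega
      · rw [hFt]
        exact hE2
    obtain ⟨d, hd0, -, hd⟩ := Helper58.key
      (fun x _ => Helper58.mem_F.2 (AddSubgroup.mem_top x)) (by omega) hNK hX
    -- exits
    have hBd : ∀ x ∈ D, ∀ y ∈ D, x + d ∉ D → y + d ∉ D → x = y := by
      intro x hx y hy hxd hyd
      by_contra hne
      have h1 : D ∪ {x + d, y + d} ⊆ D ∪ ({d} + D) := by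
        intro z hz
        rcases Finset.mem_union.1 hz with h | h
        · exact Finset.mem_union_left _ h
        · refine Finset.mem_union_right _ ?_
          rcases Finset.mem_insert.1 h with h | h
          · rw [h]
            exact Finset.mem_add.2 ⟨d, Finset.mem_singleton_self d, x, hx, add_comm _ _⟩
          · rw [Finset.mem_singleton.1 h]
            exact Finset.mem_add.2 ⟨d, Finset.mem_singleton_self d, y, hy, add_comm _ _⟩
      have h2 : Disjoint D {x + d, y + d} := by
        rw [Finset.disjoint_left]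
        intro z hz hz2
        rcases Finset.mem_insert.1 hz2 with h | h
        · exact hxd (h ▸ hz)
        · exact hyd ((Finset.mem_singleton.1 h) ▸ hz)
      have h3 := Finset.card_le_card h1
      rw [Finset.card_union_of_disjoint h2, Finset.card_pair
        (fun h => hne (add_right_cancel h))] at h3
      omega
    -- the subgroup generated by `d`
    have hK0 : AddSubgroup.zmultiples d ≠ ⊥ := by
      intro h
      exact hd0 (AddSubgroup.zmultiples_eq_bot.1 h)
    have hKt : AddSubgroup.zmultiples d = ⊤ := by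
      by_contra hKt
      apply hNear
      refine ⟨AddSubgroup.zmultiples d, hK0, hKt, ?_⟩
      -- elements of `st D K` outside `D` lie in one coset
      have hout : ∀ y ∈ st D (AddSubgroup.zmultiples d), y ∉ D →
          ∃ x ∈ D, x + d ∉ D ∧ y - x ∈ AddSubgroup.zmultiples d := by
        intro y hy hyD
        obtain ⟨a, ha, hya⟩ := Gw_mem_st.1 hy
        obtain ⟨t, ht, -⟩ := Gw_zm hya
        have h1 : a + t • d ∉ D := by
          rw [← ht]
          rwa [add_sub_cancel]
        obtain ⟨m, -, hm1, hm2⟩ := Gw_walk ha h1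
        refine ⟨a + m • d, hm1 m le_rfl, ?_, ?_⟩
        · rwa [add_assoc, ← succ_nsmul]
        · have h2 : y - (a + m • d) = (y - a) - m • d := by abel
          rw [h2]
          exact AddSubgroup.sub_mem _ hya (AddSubgroup.nsmul_mem_zmultiples d m)
      by_cases hall : st D (AddSubgroup.zmultiples d) ⊆ D
      · have h1 := Finset.card_le_card hall
        have h2 : 0 < Nat.card (AddSubgroup.zmultiples d) := Nat.card_pos
        omega
      · obtain ⟨y0, hy0, hy0D⟩ := Finset.not_subset.1 hall
        obtain ⟨x0, hx0, hx0d, -⟩ := hout y0 hy0 hy0D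
        have h1 : st D (AddSubgroup.zmultiples d) ⊆
            D ∪ ((Helper58.coset (AddSubgroup.zmultiples d) x0).erase x0) := by
          intro y hy
          by_cases hyD : y ∈ D
          · exact Finset.mem_union_left _ hyD
          · refine Finset.mem_union_right _ ?_
            obtain ⟨x, hx, hxd, hyx⟩ := hout y hy hyD
            have h2 : x = x0 := hBd x hx x0 hx0 hxd hx0d
            rw [h2] at hyx
            refine Finset.mem_erase.2 ⟨?_, Helper58.mem_coset.2 hyx⟩
            intro h3
            exact hyD (h3 ▸ hx0)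
        have h2 := (Finset.card_le_card h1).trans (Finset.card_union_le _ _)
        have h3 : x0 ∈ Helper58.coset (AddSubgroup.zmultiples d) x0 := by
          rw [Helper58.mem_coset, sub_self]
          exact AddSubgroup.zero_mem _
        have h4 := Finset.card_erase_add_one h3
        have h5 := Helper58.card_coset (AddSubgroup.zmultiples d) x0
        rw [← hFc] at h5
        omega
    -- a point outside `D`
    obtain ⟨z0, hz0⟩ : ∃ z : G, z ∉ D := by
      by_contra hno
      have h1 : D = Finset.univ := by
        ext z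
        constructor
        · intro _
          exact Finset.mem_univ z
        · intro _
          by_contra hz
          exact hno ⟨z, hz⟩
      have h2 := Finset.card_le_card hDE
      rw [h1, Finset.card_univ, ← Nat.card_eq_fintype_card] at h2
      omega
    have hwalk : ∀ y ∈ D, ∃ m : ℕ, m < addOrderOf d ∧ (∀ j, j ≤ m → y + j • d ∈ D) ∧
        y + (m + 1) • d ∉ D := by
      intro y hy
      have h1 : z0 - y ∈ AddSubgroup.zmultiples d := by
        rw [hKt]
        exact AddSubgroup.mem_top _
      obtain ⟨t, ht, hto⟩ := Gw_zm h1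
      have h2 : y + t • d ∉ D := by
        rw [← ht, add_sub_cancel]
        exact hz0
      obtain ⟨m, hm, hm1, hm2⟩ := Gw_walk hy h2
      exact ⟨m, by omega, hm1, hm2⟩
    obtain ⟨m0, -, hm01, hm02⟩ := hwalk 0 h0
    obtain ⟨x0, hx0, hx0d⟩ : ∃ x0 ∈ D, x0 + d ∉ D := by
      refine ⟨0 + m0 • d, hm01 m0 le_rfl, ?_⟩
      rwa [add_assoc, ← succ_nsmul]
    -- all elements of `D` are `x0 - k d`, `k ≤ 2 l`
    have hform : ∀ y ∈ D, ∃ k : ℕ, k ≤ 2 * l ∧ y = x0 - k • d := by
      intro y hy
      obtain ⟨m, hmo, hm1, hm2⟩ := hwalk y hy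
      have h1 : y + m • d = x0 := by
        refine hBd _ (hm1 m le_rfl) x0 hx0 ?_ hx0d
        rwa [add_assoc, ← succ_nsmul]
      refine ⟨m, ?_, ?_⟩
      · have h2 : ((range (m + 1)).image fun j : ℕ => y + j • d) ⊆ D := by
          intro z hz
          obtain ⟨j, hj, rfl⟩ := Finset.mem_image.1 hz
          exact hm1 j (by rw [mem_range] at hj; omega)
        have h3 := Finset.card_le_card h2
        rw [Finset.card_image_of_injOn, card_range, hD] at h3
        · omega
        · intro a ha b hb hab
          have ha' : a < m + 1 := mem_range.1 (Finset.mem_coe.1 ha)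
          have hb' : b < m + 1 := mem_range.1 (Finset.mem_coe.1 hb)
          have h4 : a • d = b • d := add_left_cancel hab
          have h5 := nsmul_inj_mod.1 h4
          rwa [Nat.mod_eq_of_lt (by omega), Nat.mod_eq_of_lt (by omega)] at h5
      · rw [← h1]
        abel
    have hDe : D = (range (2 * l + 1)).image fun k : ℕ => x0 - k • d := by
      refine Finset.eq_of_subset_of_card_le ?_ ?_
      · intro y hy
        obtain ⟨k, hk, hyk⟩ := hform y hy
        exact Finset.mem_image.2 ⟨k, mem_range.2 (by omega), hyk.symm⟩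
      · refine Finset.card_image_le.trans ?_
        rw [card_range, hD]
    have hmemD : ∀ k : ℕ, k ≤ 2 * l → x0 - k • d ∈ D := by
      intro k hk
      rw [hDe]
      exact Finset.mem_image.2 ⟨k, mem_range.2 (by omega), rfl⟩
    obtain ⟨k, hk, hxk⟩ := hform (-x0) (hs x0 hx0)
    have hk2 : k = 2 * l := by
      by_contra hne
      have h1 := hs _ (hmemD (k + 1) (by omega))
      apply hx0d
      have h2 : -(x0 - (k + 1) • d) = x0 + d := by
        rw [succ_nsmul]
        have h3 : -(x0 - (k • d + d)) = -(x0 - k • d) + d := by abel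
        rw [h3, ← hxk, neg_neg]
      rwa [h2] at h1
    have hx0l : x0 = l • d := by
      have h1 : (x0 - l • d) + (x0 - l • d) = 0 := by
        have h2 : (2 * l) • d = l • d + l • d := by rw [two_mul, add_nsmul]
        rw [hk2, h2] at hxk
        have h3 : (x0 - l • d) + (x0 - l • d) = (x0 - (l • d + l • d)) + x0 := by abel
        rw [h3, ← hxk, neg_add_cancel]
      exact sub_eq_zero.1 (Gw_two hN h1)
    apply hProg
    refine ⟨d, fun y hy => ?_⟩
    obtain ⟨j, hj, hyj⟩ := hform y hy
    rcases Nat.le_total j l with hjl | hjl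
    · refine ⟨l - j, by omega, Or.inl ?_⟩
      rw [hyj, hx0l]
      have h1 : l • d = (l - j) • d + j • d := by
        rw [← add_nsmul, Nat.sub_add_cancel hjl]
      rw [h1, add_sub_cancel_right]
    · refine ⟨j - l, by omega, Or.inr ?_⟩
      rw [hyj, hx0l]
      have h1 : j • d = (j - l) • d + l • d := by
        rw [← add_nsmul, Nat.sub_add_cancel hjl]
      rw [h1]
      abel
  -- induction
  have hmain : ∀ i : ℕ, Nat.card G ≤ (it D (i + 1)).card ∨
      (i + 1) * (2 * l + 2) ≤ (it D (i + 1)).card + 1 := by
    intro i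
    induction i with
    | zero =>
      right
      have h1 : it D (0 + 1) = D := by
        show ({0} : Finset G) + D = D
        rw [Finset.singleton_zero, zero_add]
      rw [h1, hD]
      omega
    | succ i ih =>
      rcases ih with ih | ih
      · left
        exact ih.trans (Finset.card_le_card (Gw_itsub h0 (i + 1)))
      · have hoE := Gw_odd hN (Gw_it0 h0 (i + 1)) (Gw_itneg hs (i + 1))
        have hoE' := Gw_odd hN (Gw_it0 h0 (i + 1 + 1)) (Gw_itneg hs (i + 1 + 1))
        by_cases hEN : (it D (i + 1)).card < Nat.card G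
        · have hE' : it D (i + 1 + 1) = it D (i + 1) + D := rfl
          by_cases h1 : (it D (i + 1)).card + D.card ≤ (it D (i + 1 + 1)).card
          · right
            obtain ⟨a, ha⟩ := hoE
            obtain ⟨b, hb⟩ := hoE'
            have h2 : (i + 1 + 1) * (2 * l + 2) = (i + 1) * (2 * l + 2) + (2 * l + 2) := by ring
            rw [h2]
            omega
          · left
            by_contra hcon
            refine hcrit (it D (i + 1)) (Gw_itD h0 i) hEN (by rw [← hE']; omega) ?_
            rw [← hE']
            obtain ⟨b, hb⟩ := hoE'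
            obtain ⟨c, hc⟩ := hN
            omega
        · left
          exact (not_lt.1 hEN).trans (Finset.card_le_card (Gw_itsub h0 (i + 1)))
  have h1 := hmain (i - 1)
  rwa [show i - 1 + 1 = i by omega] at h1

end Pool.Agent.MDR
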