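import Pool.Agent.MDR.St

/-!
# MDR: module GwF, growth for families
-/

set_option autoImplicit false

noncomputable section

open Finset Pool.Agent.Helper64.Rho Pool.Agent.SDG
open scoped Classical Pointwise

namespace Pool.Agent.MDR

theorem thm_GwF : St_Gw → St_Sy → St_GwF := by
  intro hGw hSy G ι _ _ u f hN hAS hu hNear
  by_cases hP : Prog u f
  · exact Or.inl hP
  right
  obtain ⟨hcard, h0, hneg, -, -⟩ := hSy G ι u f hN hAS
  intro i hi
  refine hGw G (sym u f) u.card hN hu h0 hneg hcard hNear ?_ i hi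
  rintro ⟨d, hd⟩
  apply hP
  refine ⟨d, fun j hj => ?_⟩
  have hmem : f j ∈ sym u f :=
    Finset.mem_union_right _ (Finset.mem_union_left _ (Finset.mem_image_of_mem f hj))
  obtain ⟨k, hk, hk2⟩ := hd (f j) hmem
  refine ⟨k, ?_, hk, hk2⟩
  by_contra hcon
  have hk0 : k = 0 := by omega
  apply hAS.1 j hj
  rcases hk2 with h | h
  · rw [h, hk0, zero_smul]
  · rw [h, hk0, zero_smul, neg_zero]

end Pool.Agent.MDR
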