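import Pool.Agent.MDR.St

/-!
# MDR N5: the inequality at the top level
-/

set_option autoImplicit false

noncomputable section

open Finset Pool.Agent.Helper64.Rho Pool.Agent.SDG
open scoped Classical Pointwise

namespace Pool.Agent.MDR

private theorem N5_sq (t : ℕ) : t ^ 2 ≤ 4 * (t ^ 2 / 4) + 1 := by
  have h : t ^ 2 % 4 ≤ 1 := by
    rw [Nat.pow_mod]
    have h1 : t % 4 < 4 := Nat.mod_lt _ (by norm_num)
    interval_cases t % 4 <;> norm_num
  omega

theorem thm_N5 (hN : Pool.Agent.SDG.St_Nm1) : St_N5 := by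
  obtain ⟨h1, h2, h3, h4, h5, h6⟩ := hN
  refine ⟨?_, ?_⟩
  · intro m a w ham hw
    rcases Nat.lt_or_ge w 2 with hw2 | hw2
    · have hw1 : w = 1 := by omega
      subst hw1
      rw [h1 2 a]
      have e : cf (2 * m) (1 - 2) = 1 := by simp [cf]
      rw [e]
      omega
    · obtain ⟨v, rfl⟩ : ∃ v, w = v + 2 := ⟨w - 2, by omega⟩
      have e : v + 2 - 2 = v := by omega
      rw [e]
      have hm : 1 ≤ 2 * m := by omega
      have hdm := Nat.div_add_mod v (2 * m)
      have hr := Nat.mod_lt v (by omega : 0 < 2 * m)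
      have hb := h2 (2 * m) (v / (2 * m)) (v % (2 * m)) hm hr.le
      rw [hdm] at hb
      set α := v / (2 * m)
      set r := v % (2 * m)
      set c := cf (2 * m) v
      have hA := h3 (a + (v + 2))
      have hB := h3 a
      have hC := N5_sq (a + 1)
      have hD : 4 * ((a + (v + 2) + 1) ^ 2 / 4) ≤ (a + (v + 2) + 1) ^ 2 := Nat.mul_div_le _ _
      set X := (a + (v + 2) + 1) ^ 2 / 4
      set Y := (a + 1) ^ 2 / 4
      rw [hA, hB]
      have hrm : (r : ℤ) ≤ 2 * m := by exact_mod_cast hr.le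
      have hb' : (2 : ℤ) * c = 2 + 2 * m * α * (α + 1) + 2 * r * (α + 1) := by exact_mod_cast hb
      have hv : (v : ℤ) = 2 * m * α + r := by exact_mod_cast hdm.symm
      have hC' : ((a : ℤ) + 1) ^ 2 ≤ 4 * Y + 1 := by exact_mod_cast hC
      have hD' : 4 * (X : ℤ) ≤ ((a : ℤ) + (v + 2) + 1) ^ 2 := by exact_mod_cast hD
      have ham' : (a : ℤ) + 3 ≤ m := by exact_mod_cast ham
      have hr0 : (0 : ℤ) ≤ r := Int.natCast_nonneg r
      have hv0 : (0 : ℤ) ≤ v := Int.natCast_nonneg v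
      have hkey : 4 * ((m : ℤ) * c) = 4 * m + v ^ 2 + 2 * m * v + r * (2 * m - r) := by
        have e1 : 4 * ((m : ℤ) * c) = 2 * m * (2 * c) := by ring
        rw [e1, hb', hv]
        ring
      have hrr : 0 ≤ (r : ℤ) * (2 * m - r) := mul_nonneg hr0 (by linarith)
      have hfin : (4 : ℤ) * (1 + X) ≤ 4 * (m * c + (1 + Y)) := by
        nlinarith [mul_nonneg hv0 (by linarith : (0 : ℤ) ≤ m - (a + 3))]
      have : (1 + X : ℤ) ≤ m * c + (1 + Y) := by linarith
      exact_mod_cast this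
  · intro m a hm hcf
    rw [h3 a] at hcf
    rcases Nat.lt_or_ge a 3 with h | h
    · omega
    · have h7 : 4 * (a + 1) ≤ (a + 1) ^ 2 := by nlinarith
      have h8 : a + 1 ≤ (a + 1) ^ 2 / 4 := by
        rw [Nat.le_div_iff_mul_le (by norm_num)]
        linarith
      omega

end Pool.Agent.MDR
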