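import Mathlib
import Pool.Agent.MDR.St

set_option autoImplicit false

noncomputable section

open Finset Pool.Agent.Helper64.Rho Pool.Agent.SDG
open scoped Classical Pointwise

namespace Pool.Agent.MDR

/-- no element of order two in a group of odd order -/
lemma No_half {Q : Type} [AddCommGroup Q] [Finite Q] (h : Odd (Nat.card Q)) {x : Q} (hx : x + x = 0) : x = 0 := by
  have h1 : addOrderOf x ∣ 2 := addOrderOf_dvd_of_nsmul_eq_zero (by rw [two_nsmul]; exact hx)
  have h2 : addOrderOf x ∣ Nat.card Q := addOrderOf_dvd_natCard x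
  have h3 : addOrderOf x ∣ 1 := by
    have h4 : Nat.Coprime 2 (Nat.card Q) := (Nat.coprime_two_left).2 h
    exact (Nat.Coprime.dvd_of_dvd_mul_left (Nat.Coprime.coprime_dvd_left h1 h4) (by simpa using h2))
  exact AddMonoid.addOrderOf_eq_one_iff.1 (Nat.dvd_one.1 h3)

lemma No_quot {G : Type} [AddCommGroup G] [Finite G] (H : AddSubgroup G) (h : Odd (Nat.card G)) :
    Odd (Nat.card (G ⧸ H)) := by
  have h1 := AddSubgroup.card_eq_card_quotient_mul_card_addSubgroup H
  rw [h1] at h
  exact (Nat.odd_mul.1 h).1

theorem thm_No : St_No := by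
  intro G ι _ _ f H hodd
  have hoddQ := No_quot H hodd
  obtain ⟨ν, hν⟩ : ∃ ν : G ⧸ H → ℕ, Function.Injective ν := by
    have : Countable (G ⧸ H) := Finite.to_countable
    exact exists_injective_nat _
  refine ⟨fun i => if ν (QuotientAddGroup.mk (f i)) ≤ ν (QuotientAddGroup.mk (- f i)) then f i else - f i, ?_, ?_⟩
  · intro i
    by_cases h : ν (QuotientAddGroup.mk (f i)) ≤ ν (QuotientAddGroup.mk (- f i))
    · left; exact if_pos h
    · right; exact if_neg h
  · intro i j hij
    set f' : ι → G := fun i => if ν (QuotientAddGroup.mk (f i)) ≤ ν (QuotientAddGroup.mk (- f i)) then f i else - f i with hf'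
    have hle : ∀ i, ν (QuotientAddGroup.mk (f' i)) ≤ ν (QuotientAddGroup.mk (- f' i)) := by
      intro i
      by_cases h : ν (QuotientAddGroup.mk (f i)) ≤ ν (QuotientAddGroup.mk (- f i))
      · have e : f' i = f i := if_pos h
        rw [e]; exact h
      · have e : f' i = - f i := if_neg h
        rw [e, neg_neg]; omega
    change f' i + f' j ∈ H at hij
    change f' i ∈ H
    have h1 : (QuotientAddGroup.mk (f' i) : G ⧸ H) = QuotientAddGroup.mk (- f' j) := by
      rw [QuotientAddGroup.eq]
      have : -f' i + -f' j = -(f' i + f' j) := by abel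
      rw [this]
      exact H.neg_mem hij
    have h2 : (QuotientAddGroup.mk (f' j) : G ⧸ H) = QuotientAddGroup.mk (- f' i) := by
      rw [QuotientAddGroup.eq]
      have : -f' j + -f' i = -(f' i + f' j) := by abel
      rw [this]
      exact H.neg_mem hij
    have h3 := hle i
    have h4 := hle j
    rw [← h1] at h4
    rw [← h2] at h3
    have h5 : (QuotientAddGroup.mk (f' i) : G ⧸ H) = QuotientAddGroup.mk (f' j) := hν (le_antisymm h3 h4)
    have h6 : (QuotientAddGroup.mk (f' i) : G ⧸ H) + QuotientAddGroup.mk (f' i) = 0 := by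
      nth_rewrite 2 [h5]
      rw [← QuotientAddGroup.mk_add]
      exact (QuotientAddGroup.eq_zero_iff _).2 hij
    have h7 := No_half hoddQ h6
    exact (QuotientAddGroup.eq_zero_iff _).1 h7

end Pool.Agent.MDR
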