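import Pool.Agent.MDR.St

/-!
# MDR, module Nr: the minimal nearly filling subgroup
-/

set_option autoImplicit false

noncomputable section

open Finset Pool.Agent.Helper64.Rho Pool.Agent.SDG
open scoped Classical Pointwise

namespace Pool.Agent.MDR

/-- the preimage of a set of cosets -/
private def NrPre {G : Type} [AddCommGroup G] [Finite G] (K : AddSubgroup G) (C : Finset (G ⧸ K)) :
    Finset G := (Set.toFinite {x : G | (QuotientAddGroup.mk x : G ⧸ K) ∈ C}).toFinset

private theorem NrPre_mem {G : Type} [AddCommGroup G] [Finite G] (K : AddSubgroup G)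
    (C : Finset (G ⧸ K)) (x : G) : x ∈ NrPre K C ↔ (QuotientAddGroup.mk x : G ⧸ K) ∈ C := by
  unfold NrPre
  rw [Set.Finite.mem_toFinset]
  exact Iff.rfl

private theorem Nr_mk {G : Type} [AddCommGroup G] (K : AddSubgroup G) (x y : G) :
    (QuotientAddGroup.mk x : G ⧸ K) = QuotientAddGroup.mk y ↔ x - y ∈ K := by
  rw [QuotientAddGroup.eq]
  rw [← K.neg_mem_iff]
  have : -(-x + y) = x - y := by abel
  rw [this]

private theorem Nr_fib {G : Type} [AddCommGroup G] [Finite G] (K : AddSubgroup G) (a : G)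
    (T : Finset G) (hT : ∀ x, x ∈ T ↔ x - a ∈ K) : T.card = Nat.card K := by
  rw [← Nat.card_eq_finsetCard T]
  apply Nat.card_congr
  exact ⟨fun x => ⟨x.1 - a, (hT x.1).1 x.2⟩, fun k => ⟨k.1 + a, (hT _).2 (by
      rw [add_sub_cancel_right]
      exact k.2)⟩, fun x => by
      apply Subtype.ext
      exact sub_add_cancel _ _, fun k => by
      apply Subtype.ext
      exact add_sub_cancel_right _ _⟩

private theorem NrPre_card {G : Type} [AddCommGroup G] [Finite G] (K : AddSubgroup G)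
    (C : Finset (G ⧸ K)) : (NrPre K C).card = Nat.card K * C.card := by
  have h1 : (NrPre K C).card = ∑ c ∈ C, ((NrPre K C).filter fun x =>
      (QuotientAddGroup.mk x : G ⧸ K) = c).card :=
    card_eq_sum_card_fiberwise (fun x hx => (NrPre_mem K C x).1 hx)
  rw [h1]
  have h2 : ∀ c ∈ C, ((NrPre K C).filter fun x => (QuotientAddGroup.mk x : G ⧸ K) = c).card =
      Nat.card K := by
    intro c hc
    obtain ⟨a, rfl⟩ := QuotientAddGroup.mk_surjective c
    apply Nr_fib K a
    intro x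
    rw [mem_filter, NrPre_mem, Nr_mk]
    constructor
    · intro h
      exact h.2
    · intro h
      refine ⟨?_, h⟩
      rw [(Nr_mk K x a).2 h]
      exact hc
  rw [sum_congr rfl h2, sum_const, smul_eq_mul, mul_comm]

private theorem Nr_st_mem {G : Type} [AddCommGroup G] [Finite G] (A : Finset G) (H : AddSubgroup G)
    (x : G) : x ∈ st A H ↔ ∃ a ∈ A, x - a ∈ H := by
  unfold Pool.Agent.SDG.st
  rw [Set.Finite.mem_toFinset]
  exact Iff.rfl

private theorem Nr_sym_mem {G ι : Type} [AddCommGroup G] (s : Finset ι) (f : ι → G) (x : G) :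
    x ∈ sym s f ↔ x = 0 ∨ ∃ i ∈ s, x = f i ∨ x = - f i := by
  unfold sym
  rw [mem_union, mem_singleton, mem_union, mem_image, mem_image]
  constructor
  · rintro (h | ⟨i, hi, h⟩ | ⟨i, hi, h⟩)
    · exact Or.inl h
    · exact Or.inr ⟨i, hi, Or.inl h.symm⟩
    · exact Or.inr ⟨i, hi, Or.inr h.symm⟩
  · rintro (h | ⟨i, hi, h | h⟩)
    · exact Or.inl h
    · exact Or.inr (Or.inl ⟨i, hi, h.symm⟩)
    · exact Or.inr (Or.inr ⟨i, hi, h.symm⟩)

/-- [Nr] -/
theorem thm_Nr : St_Sg → St_Sy → St_No → St_Nr := by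
  intro hSg hSy hNo G ι _ _ s f hodd hAS hN
  -- the minimal subgroup
  obtain ⟨H, ⟨hHb, hHt, hHn⟩, hmin⟩ : ∃ H : AddSubgroup G, (H ≠ ⊥ ∧ H ≠ ⊤ ∧
      (st (sym s f) H).card + 1 ≤ (sym s f).card + Nat.card H) ∧
      ∀ K : AddSubgroup G, (K ≠ ⊥ ∧ K ≠ ⊤ ∧
      (st (sym s f) K).card + 1 ≤ (sym s f).card + Nat.card K) → ¬ Nat.card K < Nat.card H := by
    obtain ⟨K0, hK0⟩ := hN
    obtain ⟨H, hH, hmin⟩ := WellFounded.has_min
      (InvImage.wf (fun K : AddSubgroup G => Nat.card K) Nat.lt_wfRel.wf)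
      {K : AddSubgroup G | K ≠ ⊥ ∧ K ≠ ⊤ ∧
        (st (sym s f) K).card + 1 ≤ (sym s f).card + Nat.card K} ⟨K0, hK0⟩
    exact ⟨H, hH, fun K hK => hmin K hK⟩
  obtain ⟨f', hf', hno⟩ := hNo G ι f H hodd
  have hsg := hSg G ι s f f' (fun i _ => hf' i)
  have hsym : sym s f' = sym s f := hsg.2.2.2.2.2.2.1
  have hcard : (sym s f).card = 2 * s.card + 1 := (hSy G ι s f hodd hAS).1
  obtain ⟨V, hV⟩ : ∃ V : Finset (G ⧸ H), V =
      (outs s f' H).image fun i => (QuotientAddGroup.mk (f' i) : G ⧸ H) := ⟨_, rfl⟩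
  obtain ⟨W, hW⟩ : ∃ W : Finset (G ⧸ H), W =
      (outs s f' H).image fun i => (QuotientAddGroup.mk (- f' i) : G ⧸ H) := ⟨_, rfl⟩
  have houts : ∀ i, i ∈ outs s f' H ↔ i ∈ s ∧ f' i ∉ H := by
    intro i
    unfold outs
    rw [mem_filter]
  have hVW : Disjoint V W := by
    rw [disjoint_left]
    intro c h1 h2
    rw [hV, mem_image] at h1
    rw [hW, mem_image] at h2
    obtain ⟨i, hi, h1⟩ := h1
    obtain ⟨j, hj, h2⟩ := h2
    have h3 := h1.trans h2.symm
    rw [Nr_mk, sub_neg_eq_add] at h3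
    exact ((houts i).1 hi).2 (hno i j h3)
  have hWc : W.card = V.card := by
    have h1 : W = V.image fun c => -c := by
      rw [hW, hV, image_image]
      apply image_congr
      intro i _
      exact QuotientAddGroup.mk_neg H (f' i)
    rw [h1]
    exact card_image_of_injective _ neg_injective
  have h0V : (0 : G ⧸ H) ∉ V ∪ W := by
    rw [mem_union, hV, hW, mem_image, mem_image]
    rintro (⟨i, hi, h⟩ | ⟨i, hi, h⟩)
    · have h1 := (QuotientAddGroup.eq_zero_iff (f' i)).1 h
      exact ((houts i).1 hi).2 h1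
    · have h1 := (QuotientAddGroup.eq_zero_iff (- f' i)).1 h
      exact ((houts i).1 hi).2 (H.neg_mem_iff.1 h1)
  have hUc : (V ∪ W).card = 2 * V.card := by
    rw [card_union_of_disjoint hVW, hWc]
    ring
  -- the cosets met by `D`
  have hst : st (sym s f) H = NrPre H (insert 0 (V ∪ W)) := by
    ext x
    rw [Nr_st_mem, NrPre_mem, mem_insert, mem_union, ← hsym]
    constructor
    · rintro ⟨a, ha, hxa⟩
      rw [Nr_sym_mem] at ha
      have h1 := (Nr_mk H x a).2 hxa
      rw [h1]
      rcases ha with rfl | ⟨i, hi, rfl | rfl⟩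
      · left
        exact QuotientAddGroup.mk_zero H
      · by_cases h2 : f' i ∈ H
        · left
          exact (QuotientAddGroup.eq_zero_iff (f' i)).2 h2
        · right; left
          rw [hV, mem_image]
          exact ⟨i, (houts i).2 ⟨hi, h2⟩, rfl⟩
      · by_cases h2 : f' i ∈ H
        · left
          exact (QuotientAddGroup.eq_zero_iff (- f' i)).2 (H.neg_mem h2)
        · right; right
          rw [hW, mem_image]
          exact ⟨i, (houts i).2 ⟨hi, h2⟩, rfl⟩
    · rintro (h | h | h)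
      · refine ⟨0, (Nr_sym_mem s f' 0).2 (Or.inl rfl), ?_⟩
        rw [sub_zero]
        exact (QuotientAddGroup.eq_zero_iff x).1 h
      · rw [hV, mem_image] at h
        obtain ⟨i, hi, h⟩ := h
        refine ⟨f' i, (Nr_sym_mem s f' _).2 (Or.inr ⟨i, ((houts i).1 hi).1, Or.inl rfl⟩), ?_⟩
        exact (Nr_mk H x (f' i)).1 h.symm
      · rw [hW, mem_image] at h
        obtain ⟨i, hi, h⟩ := h
        refine ⟨- f' i, (Nr_sym_mem s f' _).2 (Or.inr ⟨i, ((houts i).1 hi).1, Or.inr rfl⟩), ?_⟩
        exact (Nr_mk H x (- f' i)).1 h.symm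
  have hvl : 2 * (V.card * Nat.card H) ≤ 2 * s.card := by
    rw [hst, NrPre_card, card_insert_of_notMem h0V, hUc, hcard] at hHn
    have h1 : Nat.card H * (2 * V.card + 1) = 2 * (V.card * Nat.card H) + Nat.card H := by ring
    rw [h1] at hHn
    omega
  refine ⟨H, f', hHb, hHt, hf', hno, ?_, ?_⟩
  · rw [← hV]
    omega
  · intro J hJb hJH
    by_contra hcon
    push Not at hcon
    have hJt : J ≠ ⊤ := fun h => by
      rw [h] at hJH
      exact not_top_lt hJH
    have hlt : Nat.card J < Nat.card H := by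
      have h1 : (J : Set G) ⊂ (H : Set G) := by
        exact_mod_cast hJH
      have h2 := Set.ncard_lt_ncard h1 (Set.toFinite _)
      rwa [← Nat.card_coe_set_eq, ← Nat.card_coe_set_eq] at h2
    refine hmin J ⟨hJb, hJt, ?_⟩ hlt
    -- the bound for `st D J`
    obtain ⟨TJ, hTJ⟩ : ∃ TJ : Finset G, TJ = (Set.toFinite {x : G | x ∈ J}).toFinset := ⟨_, rfl⟩
    have hTJm : ∀ x, x ∈ TJ ↔ x ∈ J := by
      intro x
      rw [hTJ, Set.Finite.mem_toFinset]
      exact Iff.rfl
    have hTJc : TJ.card = Nat.card J := by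
      apply Nr_fib J 0
      intro x
      rw [hTJm, sub_zero]
    have hsub : st (sym s f) J ⊆ TJ ∪ NrPre H (V ∪ W) := by
      intro x hx
      rw [Nr_st_mem, ← hsym] at hx
      obtain ⟨a, ha, hxa⟩ := hx
      rw [mem_union, hTJm, NrPre_mem, mem_union]
      rw [Nr_sym_mem] at ha
      have h1 := (Nr_mk H x a).2 (hJH.le hxa)
      rcases ha with rfl | ⟨i, hi, rfl | rfl⟩
      · left
        rwa [sub_zero] at hxa
      · by_cases h2 : f' i ∈ H
        · left
          have h3 := J.add_mem hxa (hcon i hi h2)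
          rwa [sub_add_cancel] at h3
        · right; left
          rw [h1, hV, mem_image]
          exact ⟨i, (houts i).2 ⟨hi, h2⟩, rfl⟩
      · by_cases h2 : f' i ∈ H
        · left
          have h3 := J.add_mem hxa (J.neg_mem (hcon i hi h2))
          rwa [sub_add_cancel] at h3
        · right; right
          rw [h1, hW, mem_image]
          exact ⟨i, (houts i).2 ⟨hi, h2⟩, rfl⟩
    have hc : (st (sym s f) J).card ≤ Nat.card J + 2 * (V.card * Nat.card H) := by
      calc (st (sym s f) J).card ≤ (TJ ∪ NrPre H (V ∪ W)).card := card_le_card hsub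
        _ ≤ TJ.card + (NrPre H (V ∪ W)).card := card_union_le _ _
        _ = Nat.card J + 2 * (V.card * Nat.card H) := by
            rw [hTJc, NrPre_card, hUc]
            ring
    rw [hcard]
    omega

end Pool.Agent.MDR
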