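import Pool.Agent.MDR.St

/-!
# MDR Pg: progressions, the sums form an interval
-/

set_option autoImplicit false

noncomputable section

open Finset Pool.Agent.Helper64.Rho Pool.Agent.SDG
open scoped Classical Pointwise

namespace Pool.Agent.MDR

/-- the subset sums of `1, ..., l` -/
theorem Pg_nat (l : ℕ) : ∀ n ≤ l * (l + 1) / 2, ∃ K ⊆ Icc 1 l, ∑ k ∈ K, k = n := by
  induction l with
  | zero =>
    intro n hn
    refine ⟨∅, empty_subset _, ?_⟩
    simp at hn
    simp [hn]
  | succ l ih =>
    intro n hn
    have e : (l + 1) * (l + 1 + 1) / 2 = l * (l + 1) / 2 + (l + 1) := by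
      have : (l + 1) * (l + 1 + 1) = l * (l + 1) + (l + 1) * 2 := by ring
      rw [this, Nat.add_mul_div_right _ _ (by norm_num)]
    rw [e] at hn
    rcases Nat.lt_or_ge (l * (l + 1) / 2) n with h | h
    · have hl : l ≤ l * (l + 1) / 2 := by
        rw [Nat.le_div_iff_mul_le (by norm_num)]
        rcases Nat.eq_zero_or_pos l with h0 | h0
        · simp [h0]
        · exact Nat.mul_le_mul_left l (by omega)
      obtain ⟨K, hK, hs⟩ := ih (n - (l + 1)) (by omega)
      have hnot : l + 1 ∉ K := by
        intro h1
        have := mem_Icc.1 (hK h1)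
        omega
      refine ⟨insert (l + 1) K, ?_, ?_⟩
      · intro x hx
        rcases mem_insert.1 hx with rfl | hx
        · exact mem_Icc.2 ⟨by omega, le_refl _⟩
        · have := mem_Icc.1 (hK hx)
          exact mem_Icc.2 ⟨this.1, by omega⟩
      · rw [sum_insert hnot, hs]
        omega
    · obtain ⟨K, hK, hs⟩ := ih n h
      refine ⟨K, fun x hx => ?_, hs⟩
      have := mem_Icc.1 (hK hx)
      exact mem_Icc.2 ⟨this.1, by omega⟩

/-- changing signs translates the set of sums -/
theorem Pg_sign {G ι : Type} [AddCommGroup G] (f f' : ι → G) (s : Finset ι)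
    (h : ∀ i ∈ s, f i = f' i ∨ f i = - f' i) : ∃ c : G, FS s f = (FS s f').image fun x => c + x := by
  induction s using Finset.induction_on with
  | empty => exact ⟨0, by simp⟩
  | insert i s hi ih =>
    obtain ⟨c, hc⟩ := ih fun j hj => h j (mem_insert_of_mem hj)
    rw [FS_insert hi, FS_insert hi]
    rcases h i (mem_insert_self i s) with h1 | h1
    · refine ⟨c, ?_⟩
      rw [image_union, hc, image_image, image_image]
      congr 1
      apply image_congr
      intro x _
      simp only [Function.comp]
      rw [h1]
      abel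
    · refine ⟨c - f' i, ?_⟩
      rw [image_union, hc, image_image, image_image, union_comm]
      congr 1
      · apply image_congr
        intro x _
        simp only [Function.comp]
        rw [h1]
        abel
      · apply image_congr
        intro x _
        simp only [Function.comp]
        abel

theorem Pg_sumkd {G ι : Type} [AddCommGroup G] (κ : ι → ℕ) (d : G) (s : Finset ι)
    (hinj : Set.InjOn κ s) (hs : s.image κ = Icc 1 s.card) :
    FS s (fun i => κ i • d) = (range (s.card * (s.card + 1) / 2 + 1)).image fun k : ℕ => k • d := by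
  ext x
  rw [mem_FS, mem_image]
  constructor
  · rintro ⟨t, ht, rfl⟩
    refine ⟨∑ i ∈ t, κ i, ?_, ?_⟩
    · rw [mem_range, Nat.lt_succ_iff]
      have h1 : ∑ i ∈ t, κ i ≤ ∑ i ∈ s, κ i := sum_le_sum_of_subset ht
      have h2 : ∑ i ∈ s, κ i = ∑ k ∈ Icc 1 s.card, k := by
        rw [← hs, sum_image fun a ha b hb hab => hinj ha hb hab]
      have h3 : ∑ k ∈ Icc 1 s.card, k = s.card * (s.card + 1) / 2 := by
        have h4 : ∑ k ∈ Icc 1 s.card, k = ∑ k ∈ range (s.card + 1), k := by
          have h5 : range (s.card + 1) = insert 0 (Icc 1 s.card) := by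
            ext y
            simp only [mem_range, mem_insert, mem_Icc]
            omega
          rw [h5, sum_insert (by simp)]
          simp
        rw [h4, Finset.sum_range_id, mul_comm]
        simp
      omega
    · rw [sum_smul]
  · rintro ⟨n, hn, rfl⟩
    rw [mem_range, Nat.lt_succ_iff] at hn
    obtain ⟨K, hK, hsum⟩ := Pg_nat s.card n hn
    refine ⟨s.filter fun i => κ i ∈ K, filter_subset _ _, ?_⟩
    rw [← sum_smul]
    congr 1
    rw [← hsum]
    have h1 : K = (s.filter fun i => κ i ∈ K).image κ := by
      ext y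
      rw [mem_image]
      constructor
      · intro hy
        have h2 : y ∈ s.image κ := by rw [hs]; exact hK hy
        obtain ⟨i, hi, rfl⟩ := mem_image.1 h2
        exact ⟨i, mem_filter.2 ⟨hi, hy⟩, rfl⟩
      · rintro ⟨i, hi, rfl⟩
        exact (mem_filter.1 hi).2
    conv_rhs => rw [h1]
    rw [sum_image]
    intro a ha b hb hab
    exact hinj (mem_filter.1 ha).1 (mem_filter.1 hb).1 hab

theorem Pg_main : St_Pg := by
  intro G ι _ _ s f hodd hAS hs hP
  obtain ⟨hne, hcap⟩ := hAS
  obtain ⟨d, hd⟩ := hP
  choose! κ hκ1 hκ2 hκ3 using hd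
  have hinj : Set.InjOn κ s := by
    intro i hi j hj hij
    have h1 : ({i, j} : Finset ι) ⊆ s.filter fun a => f a = κ i • d ∨ f a = -(κ i • d) := by
      intro a ha
      rw [mem_insert, mem_singleton] at ha
      rcases ha with rfl | rfl
      · exact mem_filter.2 ⟨hi, hκ3 _ hi⟩
      · rw [hij]
        exact mem_filter.2 ⟨hj, hκ3 _ hj⟩
    by_contra hne'
    have h2 := (card_le_card h1).trans (hcap (κ i • d))
    rw [card_pair hne'] at h2
    omega
  have himg : s.image κ = Icc 1 s.card := by
    apply eq_of_subset_of_card_le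
    · intro y hy
      obtain ⟨i, hi, rfl⟩ := mem_image.1 hy
      exact mem_Icc.2 ⟨hκ1 i hi, hκ2 i hi⟩
    · rw [card_image_of_injOn hinj, Nat.card_Icc]
      omega
  have h3 : ∀ k : ℕ, 1 ≤ k → k ≤ s.card → ∃ i ∈ s, f i = k • d ∨ f i = -(k • d) := by
    intro k hk1 hk2
    have h4 : k ∈ s.image κ := by rw [himg]; exact mem_Icc.2 ⟨hk1, hk2⟩
    obtain ⟨i, hi, rfl⟩ := mem_image.1 h4
    exact ⟨i, hi, hκ3 i hi⟩
  obtain ⟨c, hc⟩ := Pg_sign f (fun i => κ i • d) s hκ3
  have hFS : FS s f = (range (s.card * (s.card + 1) / 2 + 1)).image (fun k : ℕ => c + k • d) := by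
    rw [hc, Pg_sumkd κ d s hinj himg, image_image]
    rfl
  refine ⟨d, c, hFS, fun i hi => ⟨κ i, hκ1 i hi, hκ2 i hi, hκ3 i hi⟩, h3, ?_, ?_⟩
  · apply le_antisymm
    · unfold gen
      rw [AddSubgroup.closure_le]
      rintro _ ⟨i, hi, rfl⟩
      have h4 : κ i • d ∈ AddSubgroup.zmultiples d := AddSubgroup.nsmul_mem_zmultiples d (κ i)
      rcases hκ3 i hi with h | h
      · rw [h]
        exact h4
      · rw [h]
        exact (AddSubgroup.zmultiples d).neg_mem h4
    · rw [AddSubgroup.zmultiples_le]
      obtain ⟨i, hi, h4⟩ := h3 1 (le_refl 1) hs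
      have h5 : f i ∈ gen s f := AddSubgroup.subset_closure ⟨i, hi, rfl⟩
      rw [one_smul] at h4
      rcases h4 with h4 | h4
      · rwa [← h4]
      · rw [h4] at h5
        simpa using (gen s f).neg_mem h5
  · intro hap
    have heven : 2 * (s.card * (s.card + 1) / 2) = s.card * (s.card + 1) :=
      Nat.mul_div_cancel' (Nat.even_mul_succ_self s.card).two_dvd
    set L := s.card * (s.card + 1) / 2 with hL
    have hinj2 : Set.InjOn (fun k : ℕ => c + k • d) (range (L + 1)) := by
      have key : ∀ k k' : ℕ, k < k' → k' ≤ L → c + k • d ≠ c + k' • d := by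
        intro k k' hkk hk' heq
        have h4 : (k' - k) • d = 0 := by
          have h5 : k • d = k' • d := add_left_cancel heq
          have h6 : k' • d = (k' - k) • d + k • d := by
            rw [← add_smul]
            congr 1
            omega
          rw [h6] at h5
          have h7 : (0 : G) + k • d = (k' - k) • d + k • d := by rw [zero_add]; exact h5
          exact (add_right_cancel h7).symm
        have h5 : d = 0 := by
          apply hap
          intro x hx
          rw [hFS, mem_image] at hx ⊢
          obtain ⟨m, hm, rfl⟩ := hx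
          rw [mem_range] at hm
          rcases Nat.lt_or_ge m L with h | h
          · exact ⟨m + 1, mem_range.2 (by omega), by rw [add_smul, one_smul, add_assoc]⟩
          · have hmL : m = L := by omega
            refine ⟨m + 1 - (k' - k), mem_range.2 (by omega), ?_⟩
            have h6 : (m + 1) • d = (m + 1 - (k' - k)) • d + (k' - k) • d := by
              rw [← add_smul]
              congr 1
              omega
            rw [h4, add_zero] at h6
            rw [← h6, add_smul, one_smul, add_assoc]
        obtain ⟨i, hi⟩ : s.Nonempty := card_pos.1 (by omega)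
        apply hne i hi
        rcases hκ3 i hi with h | h
        · rw [h, h5, smul_zero]
        · rw [h, h5, smul_zero, neg_zero]
      intro a ha b hb hab
      have ha' := mem_range.1 (mem_coe.1 ha)
      have hb' := mem_range.1 (mem_coe.1 hb)
      rcases lt_trichotomy a b with h | h | h
      · exact absurd hab (key a b h (by omega))
      · exact h
      · exact absurd hab.symm (key b a h (by omega))
    rw [hFS, card_image_of_injOn hinj2, card_range]
    omega

theorem thm_Pg : St_Sg → St_Pg := fun _ => Pg_main

end Pool.Agent.MDR
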