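import Pool.Agent.MDR.St

/-!
# MDR, SC: counting
-/

set_option autoImplicit false

noncomputable section

open Finset Pool.Agent.Helper64.Rho Pool.Agent.SDG
open scoped Classical Pointwise

namespace Pool.Agent.MDR

private theorem SC_mem_st {G : Type} [AddCommGroup G] [Finite G] (A : Finset G) (M : AddSubgroup G)
    (x : G) : x ∈ st A M ↔ ∃ a ∈ A, x - a ∈ M := by
  unfold st
  rw [Set.Finite.mem_toFinset, Set.mem_ofPred_eq]

private theorem SC_mem_M {G ι : Type} [AddCommGroup G] (s : Finset ι) (f : ι → G)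
    (M : AddSubgroup G) (y : G) (hy : y ∈ FS (ins s f M) f) : y ∈ M := by
  obtain ⟨t, ht, rfl⟩ := mem_FS.1 hy
  exact M.sum_mem fun i hi => (mem_filter.1 (ht hi)).2

theorem thm_SC : St_SC := by
  intro G ι _ _ s Z f M g hM hA hZ hP
  obtain ⟨⟨h, hhM⟩, hh⟩ := AddSubgroup.ne_bot_iff_exists_ne_zero.1 hM
  have hh0 : h ≠ 0 := fun h0 => hh (Subtype.ext h0)
  set P' := (st (FS Z f) M).image (· + g) with hP'
  have hPX : P' ⊆ FS s f := by
    intro x hx
    obtain ⟨p, hp, rfl⟩ := mem_image.1 hx
    exact hP p hp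
  have hper : ∀ p ∈ P', ∀ m ∈ M, p + m ∈ P' := by
    intro p hp m hm
    obtain ⟨q, hq, rfl⟩ := mem_image.1 hp
    obtain ⟨a, ha, hqa⟩ := (SC_mem_st _ _ _).1 hq
    refine mem_image.2 ⟨q + m, (SC_mem_st _ _ _).2 ⟨a, ha, ?_⟩, ?_⟩
    · have h1 : q + m - a = q - a + m := by abel
      rw [h1]
      exact M.add_mem hqa hm
    · change q + m + g = q + g + m
      abel
  obtain ⟨x, hx, hxP⟩ : ∃ x ∈ FS s f, x ∉ P' := by
    by_contra hc
    push Not at hc
    exact hh0 (hA h fun x hx => hPX (hper x (hc x hx) h hhM))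
  have hdis : Disjoint (ins s f M) (outs s f M) := by
    unfold ins outs
    exact disjoint_filter_filter_not _ _ _
  have hun : ins s f M ∪ outs s f M = s := by
    unfold ins outs
    exact filter_union_filter_not_eq _ _
  have hx' := hx
  rw [← hun, mem_FS_union hdis] at hx'
  obtain ⟨y, hy, z, hz, rfl⟩ := hx'
  set Q := (FS (ins s f M) f).image (fun w => w + z) with hQ
  have hQX : Q ⊆ FS s f := by
    intro w hw
    obtain ⟨y', hy', rfl⟩ := mem_image.1 hw
    rw [← hun, mem_FS_union hdis]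
    exact ⟨y', hy', z, hz, rfl⟩
  have hPQ : Disjoint P' Q := by
    rw [disjoint_left]
    intro w hw hwQ
    obtain ⟨y', hy', rfl⟩ := mem_image.1 hwQ
    apply hxP
    have h1 := hper _ hw (y - y') (M.sub_mem (SC_mem_M s f M y hy) (SC_mem_M s f M y' hy'))
    have h2 : y' + z + (y - y') = y + z := by abel
    rw [h2] at h1
    exact h1
  have hcP : P'.card = (st (FS Z f) M).card := card_image_of_injective _ (add_left_injective g)
  have hcQ : Q.card = (FS (ins s f M) f).card := card_image_of_injective _ (add_left_injective z)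
  have h1 : (st (FS Z f) M).card + (FS (ins s f M) f).card ≤ (FS s f).card := by
    rw [← hcP, ← hcQ, ← card_union_of_disjoint hPQ]
    exact card_le_card (union_subset hPX hQX)
  refine ⟨h1, ?_⟩
  have h2 : 1 ≤ (FS (ins s f M) f).card := card_pos.2 ⟨0, zero_mem_FS _ _⟩
  have h3 : (FS s f).card ≤ Nat.card G := by
    have := Fintype.ofFinite G
    rw [Nat.card_eq_fintype_card]
    exact card_le_univ _
  omega

end Pool.Agent.MDR
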