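import Pool.Agent.MDR.St

/-!
# MDR, Sg: change of signs
-/

set_option autoImplicit false

noncomputable section

open Finset Pool.Agent.Helper64.Rho Pool.Agent.SDG
open scoped Classical Pointwise

namespace Pool.Agent.MDR

section Sg

variable {G ι : Type} [AddCommGroup G]

private theorem Sg_FS (s : Finset ι) (f f' : ι → G) (h : ∀ i ∈ s, f' i = f i ∨ f' i = -f i) :
    ∃ c : G, FS s f' = (FS s f).image (· + c) := by
  induction s using Finset.induction_on with
  | empty =>
    refine ⟨0, ?_⟩
    rw [FS_empty, FS_empty, image_singleton, add_zero]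
  | insert a s ha ih =>
    obtain ⟨c, hc⟩ := ih fun i hi => h i (mem_insert_of_mem hi)
    rcases h a (mem_insert_self a s) with h1 | h1
    · refine ⟨c, ?_⟩
      rw [FS_insert ha, FS_insert ha, hc, image_union, image_image, image_image, h1]
      congr 1
      refine image_congr fun x _ => ?_
      simp only [Function.comp_apply]
      abel
    · refine ⟨c - f a, ?_⟩
      rw [FS_insert ha, FS_insert ha, hc, image_union, image_image, image_image, h1, union_comm]
      congr 1
      · refine image_congr fun x _ => ?_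
        simp only [Function.comp_apply]
        abel
      · refine image_congr fun x _ => ?_
        simp only [Function.comp_apply]
        abel

private theorem Sg_aper (X : Finset G) (c : G) (h : Aper X) : Aper (X.image (· + c)) := by
  intro g hg
  refine h g fun x hx => ?_
  obtain ⟨y, hy, hy'⟩ := mem_image.1 (hg (x + c) (mem_image_of_mem _ hx))
  have h1 : y = x + g := by
    have h2 : y + c = x + c + g := hy'
    have h3 : y + c = (x + g) + c := by rw [h2]; abel
    exact add_right_cancel h3
  rw [← h1]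
  exact hy

private theorem Sg_pm (a b x : G) (h : a = b ∨ a = -b) : (a = x ∨ a = -x) ↔ (b = x ∨ b = -x) := by
  rcases h with rfl | rfl
  · exact Iff.rfl
  · rw [neg_inj, neg_eq_iff_eq_neg, or_comm]

private theorem Sg_cap (s : Finset ι) (f f' : ι → G) (h : ∀ i ∈ s, f' i = f i ∨ f' i = -f i)
    (g : ℕ) (hc : Cap g s f) : Cap g s f' := by
  intro x
  have h1 : (s.filter fun i => f' i = x ∨ f' i = -x) = s.filter fun i => f i = x ∨ f i = -x :=
    filter_congr fun i hi => Sg_pm _ _ x (h i hi)
  rw [h1]
  exact hc x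

end Sg

theorem thm_Sg : St_Sg := by
  intro G ι _ s f f' h
  obtain ⟨c, hc⟩ := Sg_FS s f f' h
  have hinv : ∀ i ∈ s, f i = f' i ∨ f i = -f' i := by
    intro i hi
    rcases h i hi with h1 | h1
    · exact Or.inl h1.symm
    · exact Or.inr (by rw [h1, neg_neg])
  refine ⟨?_, ?_, ?_, ?_, Sg_cap s f f' h, ?_, ?_, ?_⟩
  · rw [hc]
    exact card_image_of_injective _ (add_left_injective c)
  · intro hA
    rw [hc]
    exact Sg_aper _ _ hA
  · intro hA
    have h1 : FS s f' + FS s f' = (FS s f + FS s f).image (· + (c + c)) := by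
      rw [hc]
      ext x
      rw [mem_add, mem_image]
      constructor
      · rintro ⟨y, hy, z, hz, rfl⟩
        obtain ⟨y', hy', rfl⟩ := mem_image.1 hy
        obtain ⟨z', hz', rfl⟩ := mem_image.1 hz
        exact ⟨y' + z', add_mem_add hy' hz', by abel⟩
      · rintro ⟨w, hw, rfl⟩
        obtain ⟨y, hy, z, hz, rfl⟩ := mem_add.1 hw
        exact ⟨y + c, mem_image_of_mem _ hy, z + c, mem_image_of_mem _ hz, by abel⟩
    rw [h1]
    exact Sg_aper _ _ hA
  · unfold gen
    apply le_antisymm
    · rw [AddSubgroup.closure_le]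
      rintro x ⟨i, hi, rfl⟩
      have h1 : f i ∈ AddSubgroup.closure (f '' (s : Set ι)) :=
        AddSubgroup.subset_closure ⟨i, hi, rfl⟩
      rcases h i hi with h2 | h2
      · rw [h2]
        exact h1
      · rw [h2]
        exact AddSubgroup.neg_mem _ h1
    · rw [AddSubgroup.closure_le]
      rintro x ⟨i, hi, rfl⟩
      have h1 : f' i ∈ AddSubgroup.closure (f' '' (s : Set ι)) :=
        AddSubgroup.subset_closure ⟨i, hi, rfl⟩
      rcases hinv i hi with h2 | h2
      · rw [h2]
        exact h1
      · rw [h2]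
        exact AddSubgroup.neg_mem _ h1
  · intro hA
    refine ⟨fun i hi h0 => hA.1 i hi ?_, Sg_cap s f f' h 1 hA.2⟩
    rcases hinv i hi with h2 | h2
    · rw [h2, h0]
    · rw [h2, h0, neg_zero]
  · unfold sym
    congr 1
    ext x
    rw [mem_union, mem_union, mem_image, mem_image, mem_image, mem_image]
    constructor
    · rintro (⟨i, hi, rfl⟩ | ⟨i, hi, rfl⟩)
      · rcases h i hi with h2 | h2
        · exact Or.inl ⟨i, hi, h2.symm⟩
        · exact Or.inr ⟨i, hi, h2.symm⟩
      · rcases h i hi with h2 | h2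
        · exact Or.inr ⟨i, hi, by rw [h2]⟩
        · exact Or.inl ⟨i, hi, by rw [h2, neg_neg]⟩
    · rintro (⟨i, hi, rfl⟩ | ⟨i, hi, rfl⟩)
      · rcases hinv i hi with h2 | h2
        · exact Or.inl ⟨i, hi, h2.symm⟩
        · exact Or.inr ⟨i, hi, h2.symm⟩
      · rcases hinv i hi with h2 | h2
        · exact Or.inr ⟨i, hi, by rw [h2]⟩
        · exact Or.inl ⟨i, hi, by rw [h2, neg_neg]⟩
  · rintro ⟨d, hd⟩
    refine ⟨d, fun i hi => ?_⟩
    obtain ⟨k, hk1, hk2, hk3⟩ := hd i hi
    refine ⟨k, hk1, hk2, ?_⟩
    rcases hinv i hi with h2 | h2 <;> rcases hk3 with h3 | h3 <;> rw [h2, h3]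
    · exact Or.inl rfl
    · exact Or.inr rfl
    · exact Or.inr rfl
    · exact Or.inl (neg_neg _)

end Pool.Agent.MDR
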