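import Pool.Agent.MDR.St

/-!
# MDR, module Sl: full slices at the top level
-/

set_option autoImplicit false

noncomputable section

open Finset Pool.Agent.Helper64.Rho Pool.Agent.SDG
open scoped Classical Pointwise

namespace Pool.Agent.MDR

private theorem Sl_st_mem {G : Type} [AddCommGroup G] [Finite G] (A : Finset G) (H : AddSubgroup G)
    (x : G) : x ∈ st A H ↔ ∃ a ∈ A, x - a ∈ H := by
  unfold Pool.Agent.SDG.st
  rw [Set.Finite.mem_toFinset]
  exact Iff.rfl

private theorem Sl_inj {G ι : Type} [AddCommGroup G] (u : Finset ι) (f : ι → G) (h : Cap 1 u f)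
    (i j : ι) (hi : i ∈ u) (hj : j ∈ u) (hij : f i = f j) : i = j := by
  have h1 := h (f i)
  rw [card_le_one] at h1
  exact h1 i (mem_filter.2 ⟨hi, Or.inl rfl⟩) j (mem_filter.2 ⟨hj, Or.inl hij.symm⟩)

/-- [Sl] -/
theorem thm_Sl : St_CF → St_Sl := by
  intro hCF G ι _ _ s u f H i0 i1 b hus hAS hi0 hi1 h01 hf01 hf0 hHc hb hJ x hx
  rw [Sl_st_mem] at hx
  obtain ⟨a, ha, hxa⟩ := hx
  rw [mem_FS] at ha
  obtain ⟨U, hU, rfl⟩ := ha
  have hUs : ∀ i ∈ U, i ≠ i0 ∧ i ≠ i1 ∧ i ∈ s ∧ f i ∉ H := by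
    intro i hi
    have h1 := hU hi
    rw [mem_erase, mem_erase] at h1
    have h2 : i ∈ outs s f H := h1.2.2
    unfold outs at h2
    rw [mem_filter] at h2
    exact ⟨h1.2.1, h1.1, h2.1, h2.2⟩
  have hins : ∀ i, i ∈ ins s f H ↔ i ∈ s ∧ f i ∈ H := by
    intro i
    unfold ins
    rw [mem_filter]
  obtain ⟨C, hC⟩ : ∃ C : Finset ι, C = u.filter fun i => f i - f i0 ∈ H := ⟨_, rfl⟩
  have hCm : ∀ i, i ∈ C ↔ i ∈ u ∧ f i - f i0 ∈ H := by
    intro i
    rw [hC, mem_filter]
  obtain ⟨R0, hR0⟩ : ∃ R0 : Finset ι, R0 = insert i0 (U ∩ C) := ⟨_, rfl⟩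
  have h0C : i0 ∈ C := (hCm i0).2 ⟨hi0, by rw [sub_self]; exact H.zero_mem⟩
  have h1C : i1 ∈ C := (hCm i1).2 ⟨hi1, by
    rw [← neg_sub]
    exact H.neg_mem hf01⟩
  have hRC : R0 ⊆ C := by
    rw [hR0]
    intro i hi
    rw [mem_insert, mem_inter] at hi
    rcases hi with rfl | hi
    · exact h0C
    · exact hi.2
  have hR1 : i1 ∉ R0 := by
    rw [hR0, mem_insert, mem_inter]
    rintro (h | h)
    · exact h01 h.symm
    · exact (hUs i1 h.1).2.1 rfl
  have hinj : ∀ i ∈ C, ∀ j ∈ C, f i = f j → i = j := fun i hi j hj h =>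
    Sl_inj u f hAS.2 i j ((hCm i).1 hi).1 ((hCm j).1 hj).1 h
  have hYH : ∀ y ∈ FS (ins s f H) f, y ∈ H := by
    intro y hy
    exact FS_subset_of_mem (fun i hi => ((hins i).1 hi).2) hy
  have hEc : (C.image f).card = C.card := card_image_of_injOn fun i hi j hj h =>
    hinj i (mem_coe.1 hi) j (mem_coe.1 hj) h
  have hcf := hCF G H (C.image f) (R0.image f) (FS (ins s f H) f) b
    (by
      intro x hx y hy
      rw [mem_image] at hx hy
      obtain ⟨i, hi, rfl⟩ := hx
      obtain ⟨j, hj, rfl⟩ := hy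
      have h1 := H.sub_mem ((hCm i).1 hi).2 ((hCm j).1 hj).2
      have h2 : f i - f i0 - (f j - f i0) = f i - f j := by abel
      rwa [h2] at h1)
    (image_subset_image hRC)
    (by
      refine ⟨f i0, mem_image_of_mem f ?_⟩
      rw [hR0]
      exact mem_insert_self _ _)
    (by
      intro h
      have h1 : f i1 ∈ R0.image f := by
        rw [h]
        exact mem_image_of_mem f h1C
      rw [mem_image] at h1
      obtain ⟨j, hj, h2⟩ := h1
      have h3 := hinj j (hRC hj) i1 h1C h2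
      rw [h3] at hj
      exact hR1 hj)
    hYH (zero_mem_FS _ _)
    (by
      rw [hEc, hC]
      exact hHc)
    hb
    (by
      intro J hJb hJH
      refine ⟨?_, (hJ J hJb hJH).2⟩
      obtain ⟨i, his, hiH, hiJ⟩ := (hJ J hJb hJH).1
      refine ⟨f i, ?_, hiJ⟩
      rw [mem_FS]
      exact ⟨{i}, singleton_subset_iff.2 ((hins i).2 ⟨his, hiH⟩), sum_singleton _ _⟩)
    (x - ∑ i ∈ U, f i) hxa
  -- the set `W` of the indices `i0` and `U`
  obtain ⟨W, hW⟩ : ∃ W : Finset ι, W = insert i0 U := ⟨_, rfl⟩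
  have hi0U : i0 ∉ U := fun h => (hUs i0 h).1 rfl
  have hWs : ∀ i ∈ W, i ∈ s ∧ f i ∉ H := by
    intro i hi
    rw [hW, mem_insert] at hi
    rcases hi with rfl | hi
    · exact ⟨hus hi0, hf0⟩
    · exact (hUs i hi).2.2
  have hWsum : ∑ i ∈ W, f i = f i0 + ∑ i ∈ U, f i := by
    rw [hW, sum_insert hi0U]
  have hTW : ∀ T W' : Finset ι, T ⊆ ins s f H → (∀ i ∈ W', i ∈ s ∧ f i ∉ H) →
      ∑ i ∈ T, f i + ∑ i ∈ W', f i ∈ FS s f := by
    intro T W' hT hW'
    have hd : Disjoint T W' := by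
      rw [disjoint_left]
      intro i h1 h2
      exact (hW' i h2).2 ((hins i).1 (hT h1)).2
    rw [← sum_union hd, mem_FS]
    refine ⟨T ∪ W', ?_, rfl⟩
    intro i hi
    rw [mem_union] at hi
    rcases hi with hi | hi
    · exact ((hins i).1 (hT hi)).1
    · exact (hW' i hi).1
  rcases hcf with hz | ⟨y, hy, e, he, r, hr, hz⟩
  · rw [mem_FS] at hz
    obtain ⟨T, hT, hz⟩ := hz
    have h1 := hTW T W hT hWs
    rw [hz, hWsum] at h1
    have h2 : x - ∑ i ∈ U, f i + (f i0 + ∑ i ∈ U, f i) = x + f i0 := by abel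
    rwa [h2] at h1
  · rw [mem_FS] at hy
    obtain ⟨T, hT, hy⟩ := hy
    rw [mem_sdiff, mem_image, mem_image] at he
    obtain ⟨⟨ie, hieC, rfl⟩, heR⟩ := he
    rw [mem_image] at hr
    obtain ⟨ir, hir, rfl⟩ := hr
    have hieR : ie ∉ R0 := fun h => heR ⟨ie, h, rfl⟩
    have hieW : ie ∉ W := by
      rw [hW, mem_insert]
      rintro (h | h)
      · apply hieR
        rw [hR0, h]
        exact mem_insert_self _ _
      · apply hieR
        rw [hR0]
        exact mem_insert_of_mem (mem_inter.2 ⟨h, hieC⟩)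
    have hirW : ir ∈ W := by
      rw [hR0, mem_insert, mem_inter] at hir
      rw [hW, mem_insert]
      rcases hir with h | h
      · exact Or.inl h
      · exact Or.inr h.1
    have hieH : f ie ∉ H := by
      intro h
      apply hf0
      have h1 := H.sub_mem h ((hCm ie).1 hieC).2
      rwa [sub_sub_cancel] at h1
    have hW's : ∀ i ∈ insert ie (W.erase ir), i ∈ s ∧ f i ∉ H := by
      intro i hi
      rw [mem_insert, mem_erase] at hi
      rcases hi with rfl | hi
      · exact ⟨hus ((hCm i).1 hieC).1, hieH⟩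
      · exact hWs i hi.2
    have h1 := hTW T _ hT hW's
    have h3 : ∑ i ∈ insert ie (W.erase ir), f i = f ie + (∑ i ∈ W, f i - f ir) := by
      rw [sum_insert (fun h => hieW (mem_of_mem_erase h))]
      have h4 := sum_erase_eq_sub (f := f) hirW
      rw [h4]
    rw [h3, hy, hWsum] at h1
    have h2 : y + (f ie + (f i0 + ∑ i ∈ U, f i - f ir)) = x + f i0 := by
      have h5 : x = y + (f ie - f ir) + ∑ i ∈ U, f i := by
        rw [← hz]
        abel
      rw [h5]
      abel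
    rwa [h2] at h1

end Pool.Agent.MDR
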