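import Pool.Agent.MDR.St

/-!
# MDR, Sp2: splitting `Cap 2` into two `Cap 1` halves
-/

set_option autoImplicit false

noncomputable section

open Finset Pool.Agent.Helper64.Rho Pool.Agent.SDG
open scoped Classical Pointwise

namespace Pool.Agent.MDR

section Sp2

variable {G ι : Type} [AddCommGroup G]

/-- at most one member in every class -/
private def Sp2_C (f : ι → G) (t : Finset ι) : Prop :=
  ∀ a ∈ t, ∀ b ∈ t, (f a = f b ∨ f a = -f b) → a = b

private theorem Sp2_cap (f : ι → G) (t : Finset ι) : Cap 1 t f ↔ Sp2_C f t := by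
  constructor
  · intro h a ha b hb hab
    exact card_le_one.1 (h (f b)) a (mem_filter.2 ⟨ha, hab⟩) b (mem_filter.2 ⟨hb, Or.inl rfl⟩)
  · intro h x
    rw [card_le_one]
    intro a ha b hb
    rw [mem_filter] at ha hb
    refine h a ha.1 b hb.1 ?_
    rcases ha.2 with h1 | h1 <;> rcases hb.2 with h2 | h2 <;> rw [h1, h2]
    · exact Or.inl rfl
    · exact Or.inr (neg_neg x).symm
    · exact Or.inr rfl
    · exact Or.inl rfl

private theorem Sp2_ins (f : ι → G) (t : Finset ι) (a : ι) (ht : Sp2_C f t)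
    (h : ∀ b ∈ t, ¬ (f b = f a ∨ f b = -f a)) : Sp2_C f (insert a t) := by
  intro b hb c hc hbc
  rcases mem_insert.1 hb with hb' | hb' <;> rcases mem_insert.1 hc with hc' | hc'
  · rw [hb', hc']
  · exfalso
    apply h c hc'
    rw [hb'] at hbc
    rcases hbc with h1 | h1
    · exact Or.inl h1.symm
    · exact Or.inr (by rw [h1, neg_neg])
  · exfalso
    apply h b hb'
    rw [hc'] at hbc
    exact hbc
  · exact ht b hb' c hc' hbc

private theorem Sp2_sub (f : ι → G) (t t' : Finset ι) (h : t' ⊆ t) (ht : Sp2_C f t) :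
    Sp2_C f t' := fun a ha b hb hab => ht a (h ha) b (h hb) hab

private theorem Sp2_ex (f : ι → G) (s : Finset ι) (hs : Cap 2 s f) :
    ∃ t ⊆ s, Sp2_C f t ∧ Sp2_C f (s \ t) := by
  induction s using Finset.induction_on with
  | empty =>
    refine ⟨∅, Subset.refl _, fun a ha => absurd ha (notMem_empty a), ?_⟩
    rw [sdiff_empty]
    exact fun a ha => absurd ha (notMem_empty a)
  | insert a s ha ih =>
    have hs' : Cap 2 s f := fun x =>
      (card_le_card (filter_subset_filter _ (subset_insert a s))).trans (hs x)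
    obtain ⟨t, ht, h1, h2⟩ := ih hs'
    by_cases hb : ∃ b ∈ t, f b = f a ∨ f b = -f a
    · obtain ⟨b, hb, hba⟩ := hb
      refine ⟨t, ht.trans (subset_insert a s), h1, ?_⟩
      have h3 : insert a s \ t = insert a (s \ t) := by
        rw [insert_sdiff_of_notMem]
        exact fun h => ha (ht h)
      rw [h3]
      refine Sp2_ins f _ a h2 ?_
      intro c hc hca
      rw [mem_sdiff] at hc
      have h4 : ({a, b, c} : Finset ι) ⊆ (insert a s).filter fun i => f i = f a ∨ f i = -f a := by
        intro i hi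
        rw [mem_insert, mem_insert, mem_singleton] at hi
        rw [mem_filter]
        rcases hi with rfl | rfl | rfl
        · exact ⟨mem_insert_self _ _, Or.inl rfl⟩
        · exact ⟨mem_insert_of_mem (ht hb), hba⟩
        · exact ⟨mem_insert_of_mem hc.1, hca⟩
      have h5 : a ≠ b := fun h => ha (h ▸ ht hb)
      have h6 : a ≠ c := fun h => ha (h ▸ hc.1)
      have h7 : b ≠ c := fun h => hc.2 (h ▸ hb)
      have h8 : ({a, b, c} : Finset ι).card = 3 := card_eq_three.2 ⟨a, b, c, h5, h6, h7, rfl⟩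
      have h9 := (card_le_card h4).trans (hs (f a))
      omega
    · push Not at hb
      refine ⟨insert a t, insert_subset_insert a ht, Sp2_ins f t a h1 fun b hb' => ?_, ?_⟩
      · rw [not_or]
        exact hb b hb'
      · refine Sp2_sub f (s \ t) _ ?_ h2
        intro i hi
        rw [mem_sdiff, mem_insert, mem_insert, not_or] at hi
        rw [mem_sdiff]
        rcases hi.1 with h | h
        · exact absurd h hi.2.1
        · exact ⟨h, hi.2.2⟩

end Sp2

theorem thm_Sp2 : St_Sp2 := by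
  intro G ι _ s f hf hs
  obtain ⟨t, ht, h1, h2⟩ := Sp2_ex f s hs
  let S : Finset (Finset ι) := s.powerset.filter fun t =>
    Sp2_C f t ∧ Sp2_C f (s \ t) ∧ s.card ≤ 2 * t.card
  have hS : S.Nonempty := by
    have hc := card_sdiff_add_card_eq_card ht
    by_cases h3 : s.card ≤ 2 * t.card
    · exact ⟨t, mem_filter.2 ⟨mem_powerset.2 ht, h1, h2, h3⟩⟩
    · refine ⟨s \ t, mem_filter.2 ⟨mem_powerset.2 sdiff_subset, h2, ?_, ?_⟩⟩
      · rw [Finset.sdiff_sdiff_eq_self ht]
        exact h1
      · omega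
  obtain ⟨t₀, ht₀, hmin⟩ := exists_min_image S Finset.card hS
  rw [mem_filter, mem_powerset] at ht₀
  obtain ⟨ht₀s, hc1, hc2, hc3⟩ := ht₀
  have hcard := card_sdiff_add_card_eq_card ht₀s
  refine ⟨t₀, s \ t₀, disjoint_sdiff, union_sdiff_of_subset ht₀s,
    ⟨fun i hi => hf i (ht₀s hi), (Sp2_cap f t₀).2 hc1⟩,
    ⟨fun i hi => hf i (mem_sdiff.1 hi).1, (Sp2_cap f _).2 hc2⟩, by omega, ?_⟩
  by_contra hlt
  push Not at hlt
  have hz : ∃ z ∈ t₀, ∀ b ∈ s \ t₀, ¬ (f b = f z ∨ f b = -f z) := by
    by_contra hno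
    push Not at hno
    have hno' : ∀ z : ι, ∃ b : ι, z ∈ t₀ → b ∈ s \ t₀ ∧ (f b = f z ∨ f b = -f z) := by
      intro z
      by_cases hz : z ∈ t₀
      · obtain ⟨b, hb, hb'⟩ := hno z hz
        exact ⟨b, fun _ => ⟨hb, hb'⟩⟩
      · exact ⟨z, fun h => absurd h hz⟩
    choose φ hφ using hno'
    have h3 : t₀.card ≤ (s \ t₀).card := by
      refine card_le_card_of_injOn φ (fun z hz => (hφ z hz).1) ?_
      intro z hz w hw hzw
      refine hc1 z hz w hw ?_
      have h4 := (hφ z hz).2
      have h5 := (hφ w hw).2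
      rw [hzw] at h4
      rcases h4 with h4 | h4 <;> rcases h5 with h5 | h5
      · exact Or.inl (h4.symm.trans h5)
      · exact Or.inr (h4.symm.trans h5)
      · right
        rw [← h5, h4, neg_neg]
      · left
        exact neg_injective (h4.symm.trans h5)
    omega
  obtain ⟨z, hz, hzb⟩ := hz
  have h4 : s \ t₀.erase z = insert z (s \ t₀) := by
    ext i
    rw [mem_sdiff, mem_insert, mem_sdiff, mem_erase]
    constructor
    · rintro ⟨hi, hi'⟩
      by_cases h : i = z
      · exact Or.inl h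
      · exact Or.inr ⟨hi, fun h' => hi' ⟨h, h'⟩⟩
    · rintro (h | h)
      · exact ⟨h ▸ ht₀s hz, fun h' => h'.1 h⟩
      · exact ⟨h.1, fun h' => h.2 h'.2⟩
  have h5 : t₀.erase z ∈ S := by
    refine mem_filter.2 ⟨mem_powerset.2 ((erase_subset z t₀).trans ht₀s),
      Sp2_sub f t₀ _ (erase_subset z t₀) hc1, ?_, ?_⟩
    · rw [h4]
      exact Sp2_ins f _ z hc2 hzb
    · rw [card_erase_of_mem hz]
      omega
  have h6 := hmin _ h5
  rw [card_erase_of_mem hz] at h6
  have h7 := card_pos.2 ⟨z, hz⟩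
  omega

end Pool.Agent.MDR
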