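import Mathlib
import Pool.Agent.MDR.St
import Pool.Agent.MDR.No

set_option autoImplicit false

noncomputable section

open Finset Pool.Agent.Helper64.Rho Pool.Agent.SDG
open scoped Classical Pointwise

namespace Pool.Agent.MDR

/-- members with the same value up to sign are equal -/
lemma Sy_inj {G ι : Type} [AddCommGroup G] {s : Finset ι} {f : ι → G} (h : AS s f) {i j : ι} (hi : i ∈ s) (hj : j ∈ s)
    (hij : f i = f j ∨ f i = - f j) : i = j := by
  have h1 := h.2 (f j)
  rw [card_le_one] at h1
  exact h1 i (mem_filter.2 ⟨hi, hij⟩) j (mem_filter.2 ⟨hj, Or.inl rfl⟩)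

theorem thm_Sy : St_Sy := by
  intro G ι _ _ s f hodd h
  refine ⟨?_, ?_, ?_, ?_, ?_⟩
  · unfold sym
    have e1 : (s.image f).card = s.card := by
      apply card_image_of_injOn
      intro i hi j hj hij
      exact Sy_inj h hi hj (Or.inl hij)
    have e2 : (s.image fun i => - f i).card = s.card := by
      apply card_image_of_injOn
      intro i hi j hj hij
      exact Sy_inj h hi hj (Or.inl (neg_injective hij))
    have e3 : Disjoint (s.image f) (s.image fun i => - f i) := by
      rw [disjoint_left]
      intro x hx hx2
      obtain ⟨i, hi, rfl⟩ := mem_image.1 hx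
      obtain ⟨j, hj, hij⟩ := mem_image.1 hx2
      have := Sy_inj h hi hj (Or.inr hij.symm)
      subst this
      apply h.1 i hi
      apply No_half hodd
      nth_rewrite 1 [← hij]
      exact neg_add_cancel _
    have e4 : Disjoint ({0} : Finset G) (s.image f ∪ s.image fun i => - f i) := by
      rw [disjoint_singleton_left, mem_union, not_or]
      refine ⟨?_, ?_⟩
      · intro hx
        obtain ⟨i, hi, hi2⟩ := mem_image.1 hx
        exact h.1 i hi hi2
      · intro hx
        obtain ⟨i, hi, hi2⟩ := mem_image.1 hx
        exact h.1 i hi (neg_eq_zero.1 hi2)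
    rw [card_union_of_disjoint e4, card_union_of_disjoint e3, e1, e2, card_singleton]
    omega
  · unfold sym
    exact mem_union_left _ (mem_singleton_self _)
  · intro y hy
    unfold sym at hy ⊢
    simp only [mem_union, mem_singleton, mem_image] at hy ⊢
    rcases hy with h1 | ⟨i, hi, rfl⟩ | ⟨i, hi, rfl⟩
    · left; rw [h1, neg_zero]
    · right; right; exact ⟨i, hi, rfl⟩
    · right; left; exact ⟨i, hi, (neg_neg _).symm⟩
  · unfold gen sym
    apply le_antisymm
    · rw [AddSubgroup.closure_le]
      intro y hy
      simp only [coe_union, coe_singleton, coe_image, Set.mem_union, Set.mem_singleton_iff, Set.mem_image, mem_coe] at hy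
      rcases hy with h1 | ⟨i, hi, rfl⟩ | ⟨i, hi, rfl⟩
      · rw [h1]; exact (AddSubgroup.closure _).zero_mem
      · exact AddSubgroup.subset_closure ⟨i, hi, rfl⟩
      · exact (AddSubgroup.closure _).neg_mem (AddSubgroup.subset_closure ⟨i, hi, rfl⟩)
    · rw [AddSubgroup.closure_le]
      rintro _ ⟨i, hi, rfl⟩
      apply AddSubgroup.subset_closure
      simp only [coe_union, coe_singleton, coe_image, Set.mem_union, Set.mem_image]
      right; left; exact ⟨i, hi, rfl⟩
  · intro X j hX y hy
    unfold sym at hy
    simp only [mem_union, mem_singleton, mem_image] at hy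
    rcases hy with h1 | ⟨i, hi, rfl⟩ | ⟨i, hi, rfl⟩
    · rw [h1, lam_zero]; exact Nat.zero_le _
    · exact hX i hi
    · rw [lam_neg]; exact hX i hi

end Pool.Agent.MDR
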